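import Mathlib
import Pool.Graph.R_seed8.H790R3.RB.TDISC
import Pool.Graph.R_seed8.W440.RE.Jt

/-! Project GF (helper207, MP_8f2e1c_an): maps with zero area in arbitrary analytic families.
Analytic sets, part 1: straightening and local structure. -/

set_option autoImplicit false

open Topology Filter Metric Set

namespace Pool.Agent.H207.GF

section Chart

variable {E : Type} [NormedAddCommGroup E] [NormedSpace ℂ E] [FiniteDimensional ℂ E]

/-- dual vectors -/
theorem exists_dual {ρ : ℕ} {f : Fin ρ → E →L[ℂ] ℂ} (hf : LinearIndependent ℂ f) :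
    ∃ v : Fin ρ → E, ∀ a b, f a (v b) = if a = b then 1 else 0 := by
  classical
  let L : E →ₗ[ℂ] (Fin ρ → ℂ) := LinearMap.pi fun a => (f a).toLinearMap
  have hL : LinearMap.range L = ⊤ := by
    by_contra hne
    obtain ⟨φ, hφ, hle⟩ := Submodule.exists_le_ker_of_lt_top _ (lt_top_iff_ne_top.2 hne)
    apply hφ
    have h1 : ∀ x : Fin ρ → ℂ, φ x = ∑ a, x a * φ (Pi.single a 1) := by
      intro x
      conv_lhs => rw [pi_eq_sum_univ' x]
      rw [map_sum]
      refine Finset.sum_congr rfl fun a _ => ?_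
      rw [map_smul, smul_eq_mul]
    have h2 : ∑ a, φ (Pi.single a 1) • f a = 0 := by
      ext x
      have h3 : φ (L x) = 0 := hle ⟨x, rfl⟩
      rw [h1] at h3
      rw [_root_.sum_apply, _root_.zero_apply, ← h3]
      refine Finset.sum_congr rfl fun a _ => ?_
      rw [_root_.smul_apply, smul_eq_mul, mul_comm]
      rfl
    have h4 := Fintype.linearIndependent_iff.1 hf _ h2
    apply LinearMap.ext
    intro x
    rw [h1, LinearMap.zero_apply]
    exact Finset.sum_eq_zero fun a _ => by rw [h4 a, mul_zero]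
  have h5 : ∀ b, ∃ v, L v = Pi.single b 1 := fun b => by
    have : (Pi.single b 1 : Fin ρ → ℂ) ∈ LinearMap.range L := by rw [hL]; trivial
    exact this
  choose v hv using h5
  refine ⟨v, fun a b => ?_⟩
  have h6 := congrFun (hv b) a
  rw [Pi.single_apply] at h6
  exact h6

theorem indep_of_dual {ρ : ℕ} {f : Fin ρ → E →L[ℂ] ℂ} {v : Fin ρ → E}
    (h : ∀ a b, f a (v b) = if a = b then 1 else 0) : LinearIndependent ℂ v := by
  rw [Fintype.linearIndependent_iff]
  intro c hc a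
  have h1 := congrArg (f a) hc
  rw [map_sum, map_zero] at h1
  simp only [map_smul, h, smul_eq_mul, mul_ite, mul_one, mul_zero, Finset.sum_ite_eq,
    Finset.mem_univ, if_true] at h1
  exact h1

theorem indep_card {ρ : ℕ} {f : Fin ρ → E →L[ℂ] ℂ} (hf : LinearIndependent ℂ f) :
    ρ ≤ Module.finrank ℂ E := by
  obtain ⟨v, hv⟩ := exists_dual hf
  have := (indep_of_dual hv).fintype_card_le_finrank
  rwa [Fintype.card_fin] at this

/-- straightening of a family of functions with independent derivatives -/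
theorem chart {ρ : ℕ} {h : Fin ρ → E → ℂ} {O : Set E} (hO : IsOpen O)
    (hd : ∀ a, DifferentiableOn ℂ (h a) O) {z : E} (hz : z ∈ O) (h0 : ∀ a, h a z = 0)
    (hli : LinearIndependent ℂ fun a => fderiv ℂ (h a) z) :
    ∃ (ε : ℝ) (Φ Ψ : E → E), 0 < ε ∧ DifferentiableOn ℂ Φ (ball 0 ε) ∧ Φ 0 = z ∧
      HasFDerivAt Φ (ContinuousLinearMap.id ℂ E) 0 ∧
      (∀ ζ ∈ ball (0 : E) ε, Φ ζ ∈ O ∧ ∀ a, h a (Φ ζ) = fderiv ℂ (h a) z ζ) ∧
      ContinuousAt Ψ z ∧ Ψ z = 0 ∧ ∀ᶠ w in 𝓝 z, Φ (Ψ w) = w := by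
  classical
  obtain ⟨v, hv⟩ := exists_dual hli
  let Ψ : E → E := fun w => (w - z) + ∑ a, (h a w - fderiv ℂ (h a) z (w - z)) • v a
  have hΨz : Ψ z = 0 := by
    simp only [Ψ, sub_self, map_zero, h0, zero_smul, Finset.sum_const_zero, add_zero]
  have hc : ∀ a, ContDiffAt ℂ 1 (h a) z := fun a => by
    have := (Helper540.contDiffOn_of_differentiableOn hO (hd a) 1).contDiffAt (hO.mem_nhds hz)
    exact_mod_cast this
  have hlin : ∀ a, ContDiff ℂ 1 (fun w : E => fderiv ℂ (h a) z (w - z)) := fun a =>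
    (fderiv ℂ (h a) z).contDiff.comp (contDiff_id.sub contDiff_const)
  have hΨc : ContDiffAt ℂ 1 Ψ z := by
    refine (contDiffAt_id.sub contDiffAt_const).add ?_
    refine ContDiffAt.sum fun a _ => ?_
    exact ((hc a).sub (hlin a).contDiffAt).smul contDiffAt_const
  have hΨd : HasFDerivAt Ψ ((ContinuousLinearEquiv.refl ℂ E : E ≃L[ℂ] E) : E →L[ℂ] E) z := by
    have h1 : HasFDerivAt Ψ (ContinuousLinearMap.id ℂ E +
        ∑ a, (fderiv ℂ (h a) z - fderiv ℂ (h a) z).smulRight (v a)) z := by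
      refine ((hasFDerivAt_id z).sub_const z).add ?_
      refine HasFDerivAt.fun_sum fun a _ => ?_
      have h2 : HasFDerivAt (h a) (fderiv ℂ (h a) z) z :=
        ((hd a).differentiableAt (hO.mem_nhds hz)).hasFDerivAt
      have h3 : HasFDerivAt (fun w : E => fderiv ℂ (h a) z (w - z)) (fderiv ℂ (h a) z) z := by
        have h4 := (fderiv ℂ (h a) z).hasFDerivAt.comp z ((hasFDerivAt_id z).sub_const z)
        exact h4
      exact (h2.sub h3).smul_const (v a)
    have h5 : (ContinuousLinearMap.id ℂ E +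
        ∑ a, (fderiv ℂ (h a) z - fderiv ℂ (h a) z).smulRight (v a)) =
        ((ContinuousLinearEquiv.refl ℂ E : E ≃L[ℂ] E) : E →L[ℂ] E) := by
      ext x
      simp
    rw [← h5]
    exact h1
  set Φ : E → E := hΨc.localInverse hΨd one_ne_zero with hΦ
  have hΦ0 : Φ 0 = z := by
    have := hΨc.localInverse_apply_image hΨd one_ne_zero
    rw [hΨz] at this
    exact this
  have hΦc : ContDiffAt ℂ 1 Φ 0 := by
    have := hΨc.to_localInverse hΨd one_ne_zero
    rw [hΨz] at this
    exact this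
  have hstr := hΨc.hasStrictFDerivAt' hΨd one_ne_zero
  have hR : ∀ᶠ p in 𝓝 (0 : E), Ψ (Φ p) = p := by
    have := hstr.eventually_right_inverse
    rw [hΨz] at this
    exact this
  have hLi : ∀ᶠ w in 𝓝 z, Φ (Ψ w) = w := hstr.eventually_left_inverse
  have hdiff : ∀ᶠ p in 𝓝 (0 : E), DifferentiableAt ℂ Φ p :=
    (hΦc.eventually (by simp)).mono fun p hp => hp.differentiableAt one_ne_zero
  have hmem : ∀ᶠ p in 𝓝 (0 : E), Φ p ∈ O := by
    have := hΦc.continuousAt.eventually_mem (by rw [hΦ0]; exact hO.mem_nhds hz)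
    exact this
  obtain ⟨ε, hε, hb⟩ := Metric.eventually_nhds_iff_ball.1 (hR.and (hdiff.and hmem))
  refine ⟨ε, Φ, Ψ, hε, fun p hp => (hb p hp).2.1.differentiableWithinAt, hΦ0, ?_, ?_,
    hΨc.continuousAt, hΨz, hLi⟩
  · have h1 : HasFDerivAt Φ (fderiv ℂ Φ 0) 0 := (hdiff.self_of_nhds).hasFDerivAt
    have h2 : HasFDerivAt (fun p => Ψ (Φ p)) (((ContinuousLinearEquiv.refl ℂ E : E ≃L[ℂ] E) :
        E →L[ℂ] E).comp (fderiv ℂ Φ 0)) 0 := by
      have h3 : HasFDerivAt Ψ ((ContinuousLinearEquiv.refl ℂ E : E ≃L[ℂ] E) : E →L[ℂ] E)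
          (Φ 0) := by rw [hΦ0]; exact hΨd
      exact h3.comp 0 h1
    have h4 : HasFDerivAt (fun p => Ψ (Φ p)) (ContinuousLinearMap.id ℂ E) 0 :=
      (hasFDerivAt_id (0 : E)).congr_of_eventuallyEq hR
    have h5 := h2.unique h4
    have h6 : fderiv ℂ Φ 0 = ContinuousLinearMap.id ℂ E := by
      ext x
      have := congrArg (fun g : E →L[ℂ] E => g x) h5
      simpa using this
    rw [← h6]
    exact h1
  · intro ζ hζ
    refine ⟨(hb ζ hζ).2.2, fun b => ?_⟩
    have h1 := congrArg (fderiv ℂ (h b) z) (hb ζ hζ).1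
    rw [← h1]
    simp only [Ψ, map_add, map_sum, map_smul, hv, smul_eq_mul, mul_ite, mul_one, mul_zero,
      Finset.sum_ite_eq, Finset.mem_univ, if_true]
    ring

end Chart

section Red

variable {I : Type} [Fintype I] [DecidableEq I]

/-- holomorphic functions on `O` which vanish on `C` -/
def Van (O C : Set (I → ℂ)) : Set ((I → ℂ) → ℂ) := {g | DifferentiableOn ℂ g O ∧ ∀ w ∈ C, g w = 0}

/-- a maximal independent family -/
theorem exists_max {O C : Set (I → ℂ)} (hC : C.Nonempty) :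
    ∃ (ρ : ℕ) (h : Fin ρ → (I → ℂ) → ℂ) (z : I → ℂ), z ∈ C ∧ (∀ a, h a ∈ Van O C) ∧
      (LinearIndependent ℂ fun a => fderiv ℂ (h a) z) ∧
      ∀ (h' : Fin (ρ + 1) → (I → ℂ) → ℂ) (z' : I → ℂ), z' ∈ C → (∀ a, h' a ∈ Van O C) →
        ¬ LinearIndependent ℂ fun a => fderiv ℂ (h' a) z' := by
  classical
  let P : ℕ → Prop := fun ρ => ∃ (h : Fin ρ → (I → ℂ) → ℂ) (z : I → ℂ), z ∈ C ∧
    (∀ a, h a ∈ Van O C) ∧ LinearIndependent ℂ fun a => fderiv ℂ (h a) z
  have hP0 : P 0 := by
    obtain ⟨z, hz⟩ := hC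
    exact ⟨fun a => a.elim0, z, hz, fun a => a.elim0, linearIndependent_empty_type⟩
  have hbd : ∀ ρ, P ρ → ρ ≤ Module.finrank ℂ (I → ℂ) := by
    rintro ρ ⟨h, z, -, -, hli⟩
    exact indep_card hli
  set N := Module.finrank ℂ (I → ℂ) with hN
  have h1 := Nat.findGreatest_spec (P := P) (Nat.zero_le N) hP0
  obtain ⟨h, z, hz, hh, hli⟩ := h1
  refine ⟨Nat.findGreatest P N, h, z, hz, hh, hli, ?_⟩
  intro h' z' hz' hh' hli'
  have h2 : P (Nat.findGreatest P N + 1) := ⟨h', z', hz', hh', hli'⟩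
  exact Nat.findGreatest_is_greatest (Nat.lt_succ_self _) (hbd _ h2) h2

/-- the matrix of the derivatives of `h` in the directions `v` -/
noncomputable def Am {ρ : ℕ} (h : Fin ρ → (I → ℂ) → ℂ) (v : Fin ρ → I → ℂ) (w : I → ℂ) :
    Matrix (Fin ρ) (Fin ρ) ℂ := Matrix.of fun a b => fderiv ℂ (h a) w (v b)

/-- differentiation along the level sets of `h` -/
noncomputable def Dt {ρ : ℕ} (h : Fin ρ → (I → ℂ) → ℂ) (v : Fin ρ → I → ℂ) (g : (I → ℂ) → ℂ)
    (w u : I → ℂ) : ℂ :=
  (Am h v w).det * ((Am h v w).det * fderiv ℂ g w u -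
    ∑ a, ∑ b, fderiv ℂ g w (v b) * (Am h v w).adjugate b a * fderiv ℂ (h a) w u)

theorem det_Am_diff {ρ : ℕ} {h : Fin ρ → (I → ℂ) → ℂ} {O : Set (I → ℂ)} (hO : IsOpen O)
    (hd : ∀ a, DifferentiableOn ℂ (h a) O) (v : Fin ρ → I → ℂ) :
    DifferentiableOn ℂ (fun w => (Am h v w).det) O := by
  apply Pool.Agent.W440.RE.JT.det_diff
  intro a b
  exact Pool.Agent.Helper540.differentiableOn_fderiv_apply hO (hd a) _

theorem Dt_diff {ρ : ℕ} {h : Fin ρ → (I → ℂ) → ℂ} {O : Set (I → ℂ)} (hO : IsOpen O)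
    (hd : ∀ a, DifferentiableOn ℂ (h a) O) (v : Fin ρ → I → ℂ) {g : (I → ℂ) → ℂ}
    (hg : DifferentiableOn ℂ g O) (u : I → ℂ) : DifferentiableOn ℂ (fun w => Dt h v g w u) O := by
  have h1 := det_Am_diff hO hd v
  have h2 : ∀ a b, DifferentiableOn ℂ (fun w => (Am h v w).adjugate b a) O := by
    intro a b
    simp only [Matrix.adjugate_apply]
    apply Pool.Agent.W440.RE.JT.det_diff
    intro i j
    by_cases hi : i = a
    · subst hi
      simp only [Matrix.updateRow_self]
      exact differentiableOn_const _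
    · simp only [Matrix.updateRow_ne hi]
      exact Pool.Agent.Helper540.differentiableOn_fderiv_apply hO (hd i) _
  have hf : ∀ (f : (I → ℂ) → ℂ), DifferentiableOn ℂ f O → ∀ x,
      DifferentiableOn ℂ (fun w => fderiv ℂ f w x) O :=
    fun f hf x => Pool.Agent.Helper540.differentiableOn_fderiv_apply hO hf x
  unfold Dt
  refine h1.mul ((h1.mul (hf g hg u)).sub ?_)
  refine DifferentiableOn.fun_sum fun a _ => DifferentiableOn.fun_sum fun b _ => ?_
  exact ((hf g hg (v b)).mul (h2 a b)).mul (hf (h a) (hd a) u)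

theorem Dt_zero {ρ : ℕ} {h : Fin ρ → (I → ℂ) → ℂ} {v : Fin ρ → I → ℂ} {g : (I → ℂ) → ℂ}
    {w : I → ℂ} (hmax : ¬ LinearIndependent ℂ fun a : Fin (ρ + 1) =>
      fderiv ℂ ((Fin.cons g h : Fin (ρ + 1) → (I → ℂ) → ℂ) a) w) (u : I → ℂ) :
    Dt h v g w u = 0 := by
  classical
  by_cases hΔ : (Am h v w).det = 0
  · unfold Dt
    rw [hΔ, zero_mul]
  have hli : LinearIndependent ℂ fun a => fderiv ℂ (h a) w := by
    rw [Fintype.linearIndependent_iff]
    intro c hc
    have h1 : Matrix.vecMul c (Am h v w) = 0 := by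
      ext b
      have h2 := congrArg (fun f : (I → ℂ) →L[ℂ] ℂ => f (v b)) hc
      simp only [_root_.sum_apply, _root_.smul_apply, smul_eq_mul, _root_.zero_apply] at h2
      simp only [Matrix.vecMul, dotProduct, Am, Matrix.of_apply, Pi.zero_apply]
      exact h2
    have h3 := Matrix.eq_zero_of_vecMul_eq_zero hΔ h1
    exact fun a => congrFun h3 a
  have hcons : (fun a : Fin (ρ + 1) => fderiv ℂ ((Fin.cons g h : Fin (ρ + 1) → (I → ℂ) → ℂ) a) w) =
      Fin.cons (fderiv ℂ g w) (fun a => fderiv ℂ (h a) w) := by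
    funext a
    refine Fin.cases ?_ (fun a => ?_) a
    · simp
    · simp
  rw [hcons, linearIndependent_finCons] at hmax
  have hspan : fderiv ℂ g w ∈ Submodule.span ℂ (Set.range fun a => fderiv ℂ (h a) w) := by
    by_contra hcon
    exact hmax ⟨hli, hcon⟩
  obtain ⟨c, hc⟩ := (Submodule.mem_span_range_iff_exists_fun ℂ).1 hspan
  have hg : ∀ x, fderiv ℂ g w x = ∑ e, c e * fderiv ℂ (h e) w x := by
    intro x
    rw [← hc, _root_.sum_apply]
    rfl
  have hadj : ∀ e a, ∑ b, fderiv ℂ (h e) w (v b) * (Am h v w).adjugate b a =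
      if e = a then (Am h v w).det else 0 := by
    intro e a
    have h1 := congrFun (congrFun (Matrix.mul_adjugate (Am h v w)) e) a
    rw [Matrix.mul_apply, Matrix.smul_apply, Matrix.one_apply, smul_eq_mul, mul_ite, mul_one,
      mul_zero] at h1
    exact h1
  have hsum : ∑ a, ∑ b, fderiv ℂ g w (v b) * (Am h v w).adjugate b a * fderiv ℂ (h a) w u =
      (Am h v w).det * fderiv ℂ g w u := by
    calc ∑ a, ∑ b, fderiv ℂ g w (v b) * (Am h v w).adjugate b a * fderiv ℂ (h a) w u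
        = ∑ a, (∑ e, c e * ∑ b, fderiv ℂ (h e) w (v b) * (Am h v w).adjugate b a) *
            fderiv ℂ (h a) w u := by
          refine Finset.sum_congr rfl fun a _ => ?_
          rw [← Finset.sum_mul]
          congr 1
          simp only [hg, Finset.sum_mul, Finset.mul_sum]
          rw [Finset.sum_comm]
          refine Finset.sum_congr rfl fun e _ => Finset.sum_congr rfl fun b _ => by ring
      _ = ∑ a, (c a * (Am h v w).det) * fderiv ℂ (h a) w u := by
          refine Finset.sum_congr rfl fun a _ => ?_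
          simp only [hadj, mul_ite, mul_zero, Finset.sum_ite_eq', Finset.mem_univ, if_true]
      _ = (Am h v w).det * fderiv ℂ g w u := by
          rw [hg, Finset.mul_sum]
          refine Finset.sum_congr rfl fun a _ => by ring
  unfold Dt
  rw [hsum, sub_self, mul_zero]

theorem Dt_kernel {ρ : ℕ} {h : Fin ρ → (I → ℂ) → ℂ} {v : Fin ρ → I → ℂ} {g : (I → ℂ) → ℂ}
    {w u : I → ℂ} (hu : ∀ a, fderiv ℂ (h a) w u = 0) :
    (Am h v w).det ^ 2 * fderiv ℂ g w u = ∑ i, u i * Dt h v g w (Pi.single i 1) := by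
  have hexp : ∀ f : (I → ℂ) →L[ℂ] ℂ, f u = ∑ i, u i * f (Pi.single i 1) := by
    intro f
    conv_lhs => rw [pi_eq_sum_univ' u]
    rw [map_sum]
    refine Finset.sum_congr rfl fun a _ => ?_
    rw [map_smul, smul_eq_mul]
  have h1 : ∑ i, u i * Dt h v g w (Pi.single i 1) = (Am h v w).det *
      ((Am h v w).det * ∑ i, u i * fderiv ℂ g w (Pi.single i 1) -
        ∑ a, ∑ b, fderiv ℂ g w (v b) * (Am h v w).adjugate b a *
          ∑ i, u i * fderiv ℂ (h a) w (Pi.single i 1)) := by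
    unfold Dt
    rw [mul_sub, Finset.mul_sum, Finset.mul_sum, Finset.mul_sum]
    have e1 : ∀ i, u i * ((Am h v w).det * ((Am h v w).det * fderiv ℂ g w (Pi.single i 1) -
        ∑ a, ∑ b, fderiv ℂ g w (v b) * (Am h v w).adjugate b a *
          fderiv ℂ (h a) w (Pi.single i 1))) =
        (Am h v w).det * ((Am h v w).det * (u i * fderiv ℂ g w (Pi.single i 1))) -
        ∑ a, ∑ b, (Am h v w).det * (fderiv ℂ g w (v b) * (Am h v w).adjugate b a *
          (u i * fderiv ℂ (h a) w (Pi.single i 1))) := by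
      intro i
      have e2 : ∑ a, ∑ b, (Am h v w).det * (fderiv ℂ g w (v b) * (Am h v w).adjugate b a *
          (u i * fderiv ℂ (h a) w (Pi.single i 1))) = u i * (Am h v w).det *
          ∑ a, ∑ b, fderiv ℂ g w (v b) * (Am h v w).adjugate b a *
          fderiv ℂ (h a) w (Pi.single i 1) := by
        rw [Finset.mul_sum]
        refine Finset.sum_congr rfl fun a _ => ?_
        rw [Finset.mul_sum]
        refine Finset.sum_congr rfl fun b _ => by ring
      rw [e2]
      ring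
    simp only [e1]
    rw [Finset.sum_sub_distrib]
    congr 1
    rw [Finset.sum_comm]
    refine Finset.sum_congr rfl fun a _ => ?_
    rw [Finset.sum_comm, Finset.mul_sum]
    refine Finset.sum_congr rfl fun b _ => ?_
    rw [Finset.mul_sum, Finset.mul_sum]
  rw [h1, ← hexp]
  have h2 : ∀ a, ∑ i, u i * fderiv ℂ (h a) w (Pi.single i 1) = 0 := fun a => by
    rw [← hexp, hu]
  simp only [h2, mul_zero, Finset.sum_const_zero, sub_zero]
  ring

end Red

end Pool.Agent.H207.GF
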