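import Mathlib
import Pool.Agent.H207.GF.An1

/-! Project GF: analytic sets, part 2: the zero set of all functions which vanish on a set is locally
contained in every such zero set. -/

set_option autoImplicit false

open Topology Filter Metric Set

namespace Pool.Agent.H207.GF

variable {I : Type} [Fintype I]

/-- the order of vanishing along a curve in the level sets of `h` can be increased indefinitely -/
theorem ord_step {O C : Set (I → ℂ)} {γ : ℂ → I → ℂ} {γ' : ℂ → I → ℂ}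
    (hγ : ∀ t ∈ ball (0 : ℂ) 2, HasDerivAt γ (γ' t) t) (hγ'c : ContinuousOn γ' (ball 0 2))
    (hO : IsOpen O) (hγO : ∀ t ∈ ball (0 : ℂ) 2, γ t ∈ O) (hγ0 : γ 0 ∈ C)
    {Δ : (I → ℂ) → ℂ} (hΔ : ContinuousOn Δ O) (hΔ0 : ∀ t ∈ ball (0 : ℂ) 2, Δ (γ t) ≠ 0)
    {D : ((I → ℂ) → ℂ) → I → (I → ℂ) → ℂ} (hD : ∀ g ∈ Van O C, ∀ i, D g i ∈ Van O C)
    (hDg : ∀ g ∈ Van O C, ∀ t ∈ ball (0 : ℂ) 2,
      Δ (γ t) ^ 2 * fderiv ℂ g (γ t) (γ' t) = ∑ i, γ' t i * D g i (γ t)) (ν : ℕ) :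
    ∀ g ∈ Van O C, ∃ M : ℝ, 0 ≤ M ∧ ∀ t : ℂ, ‖t‖ ≤ 1 → ‖g (γ t)‖ ≤ M * ‖t‖ ^ ν := by
  have hsub : closedBall (0 : ℂ) 1 ⊆ ball 0 2 := closedBall_subset_ball (by norm_num)
  have hγc : ContinuousOn γ (ball 0 2) := fun t ht => (hγ t ht).continuousAt.continuousWithinAt
  induction ν with
  | zero =>
    intro g hg
    have h1 : ContinuousOn (fun t => g (γ t)) (closedBall 0 1) :=
      (hg.1.continuousOn.comp hγc hγO).mono hsub
    obtain ⟨M, hM⟩ := (isCompact_closedBall (0 : ℂ) 1).exists_bound_of_continuousOn h1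
    refine ⟨max M 0, le_max_right _ _, fun t ht => ?_⟩
    rw [pow_zero, mul_one]
    exact (hM t (by rwa [mem_closedBall_zero_iff])).trans (le_max_left _ _)
  | succ ν ih =>
    intro g hg
    choose M hM0 hM using fun i => ih (D g i) (hD g hg i)
    have hB : ∀ i, ∃ B : ℝ, ∀ t ∈ closedBall (0 : ℂ) 1, ‖γ' t i / Δ (γ t) ^ 2‖ ≤ B := by
      intro i
      apply (isCompact_closedBall (0 : ℂ) 1).exists_bound_of_continuousOn
      refine ContinuousOn.div ?_ ?_ ?_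
      · exact ((continuous_apply i).comp_continuousOn hγ'c).mono hsub
      · exact ((hΔ.comp hγc hγO).pow 2).mono hsub
      · intro t ht
        exact pow_ne_zero 2 (hΔ0 t (hsub ht))
    choose B hB using hB
    have hder : ∀ t ∈ ball (0 : ℂ) 2, HasDerivAt (fun t => g (γ t))
        (fderiv ℂ g (γ t) (γ' t)) t := by
      intro t ht
      exact (hg.1.differentiableAt (hO.mem_nhds (hγO t ht))).hasFDerivAt.comp_hasDerivAt t
        (hγ t ht)
    have hbd : ∀ t : ℂ, ‖t‖ ≤ 1 → ‖fderiv ℂ g (γ t) (γ' t)‖ ≤ (∑ i, |B i| * M i) * ‖t‖ ^ ν := by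
      intro t ht
      have ht1 : t ∈ closedBall (0 : ℂ) 1 := by rwa [mem_closedBall_zero_iff]
      have h1 := hDg g hg t (hsub ht1)
      have hne := pow_ne_zero 2 (hΔ0 t (hsub ht1))
      have h2 : fderiv ℂ g (γ t) (γ' t) = ∑ i, (γ' t i / Δ (γ t) ^ 2) * D g i (γ t) := by
        have h3 : ∑ i, (γ' t i / Δ (γ t) ^ 2) * D g i (γ t) =
            (∑ i, γ' t i * D g i (γ t)) / Δ (γ t) ^ 2 := by
          rw [Finset.sum_div]
          refine Finset.sum_congr rfl fun i _ => by ring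
        rw [h3, ← h1, mul_div_cancel_left₀ _ hne]
      rw [h2, Finset.sum_mul]
      refine (norm_sum_le _ _).trans (Finset.sum_le_sum fun i _ => ?_)
      rw [norm_mul, mul_assoc]
      exact mul_le_mul ((hB i t ht1).trans (le_abs_self _)) (hM i t ht) (norm_nonneg _)
        (abs_nonneg _)
    refine ⟨∑ i, |B i| * M i, Finset.sum_nonneg fun i _ => mul_nonneg (abs_nonneg _) (hM0 i), ?_⟩
    intro t ht
    have hs : closedBall (0 : ℂ) ‖t‖ ⊆ closedBall 0 1 := closedBall_subset_closedBall ht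
    have h1 := (convex_closedBall (0 : ℂ) ‖t‖).norm_image_sub_le_of_norm_deriv_le
      (f := fun t => g (γ t)) (C := (∑ i, |B i| * M i) * ‖t‖ ^ ν)
      (fun x hx => (hder x (hsub (hs hx))).differentiableAt) (by
        intro x hx
        rw [(hder x (hsub (hs hx))).deriv]
        have hx1 : ‖x‖ ≤ ‖t‖ := by rwa [mem_closedBall_zero_iff] at hx
        refine (hbd x (hx1.trans ht)).trans ?_
        refine mul_le_mul_of_nonneg_left (pow_le_pow_left₀ (norm_nonneg _) hx1 ν) ?_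
        exact Finset.sum_nonneg fun i _ => mul_nonneg (abs_nonneg _) (hM0 i))
      (mem_closedBall_self (norm_nonneg _)) (y := t) (by rw [mem_closedBall_zero_iff])
    have h2 : g (γ 0) = 0 := hg.2 _ hγ0
    rw [h2, sub_zero, sub_zero] at h1
    rw [pow_succ, ← mul_assoc]
    exact h1

/-- a holomorphic function of one variable with a zero of infinite order vanishes -/
theorem flat {f : ℂ → ℂ} {R : ℝ} (hR : 0 < R) (hf : DifferentiableOn ℂ f (ball 0 R))
    (h : ∀ ν : ℕ, ∃ M : ℝ, 0 ≤ M ∧ ∀ t : ℂ, ‖t‖ ≤ 1 → ‖f t‖ ≤ M * ‖t‖ ^ ν) :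
    ∀ t ∈ ball (0 : ℂ) R, f t = 0 := by
  have hA : AnalyticOnNhd ℂ f (ball 0 R) := hf.analyticOnNhd isOpen_ball
  have h0 : (0 : ℂ) ∈ ball (0 : ℂ) R := mem_ball_self hR
  have hev : ∀ᶠ t in 𝓝 (0 : ℂ), f t = 0 := by
    by_contra hne
    obtain ⟨n, g, hg, hg0, hfg⟩ :=
      ((hA 0 h0).exists_eventuallyEq_pow_smul_nonzero_iff).2 hne
    obtain ⟨M, hM, hb⟩ := h (n + 1)
    have h1 : ∀ᶠ t in 𝓝[≠] (0 : ℂ), ‖g t‖ ≤ M * ‖t‖ := by
      have e1 : ∀ᶠ t in 𝓝[≠] (0 : ℂ), f t = (t - 0) ^ n • g t := hfg.filter_mono nhdsWithin_le_nhds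
      have e2 : ∀ᶠ t in 𝓝[≠] (0 : ℂ), ‖t‖ ≤ 1 := by
        have : ∀ᶠ t in 𝓝 (0 : ℂ), t ∈ closedBall (0 : ℂ) 1 := closedBall_mem_nhds _ one_pos
        exact (this.filter_mono nhdsWithin_le_nhds).mono fun t ht => by
          rwa [mem_closedBall_zero_iff] at ht
      filter_upwards [e1, e2, self_mem_nhdsWithin] with t ht1 ht2 ht3
      have h2 := hb t ht2
      rw [ht1, sub_zero, norm_smul, norm_pow, pow_succ, ← mul_assoc, mul_comm M, mul_assoc] at h2
      have htp : 0 < ‖t‖ ^ n := pow_pos (norm_pos_iff.2 ht3) n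
      exact le_of_mul_le_mul_left h2 htp
    have h2 : Tendsto (fun t => ‖g t‖) (𝓝[≠] (0 : ℂ)) (𝓝 ‖g 0‖) :=
      (hg.continuousAt.norm.tendsto).mono_left nhdsWithin_le_nhds
    have h3 : Tendsto (fun t : ℂ => M * ‖t‖) (𝓝[≠] (0 : ℂ)) (𝓝 0) := by
      have : Tendsto (fun t : ℂ => M * ‖t‖) (𝓝 0) (𝓝 (M * ‖(0 : ℂ)‖)) :=
        (continuous_const.mul continuous_norm).tendsto 0
      rw [norm_zero, mul_zero] at this
      exact this.mono_left nhdsWithin_le_nhds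
    have h4 : ‖g 0‖ ≤ 0 := le_of_tendsto_of_tendsto h2 h3 h1
    exact hg0 (norm_le_zero_iff.1 h4)
  exact fun t ht => hA.eqOn_zero_of_preconnected_of_eventuallyEq_zero
    (convex_ball (0 : ℂ) R).isPreconnected h0 hev ht

/-- At a point where the rank of the functions which vanish on `C` is maximal, all these functions
vanish on the common zero set of a maximal independent family. -/
theorem red {O C : Set (I → ℂ)} (hO : IsOpen O) (hCO : C ⊆ O) {ρ : ℕ}
    {h : Fin ρ → (I → ℂ) → ℂ} {z : I → ℂ} (hz : z ∈ C) (hh : ∀ a, h a ∈ Van O C)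
    (hli : LinearIndependent ℂ fun a => fderiv ℂ (h a) z)
    (hmax : ∀ (h' : Fin (ρ + 1) → (I → ℂ) → ℂ) (z' : I → ℂ), z' ∈ C → (∀ a, h' a ∈ Van O C) →
        ¬ LinearIndependent ℂ fun a => fderiv ℂ (h' a) z') :
    ∀ᶠ w in 𝓝 z, (∀ a, h a w = 0) → ∀ g ∈ Van O C, g w = 0 := by
  classical
  obtain ⟨v, hv⟩ := exists_dual hli
  have hzO : z ∈ O := hCO hz
  have hd : ∀ a, DifferentiableOn ℂ (h a) O := fun a => (hh a).1
  obtain ⟨ε, Φ, Ψ, hε, hΦd, hΦ0, -, hΦ, hΨc, hΨz, hΨ⟩ := chart hO hd hzO (fun a => (hh a).2 z hz) hli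
  have hΔd := det_Am_diff hO hd v
  have hΔz : (Am h v z).det = 1 := by
    have : Am h v z = 1 := by
      ext a b
      simp only [Am, Matrix.of_apply, Matrix.one_apply]
      exact hv a b
    rw [this, Matrix.det_one]
  have hev : ∀ᶠ ζ in 𝓝 (0 : I → ℂ), (Am h v (Φ ζ)).det ≠ 0 := by
    have h1 : ContinuousAt (fun ζ => (Am h v (Φ ζ)).det) 0 := by
      have h2 : ContinuousAt (fun w => (Am h v w).det) (Φ 0) := by
        rw [hΦ0]
        exact hΔd.continuousOn.continuousAt (hO.mem_nhds hzO)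
      exact h2.comp (hΦd.continuousOn.continuousAt (ball_mem_nhds 0 hε))
    refine h1.eventually_ne ?_
    rw [hΦ0, hΔz]
    exact one_ne_zero
  obtain ⟨ε₁, hε₁, hb1⟩ := Metric.eventually_nhds_iff_ball.1 hev
  set ε₂ : ℝ := min ε ε₁ / 2 with hε₂
  have hε₂0 : 0 < ε₂ := half_pos (lt_min hε hε₁)
  have hε₂2 : 2 * ε₂ = min ε ε₁ := by rw [hε₂]; ring
  have hw : ∀ᶠ w in 𝓝 z, Φ (Ψ w) = w ∧ ‖Ψ w‖ < ε₂ := by
    refine hΨ.and ?_
    have h1 : ContinuousAt (fun w => ‖Ψ w‖) z := hΨc.norm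
    exact h1.eventually_lt_const (by simp only [hΨz, norm_zero]; exact hε₂0)
  filter_upwards [hw] with w hw hhw g hg
  obtain ⟨hw1, hw2⟩ := hw
  set ζ := Ψ w with hζ
  have hζ1 : ζ ∈ ball (0 : I → ℂ) ε := by
    rw [mem_ball_zero_iff]
    have := min_le_left ε ε₁
    linarith [hw2]
  have hζ0 : ∀ a, fderiv ℂ (h a) z ζ = 0 := by
    intro a
    rw [← (hΦ ζ hζ1).2 a, hw1]
    exact hhw a
  have hball : ∀ t ∈ ball (0 : ℂ) 2, t • ζ ∈ ball (0 : I → ℂ) (min ε ε₁) := by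
    intro t ht
    rw [mem_ball_zero_iff] at ht ⊢
    rw [norm_smul, ← hε₂2]
    calc ‖t‖ * ‖ζ‖ ≤ 2 * ‖ζ‖ := mul_le_mul_of_nonneg_right ht.le (norm_nonneg _)
      _ < 2 * ε₂ := by linarith
  have hballε : ∀ t ∈ ball (0 : ℂ) 2, t • ζ ∈ ball (0 : I → ℂ) ε := fun t ht =>
    ball_subset_ball (min_le_left _ _) (hball t ht)
  set γ : ℂ → I → ℂ := fun t => Φ (t • ζ) with hγdef
  have hγd : DifferentiableOn ℂ γ (ball 0 2) := by
    refine hΦd.comp ?_ hballε
    exact (differentiable_id.smul_const ζ).differentiableOn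
  have hγ : ∀ t ∈ ball (0 : ℂ) 2, HasDerivAt γ (deriv γ t) t := fun t ht =>
    (hγd.differentiableAt (isOpen_ball.mem_nhds ht)).hasDerivAt
  have hγ'c : ContinuousOn (deriv γ) (ball 0 2) := (hγd.deriv isOpen_ball).continuousOn
  have hγO : ∀ t ∈ ball (0 : ℂ) 2, γ t ∈ O := fun t ht => (hΦ _ (hballε t ht)).1
  have hγ0 : γ 0 = z := by rw [hγdef]; simp only [zero_smul, hΦ0]
  have hγ1 : γ 1 = w := by rw [hγdef]; simp only [one_smul, hw1]
  have hhγ : ∀ a, ∀ t ∈ ball (0 : ℂ) 2, h a (γ t) = 0 := by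
    intro a t ht
    have := (hΦ _ (hballε t ht)).2 a
    rw [map_smul, hζ0, smul_zero] at this
    exact this
  have hker : ∀ a, ∀ t ∈ ball (0 : ℂ) 2, fderiv ℂ (h a) (γ t) (deriv γ t) = 0 := by
    intro a t ht
    have h1 : HasDerivAt (fun t => h a (γ t)) (fderiv ℂ (h a) (γ t) (deriv γ t)) t :=
      ((hd a).differentiableAt (hO.mem_nhds (hγO t ht))).hasFDerivAt.comp_hasDerivAt t (hγ t ht)
    have h2 : (fun t => h a (γ t)) =ᶠ[𝓝 t] fun _ => 0 := by
      filter_upwards [isOpen_ball.mem_nhds ht] with s hs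
      exact hhγ a s hs
    exact (h1.congr_of_eventuallyEq h2.symm).unique (hasDerivAt_const t 0)
  have hall := ord_step (C := C) hγ hγ'c hO hγO (by rw [hγ0]; exact hz) hΔd.continuousOn
    (fun t ht => hb1 _ (ball_subset_ball (min_le_right _ _) (hball t ht)))
    (D := fun g i w => Dt h v g w (Pi.single i 1))
    (fun g hg i => ⟨Dt_diff hO hd v hg.1 _, fun w hw => Dt_zero (hmax _ w hw (by
      intro a
      refine Fin.cases ?_ (fun a => ?_) a
      · exact hg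
      · exact hh a)) _⟩)
    (fun g _ t ht => Dt_kernel (fun a => hker a t ht))
  have h3 : DifferentiableOn ℂ (fun t => g (γ t)) (ball 0 2) := hg.1.comp hγd hγO
  have h4 := flat (f := fun t => g (γ t)) (by norm_num) h3 (fun ν => hall ν g hg) 1 (by
    rw [mem_ball_zero_iff, norm_one]; norm_num)
  rw [hγ1] at h4
  exact h4

end Pool.Agent.H207.GF
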