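import Mathlib
import Pool.Agent.H207.GF.An2

/-! Project GF: analytic sets, part 3: discs, the maximum principle, and the dimension of the zero
set of `k` functions. -/

set_option autoImplicit false

open Topology Filter Metric Set
open Pool.Agent.H790R3.RB (DISC)

namespace Pool.Agent.H207.GF

/-- the constant rank disc: the rows of `E` and `R` of the rows of `G` are independent, and `R` is
maximal -/
theorem discr {I J P : Type} [Fintype I] [DecidableEq I] [Fintype J] [DecidableEq J] [Fintype P]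
    (E : J → (I → ℂ) → ℂ) (G : P → (I → ℂ) → ℂ) (O : Set (I → ℂ)) (y : I → ℂ) (R : ℕ)
    (sel : Fin R → P) (col : J ⊕ Fin R → I) (hO : IsOpen O) (hy : y ∈ O)
    (hE : ∀ i, DifferentiableOn ℂ (E i) O) (hG : ∀ a, DifferentiableOn ℂ (G a) O)
    (hcard : Fintype.card J + R < Fintype.card I) (hEy : ∀ i, E i y = 0)
    (hdet : (Matrix.of fun (a c : J ⊕ Fin R) => match a with
      | Sum.inl j => fderiv ℂ (E j) y (Pi.single (col c) 1)
      | Sum.inr i => fderiv ℂ (G (sel i)) y (Pi.single (col c) 1)).det ≠ 0)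
    (hrank : ∀ z ∈ O, (∀ i, E i z = 0) → ∀ (sel' : Fin (R + 1) → P) (col' : J ⊕ Fin (R + 1) → I),
      (Matrix.of fun (a c : J ⊕ Fin (R + 1)) => match a with
        | Sum.inl j => fderiv ℂ (E j) z (Pi.single (col' c) 1)
        | Sum.inr i => fderiv ℂ (G (sel' i)) z (Pi.single (col' c) 1)).det = 0) :
    ∃ (τ : ℝ) (γ : ℂ → I → ℂ), 0 < τ ∧ DifferentiableOn ℂ γ (ball 0 τ) ∧ γ 0 = y ∧
      deriv γ 0 ≠ 0 ∧ ∀ t ∈ ball (0 : ℂ) τ, γ t ∈ O ∧ (∀ i, E i (γ t) = 0) ∧
        ∀ a, G a (γ t) = G a y := by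
  classical
  obtain ⟨τ, γ, hτ, hγd, hγ0, hγ', hγ⟩ := DISC I J (Fin R) E (fun i => G (sel i)) O y R id col hO hy
    hE (fun i => hG _) (by rw [Fintype.card_fin]; exact hcard) hEy hdet (by
      intro z _ _ sel' col'
      have hni : ¬ Function.Injective sel' := by
        intro h
        have := Fintype.card_le_of_injective sel' h
        simp at this
      obtain ⟨i, i', hii, hne⟩ : ∃ i i', sel' i = sel' i' ∧ i ≠ i' := by
        by_contra hcon
        push Not at hcon
        exact hni fun i i' h => hcon i i' h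
      apply Matrix.det_zero_of_row_eq (i := Sum.inr i) (j := Sum.inr i')
      · intro h
        exact hne (Sum.inr_injective h)
      · funext c
        simp only [Matrix.of_apply, hii])
  have hc : ContinuousAt γ 0 := hγd.continuousOn.continuousAt (ball_mem_nhds 0 hτ)
  -- the minor stays nonzero
  have hMc : ContinuousOn (fun z => (Matrix.of fun (a c : J ⊕ Fin R) => match a with
      | Sum.inl j => fderiv ℂ (E j) z (Pi.single (col c) 1)
      | Sum.inr i => fderiv ℂ (G (sel i)) z (Pi.single (col c) 1)).det) O := by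
    refine DifferentiableOn.continuousOn (𝕜 := ℂ) ?_
    apply Pool.Agent.W440.RE.JT.det_diff
    intro a c
    rcases a with j | i
    · exact Pool.Agent.Helper540.differentiableOn_fderiv_apply hO (hE j) _
    · exact Pool.Agent.Helper540.differentiableOn_fderiv_apply hO (hG (sel i)) _
  have hev : ∀ᶠ t in 𝓝 (0 : ℂ), (Matrix.of fun (a c : J ⊕ Fin R) => match a with
      | Sum.inl j => fderiv ℂ (E j) (γ t) (Pi.single (col c) 1)
      | Sum.inr i => fderiv ℂ (G (sel i)) (γ t) (Pi.single (col c) 1)).det ≠ 0 := by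
    have h1 := (hMc.continuousAt (hO.mem_nhds hy)).eventually_ne hdet
    have h2 : Tendsto γ (𝓝 0) (𝓝 y) := by
      have := hc.tendsto
      rwa [hγ0] at this
    exact h2.eventually h1
  obtain ⟨τ₁, hτ₁, hb⟩ := Metric.eventually_nhds_iff_ball.1 hev
  refine ⟨min τ τ₁, γ, lt_min hτ hτ₁, hγd.mono (ball_subset_ball (min_le_left _ _)), hγ0, hγ', ?_⟩
  have hsub : ball (0 : ℂ) (min τ τ₁) ⊆ ball 0 τ := ball_subset_ball (min_le_left _ _)
  have hsub1 : ball (0 : ℂ) (min τ τ₁) ⊆ ball 0 τ₁ := ball_subset_ball (min_le_right _ _)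
  intro t ht
  refine ⟨(hγ t (hsub ht)).1, (hγ t (hsub ht)).2.1, fun a => ?_⟩
  have hderiv : ∀ s ∈ ball (0 : ℂ) (min τ τ₁), HasDerivAt (fun t => G a (γ t)) 0 s := by
    intro s hs
    have hsO := (hγ s (hsub hs)).1
    have hγs : HasDerivAt γ (deriv γ s) s :=
      (hγd.differentiableAt (isOpen_ball.mem_nhds (hsub hs))).hasDerivAt
    have hG1 : HasDerivAt (fun t => G a (γ t)) (fderiv ℂ (G a) (γ s) (deriv γ s)) s :=
      ((hG a).differentiableAt (hO.mem_nhds hsO)).hasFDerivAt.comp_hasDerivAt s hγs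
    have h0 : fderiv ℂ (G a) (γ s) (deriv γ s) = 0 := by
      apply Pool.Agent.H790R3.RB.DISC.lin E G sel col (γ s) (by
        have := hb s (hsub1 hs)
        intro h
        apply this
        rw [← h]
        congr 1
        ext a c
        cases a <;> rfl) a
      · intro i
        have := hrank (γ s) hsO (hγ s (hsub hs)).2.1 (Fin.snoc (α := fun _ => P) sel a)
          (fun c => match c with
            | Sum.inl j => col (Sum.inl j)
            | Sum.inr k => Fin.snoc (α := fun _ => I) (fun k => col (Sum.inr k)) i k)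
        rw [← this]
        congr 1
        ext a c
        cases a <;> rfl
      · intro r
        rcases r with j | r
        · have h1 : HasDerivAt (fun t => E j (γ t)) (fderiv ℂ (E j) (γ s) (deriv γ s)) s :=
            ((hE j).differentiableAt (hO.mem_nhds hsO)).hasFDerivAt.comp_hasDerivAt s hγs
          have h2 : (fun t => E j (γ t)) =ᶠ[𝓝 s] fun _ => 0 := by
            filter_upwards [isOpen_ball.mem_nhds (hsub hs)] with t ht
            exact (hγ t ht).2.1 j
          exact (h1.congr_of_eventuallyEq h2.symm).unique (hasDerivAt_const s _)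
        · have h1 : HasDerivAt (fun t => G (sel r) (γ t))
              (fderiv ℂ (G (sel r)) (γ s) (deriv γ s)) s :=
            ((hG _).differentiableAt (hO.mem_nhds hsO)).hasFDerivAt.comp_hasDerivAt s hγs
          have h2 : (fun t => G (sel r) (γ t)) =ᶠ[𝓝 s] fun _ => G (sel r) y := by
            filter_upwards [isOpen_ball.mem_nhds (hsub hs)] with t ht
            exact (hγ t ht).2.2 r
          exact (h1.congr_of_eventuallyEq h2.symm).unique (hasDerivAt_const s _)
    rw [h0] at hG1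
    exact hG1
  have h5 := isOpen_ball.is_const_of_deriv_eq_zero (convex_ball (0 : ℂ) (min τ τ₁)).isPreconnected
    (fun s hs => (hderiv s hs).differentiableAt.differentiableWithinAt)
    (fun s hs => (hderiv s hs).deriv) ht (mem_ball_self (lt_min hτ hτ₁))
  rw [hγ0] at h5
  exact h5

/-- identity theorem along a line -/
theorem line_id {E : Type} [NormedAddCommGroup E] [NormedSpace ℂ E] {B : Set E} (hBo : IsOpen B)
    (hBc : Convex ℝ B) {f : E → ℂ} (hf : DifferentiableOn ℂ f B) {p q : E} (hp : p ∈ B)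
    (hq : q ∈ B) (h : ∀ᶠ t in 𝓝 (0 : ℂ), f (p + t • (q - p)) = 0) : f q = 0 := by
  set ℓ : ℂ → E := fun t => p + t • (q - p) with hℓ
  have hℓd : Differentiable ℂ ℓ := by
    rw [hℓ]
    exact (differentiable_id.smul_const _).const_add _
  set T : Set ℂ := ℓ ⁻¹' B with hT
  have hTo : IsOpen T := hBo.preimage hℓd.continuous
  have hℓ0 : ℓ 0 = p := by simp [hℓ]
  have hℓ1 : ℓ 1 = q := by simp [hℓ]
  have h0T : (0 : ℂ) ∈ T := by
    rw [hT, mem_preimage, hℓ0]
    exact hp
  have h1T : (1 : ℂ) ∈ T := by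
    rw [hT, mem_preimage, hℓ1]
    exact hq
  have hTc : Convex ℝ T := by
    intro s hs t ht a b ha hb hab
    have e : ℓ (a • s + b • t) = a • ℓ s + b • ℓ t := by
      have e1 : a • p + b • p = p := by rw [← add_smul, hab, one_smul]
      simp only [hℓ, add_smul, smul_add, smul_assoc]
      calc p + (a • s • (q - p) + b • t • (q - p))
          = (a • p + b • p) + (a • s • (q - p) + b • t • (q - p)) := by rw [e1]
        _ = a • p + a • s • (q - p) + (b • p + b • t • (q - p)) := by abel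
    rw [hT, mem_preimage, e]
    exact hBc hs ht ha hb hab
  have hfd : AnalyticOnNhd ℂ (fun t => f (ℓ t)) T := by
    apply DifferentiableOn.analyticOnNhd _ hTo
    exact hf.comp hℓd.differentiableOn fun t ht => ht
  have h1 := hfd.eqOn_zero_of_preconnected_of_eventuallyEq_zero hTc.isPreconnected h0T h h1T
  have h2 : f (ℓ 1) = 0 := h1
  rwa [hℓ1] at h2

variable {I : Type} [Fintype I]

/-- a strictly subharmonic function has no maximum on a disc -/
theorem maxp {γ : ℂ → I → ℂ} {τ : ℝ} (hτ : 0 < τ) (hγ : DifferentiableOn ℂ γ (ball 0 τ))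
    (hγ' : deriv γ 0 ≠ 0) {Δ : ℂ → ℂ} (hΔ : DifferentiableOn ℂ Δ (ball 0 τ)) (hΔ0 : Δ 0 ≠ 0)
    (a : I → ℂ) (hmax : ∀ t ∈ ball (0 : ℂ) τ, ‖Δ t‖ * Real.exp (∑ i, ‖γ t i - a i‖ ^ 2) ≤
      ‖Δ 0‖ * Real.exp (∑ i, ‖γ 0 i - a i‖ ^ 2)) : False := by
  set b : I → ℂ := fun i => γ 0 i - a i with hb
  set S : ℂ → ℂ := fun t => ∑ i, (starRingEnd ℂ) (b i) * (γ t i - γ 0 i) with hS
  set g : ℂ → ℂ := fun t => Δ t * Complex.exp (2 * S t) with hg
  set D : ℂ → ℝ := fun t => ∑ i, ‖γ t i - γ 0 i‖ ^ 2 with hD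
  have hid : ∀ t, 2 * (S t).re = ∑ i, ‖γ t i - a i‖ ^ 2 - ∑ i, ‖b i‖ ^ 2 - D t := by
    intro t
    rw [hS, hD, Complex.re_sum, ← Finset.sum_sub_distrib, ← Finset.sum_sub_distrib, Finset.mul_sum]
    refine Finset.sum_congr rfl fun i _ => ?_
    have e : γ t i - a i = b i + (γ t i - γ 0 i) := by simp only [hb]; ring
    rw [e, ← Complex.normSq_eq_norm_sq, ← Complex.normSq_eq_norm_sq, ← Complex.normSq_eq_norm_sq,
      Complex.normSq_add]
    have e2 : (b i * (starRingEnd ℂ) (γ t i - γ 0 i)).re =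
        ((starRingEnd ℂ) (b i) * (γ t i - γ 0 i)).re := by
      simp only [Complex.mul_re, Complex.conj_re, Complex.conj_im]
      ring
    rw [e2]
    ring
  have hnorm : ∀ t, ‖g t‖ = ‖Δ t‖ * Real.exp (∑ i, ‖γ t i - a i‖ ^ 2) *
      (Real.exp (-∑ i, ‖b i‖ ^ 2) * Real.exp (-D t)) := by
    intro t
    rw [hg, norm_mul, Complex.norm_exp]
    have : (2 * S t).re = 2 * (S t).re := by simp
    rw [this, hid, mul_assoc, ← Real.exp_add, ← Real.exp_add]
    congr 2
    ring
  have hD0 : D 0 = 0 := by simp [hD]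
  have hS0 : S 0 = 0 := by simp [hS]
  have hg0 : ‖g 0‖ = ‖Δ 0‖ := by simp [hg, hS0]
  have hDnn : ∀ t, 0 ≤ D t := fun t => Finset.sum_nonneg fun i _ => by positivity
  have hle : ∀ t ∈ ball (0 : ℂ) τ, ‖g t‖ ≤ ‖Δ 0‖ * Real.exp (-D t) := by
    intro t ht
    rw [hnorm]
    have h1 := hmax t ht
    have h2 : 0 ≤ Real.exp (-∑ i, ‖b i‖ ^ 2) * Real.exp (-D t) := by positivity
    refine (mul_le_mul_of_nonneg_right h1 h2).trans (le_of_eq ?_)
    have e : ∀ i, ‖γ 0 i - a i‖ = ‖b i‖ := fun i => rfl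
    simp only [e]
    rw [mul_assoc, ← mul_assoc (Real.exp _) (Real.exp _) (Real.exp _), ← Real.exp_add,
      add_neg_cancel, Real.exp_zero, one_mul]
  have hloc : IsLocalMax (norm ∘ g) 0 := by
    filter_upwards [ball_mem_nhds (0 : ℂ) hτ] with t ht
    change ‖g t‖ ≤ ‖g 0‖
    rw [hg0]
    refine (hle t ht).trans ?_
    have : Real.exp (-D t) ≤ 1 := Real.exp_le_one_iff.2 (by linarith [hDnn t])
    exact mul_le_of_le_one_right (norm_nonneg _) this
  have hSd : DifferentiableOn ℂ S (ball 0 τ) := by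
    rw [hS]
    refine DifferentiableOn.fun_sum fun i _ => ?_
    exact (((differentiableOn_pi.1 hγ) i).sub (differentiableOn_const _)).const_mul _
  have hgd : ∀ᶠ t in 𝓝 (0 : ℂ), DifferentiableAt ℂ g t := by
    filter_upwards [ball_mem_nhds (0 : ℂ) hτ] with t ht
    have h1 : DifferentiableOn ℂ g (ball 0 τ) := hΔ.mul (hSd.const_mul 2).cexp
    exact h1.differentiableAt (isOpen_ball.mem_nhds ht)
  have hconst := Complex.norm_eventually_eq_of_isLocalMax hgd hloc
  apply hγ'
  have hγe : γ =ᶠ[𝓝 0] fun _ => γ 0 := by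
    filter_upwards [hconst, ball_mem_nhds (0 : ℂ) hτ] with t ht htb
    have h1 := hle t htb
    rw [ht, hg0] at h1
    have h2 : 0 < ‖Δ 0‖ := norm_pos_iff.2 hΔ0
    have h3 : 1 ≤ Real.exp (-D t) := by
      by_contra hcon
      push Not at hcon
      have := mul_lt_mul_of_pos_left hcon h2
      rw [mul_one] at this
      exact absurd h1 (not_le.2 this)
    have h4 : D t = 0 := by
      have := Real.one_le_exp_iff.1 h3
      linarith [hDnn t]
    funext i
    have h5 := (Finset.sum_eq_zero_iff_of_nonneg (fun i _ => by positivity)).1 h4 i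
      (Finset.mem_univ i)
    exact sub_eq_zero.1 (norm_eq_zero.1 (pow_eq_zero_iff two_ne_zero |>.1 h5))
  rw [hγe.deriv_eq, deriv_const]

/-- a common zero of fewer functions than variables is not isolated -/
theorem noiso [DecidableEq I] {κ : Type} [Fintype κ] {E : κ → (I → ℂ) → ℂ} {O : Set (I → ℂ)}
    (hO : IsOpen O) (hE : ∀ j, DifferentiableOn ℂ (E j) O)
    (hk : Fintype.card κ < Fintype.card I) {z : I → ℂ} (hz : z ∈ O) (h0 : ∀ j, E j z = 0) :
    ¬ ∀ᶠ w in 𝓝[≠] z, ¬ ∀ j, E j w = 0 := by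
  classical
  intro hiso
  -- a ball
  obtain ⟨r, hr, hrO, hr0⟩ : ∃ r : ℝ, 0 < r ∧ closedBall z r ⊆ O ∧ ∀ w ∈ closedBall z r, w ≠ z →
      ¬ ∀ j, E j w = 0 := by
    rw [eventually_nhdsWithin_iff] at hiso
    obtain ⟨ε, hε, hb⟩ := Metric.eventually_nhds_iff_ball.1 (hiso.and (hO.mem_nhds hz))
    refine ⟨ε / 2, half_pos hε, fun w hw => ?_, fun w hw hne => ?_⟩
    · exact (hb w (closedBall_subset_ball (half_lt_self hε) hw)).2
    · exact (hb w (closedBall_subset_ball (half_lt_self hε) hw)).1 hne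
  set e : (I → ℂ) → ℝ := fun w => ‖fun j => E j w‖ with he
  have hec : ContinuousOn e O := by
    apply ContinuousOn.norm
    exact continuousOn_pi.2 fun j => (hE j).continuousOn
  obtain ⟨m, hm, hm1⟩ : ∃ m, 0 < m ∧ ∀ w ∈ sphere z r, m ≤ e w := by
    have hs : sphere z r ⊆ closedBall z r := sphere_subset_closedBall
    obtain ⟨m, hm, hm1⟩ := (isCompact_sphere z r).exists_forall_le' (f := e) (a := 0)
      (hec.mono (hs.trans hrO)) (by
        intro w hw
        apply norm_pos_iff.2
        intro hcon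
        refine hr0 w (hs hw) ?_ fun j => congrFun hcon j
        rintro rfl
        rw [mem_sphere, dist_self] at hw
        exact hr.ne hw)
    exact ⟨m, hm, hm1⟩
  -- maximal rank
  let M : ∀ {R : ℕ}, (Fin R → κ) → (Fin 0 ⊕ Fin R → I) → (I → ℂ) →
      Matrix (Fin 0 ⊕ Fin R) (Fin 0 ⊕ Fin R) ℂ := fun sel col w =>
    Matrix.of fun a c => match a with
      | Sum.inl j => fderiv ℂ ((fun j : Fin 0 => (j.elim0 : (I → ℂ) → ℂ)) j) w (Pi.single (col c) 1)
      | Sum.inr i => fderiv ℂ (E (sel i)) w (Pi.single (col c) 1)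
  let P : ℕ → Prop := fun R => ∃ (w : I → ℂ) (sel : Fin R → κ) (col : Fin 0 ⊕ Fin R → I),
    w ∈ ball z r ∧ (M sel col w).det ≠ 0
  have hP0 : P 0 := by
    refine ⟨z, fun i => i.elim0, fun c => Sum.elim (fun i => i.elim0) (fun i => i.elim0) c,
      mem_ball_self hr, ?_⟩
    rw [Matrix.det_isEmpty]
    exact one_ne_zero
  have hPle : ∀ R, P R → R ≤ Fintype.card κ := by
    rintro R ⟨w, sel, col, -, hdet⟩
    have hinj : Function.Injective sel := by
      intro i i' hii
      by_contra hne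
      apply hdet
      apply Matrix.det_zero_of_row_eq (i := Sum.inr i) (j := Sum.inr i')
      · intro h
        exact hne (Sum.inr_injective h)
      · funext c
        simp only [M, Matrix.of_apply, hii]
    have := Fintype.card_le_of_injective sel hinj
    rwa [Fintype.card_fin] at this
  obtain ⟨R, hPR, hPR1⟩ : ∃ R, P R ∧ ¬ P (R + 1) := by
    refine ⟨Nat.findGreatest P (Fintype.card κ), Nat.findGreatest_spec (Nat.zero_le _) hP0,
      fun h => ?_⟩
    exact Nat.findGreatest_is_greatest (Nat.lt_succ_self _) (hPle _ h) h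
  have hRk := hPle R hPR
  obtain ⟨w₁, sel, col, hw₁, hdet₁⟩ := hPR
  set Δ : (I → ℂ) → ℂ := fun w => (M sel col w).det with hΔ
  have hΔd : DifferentiableOn ℂ Δ O := by
    apply Pool.Agent.W440.RE.JT.det_diff
    intro a c
    rcases a with j | i
    · exact j.elim0
    · exact Pool.Agent.Helper540.differentiableOn_fderiv_apply hO (hE (sel i)) _
  have hez : e z = 0 := by
    simp only [he, h0]
    exact norm_zero
  have hbO : ball z r ⊆ O := ball_subset_closedBall.trans hrO
  -- a starting point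
  obtain ⟨w₂, hw₂b, hw₂m, hw₂Δ⟩ : ∃ w₂ ∈ ball z r, e w₂ < m ∧ Δ w₂ ≠ 0 := by
    set ℓ : ℂ → I → ℂ := fun t => z + t • (w₁ - z) with hℓ
    have hℓd : Differentiable ℂ ℓ := by
      rw [hℓ]
      exact (differentiable_id.smul_const _).const_add _
    have hℓ0 : ℓ 0 = z := by simp [hℓ]
    have hfreq : ∃ᶠ t in 𝓝 (0 : ℂ), Δ (ℓ t) ≠ 0 := by
      intro hcon
      apply hdet₁
      exact line_id isOpen_ball (convex_ball z r) (hΔd.mono hbO) (mem_ball_self hr) hw₁ (by
        filter_upwards [hcon] with t ht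
        exact not_not.1 ht)
    have hev : ∀ᶠ t in 𝓝 (0 : ℂ), ℓ t ∈ ball z r ∧ e (ℓ t) < m := by
      refine Filter.Eventually.and ?_ ?_
      · exact hℓd.continuous.continuousAt.eventually_mem (by rw [hℓ0]; exact ball_mem_nhds z hr)
      have h1 : ContinuousAt (fun t => e (ℓ t)) 0 := by
        have h2 : ContinuousAt e (ℓ 0) := by
          rw [hℓ0]
          exact hec.continuousAt (hO.mem_nhds hz)
        exact h2.comp hℓd.continuous.continuousAt
      refine h1.eventually_lt_const ?_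
      simp only [hℓ0, hez]
      exact hm
    obtain ⟨t, ht1, ht2⟩ := (hfreq.and_eventually hev).exists
    exact ⟨ℓ t, ht2.1, ht2.2, ht1⟩
  -- the maximum
  set K : Set (I → ℂ) := {w | w ∈ closedBall z r ∧ ∀ j, E j w = E j w₂} with hK
  have hKc : IsCompact K := by
    apply (isCompact_closedBall z r).of_isClosed_subset _ (fun w hw => hw.1)
    have : K = ⋂ j, (closedBall z r ∩ (E j) ⁻¹' {E j w₂}) ∩ closedBall z r ∨
        K = closedBall z r := by
      by_cases hne : Nonempty κ
      · left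
        obtain ⟨j₀⟩ := hne
        ext w
        simp only [hK, mem_ofPred_eq, mem_iInter, mem_inter_iff, mem_preimage, mem_singleton_iff]
        exact ⟨fun h j => ⟨⟨h.1, h.2 j⟩, h.1⟩, fun h => ⟨(h j₀).2, fun j => (h j).1.2⟩⟩
      · right
        ext w
        simp only [hK, mem_ofPred_eq]
        exact ⟨fun h => h.1, fun h => ⟨h, fun j => absurd ⟨j⟩ hne⟩⟩
    rcases this with h | h
    · rw [h]
      apply isClosed_iInter
      intro j
      apply IsClosed.inter _ isClosed_closedBall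
      exact ((hE j).continuousOn.mono hrO).preimage_isClosed_of_isClosed isClosed_closedBall
        isClosed_singleton
    · rw [h]
      exact isClosed_closedBall
  have hw₂K : w₂ ∈ K := ⟨ball_subset_closedBall hw₂b, fun j => rfl⟩
  set u : (I → ℂ) → ℝ := fun w => ‖Δ w‖ * Real.exp (∑ i, ‖w i - z i‖ ^ 2) with hu
  have huc : ContinuousOn u K := by
    apply ContinuousOn.mul
    · exact (hΔd.continuousOn.mono (fun w hw => hrO hw.1)).norm
    · apply Continuous.continuousOn
      fun_prop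
  obtain ⟨y, hyK, hymax⟩ := hKc.exists_isMaxOn ⟨w₂, hw₂K⟩ huc
  have hyu : u w₂ ≤ u y := hymax hw₂K
  have hyΔ : Δ y ≠ 0 := by
    intro h
    have h1 : u y = 0 := by simp only [hu, h, norm_zero, zero_mul]
    have h2 : 0 < u w₂ := mul_pos (norm_pos_iff.2 hw₂Δ) (Real.exp_pos _)
    linarith
  have hyb : y ∈ ball z r := by
    rcases (mem_closedBall.1 hyK.1).lt_or_eq with h | h
    · exact h
    · exfalso
      have h1 := hm1 y h
      have h2 : e y = e w₂ := by simp only [he, hyK.2]
      linarith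
  obtain ⟨τ, γ, hτ, hγd, hγ0, hγ', hγ⟩ := discr (fun j : Fin 0 => (j.elim0 : (I → ℂ) → ℂ)) E
    (ball z r) y R sel col isOpen_ball hyb (fun j => j.elim0) (fun j => (hE j).mono hbO)
    (by rw [Fintype.card_fin]; omega) (fun j => j.elim0) (by
      intro h
      apply hyΔ
      rw [← h]
      simp only [hΔ, M]
      congr 1
      ext a c
      cases a <;> rfl) (by
      intro w hw _ sel' col'
      by_contra hne
      refine hPR1 ⟨w, sel', col', hw, fun h => hne ?_⟩
      rw [← h]
      simp only [M]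
      congr 1
      ext a c
      cases a <;> rfl)
  have hγK : ∀ t ∈ ball (0 : ℂ) τ, γ t ∈ K := fun t ht =>
    ⟨ball_subset_closedBall (hγ t ht).1, fun j => by rw [(hγ t ht).2.2 j, hyK.2 j]⟩
  refine maxp hτ hγd hγ' (Δ := fun t => Δ (γ t)) ?_ ?_ z ?_
  · exact hΔd.comp hγd fun t ht => hbO (hγ t ht).1
  · simp only [hγ0]
    exact hyΔ
  · intro t ht
    have h1 := hymax (hγK t ht)
    simp only [hγ0]
    exact h1

end Pool.Agent.H207.GF
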