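import Mathlib
import Pool.Agent.H207.GF.An3

/-! Project GF: analytic sets, part 4: adapted points. -/

set_option autoImplicit false

open Topology Filter Metric Set

namespace Pool.Agent.H207.GF

variable {I : Type} [Fintype I]

/-- The adapted points of the zero set of `E`: near such a point the common zero set of `h` is a
manifold which is contained in the zero set of `E`. -/
def Wp {κ : Type} {ρ : ℕ} (O : Set (I → ℂ)) (E : κ → (I → ℂ) → ℂ) (h : Fin ρ → (I → ℂ) → ℂ) :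
    Set (I → ℂ) :=
  {z | z ∈ O ∧ (∀ a, h a z = 0) ∧ (LinearIndependent ℂ fun a => fderiv ℂ (h a) z) ∧
    ∀ᶠ w in 𝓝 z, (∀ a, h a w = 0) → ∀ j, E j w = 0}

theorem Wp_zero {κ : Type} {ρ : ℕ} {O : Set (I → ℂ)} {E : κ → (I → ℂ) → ℂ}
    {h : Fin ρ → (I → ℂ) → ℂ} {z : I → ℂ} (hz : z ∈ Wp O E h) (j : κ) : E j z = 0 :=
  hz.2.2.2.self_of_nhds hz.2.1 j

/-- the condition of independence is open -/
theorem indep_open {ρ : ℕ} {O : Set (I → ℂ)} {h : Fin ρ → (I → ℂ) → ℂ} (hO : IsOpen O)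
    (hd : ∀ a, DifferentiableOn ℂ (h a) O) {z : I → ℂ} (hz : z ∈ O)
    (hli : LinearIndependent ℂ fun a => fderiv ℂ (h a) z) :
    ∀ᶠ w in 𝓝 z, LinearIndependent ℂ fun a => fderiv ℂ (h a) w := by
  classical
  obtain ⟨v, hv⟩ := exists_dual hli
  have h1 : ContinuousAt (fun w => (Am h v w).det) z :=
    (det_Am_diff hO hd v).continuousOn.continuousAt (hO.mem_nhds hz)
  have h2 : (Am h v z).det = 1 := by
    have : Am h v z = 1 := by
      ext a b
      simp only [Am, Matrix.of_apply, Matrix.one_apply]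
      exact hv a b
    rw [this, Matrix.det_one]
  have h3 : ∀ᶠ w in 𝓝 z, (Am h v w).det ≠ 0 := h1.eventually_ne (by rw [h2]; exact one_ne_zero)
  filter_upwards [h3] with w hw
  rw [Fintype.linearIndependent_iff]
  intro c hc
  have e1 : Matrix.vecMul c (Am h v w) = 0 := by
    ext b
    have e2 := congrArg (fun f : (I → ℂ) →L[ℂ] ℂ => f (v b)) hc
    simp only [_root_.sum_apply, _root_.smul_apply, smul_eq_mul, _root_.zero_apply] at e2
    simp only [Matrix.vecMul, dotProduct, Am, Matrix.of_apply, Pi.zero_apply]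
    exact e2
  have e3 := Matrix.eq_zero_of_vecMul_eq_zero hw e1
  exact fun a => congrFun e3 a

/-- adapted points form an open subset of the common zero set of `h` -/
theorem Wp_open {κ : Type} {ρ : ℕ} {O : Set (I → ℂ)} {E : κ → (I → ℂ) → ℂ}
    {h : Fin ρ → (I → ℂ) → ℂ} (hO : IsOpen O) (hd : ∀ a, DifferentiableOn ℂ (h a) O) {z : I → ℂ}
    (hz : z ∈ Wp O E h) : ∀ᶠ w in 𝓝 z, (∀ a, h a w = 0) → w ∈ Wp O E h := by
  obtain ⟨h1, h2, h3, h4⟩ := hz
  filter_upwards [hO.mem_nhds h1, indep_open hO hd h1 h3, eventually_eventually_nhds.2 h4] with w a b c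
    hw
  exact ⟨a, hw, b, c⟩

/-- limits of adapted points are adapted, if the derivatives stay independent -/
theorem Wp_closed {κ : Type} [Finite κ] {ρ : ℕ} {O : Set (I → ℂ)} {E : κ → (I → ℂ) → ℂ}
    {h : Fin ρ → (I → ℂ) → ℂ} (hO : IsOpen O) (hd : ∀ a, DifferentiableOn ℂ (h a) O)
    (hE : ∀ j, DifferentiableOn ℂ (E j) O) {z : I → ℂ} (hz : z ∈ O) (h0 : ∀ a, h a z = 0)
    (hli : LinearIndependent ℂ fun a => fderiv ℂ (h a) z) (hcl : z ∈ closure (Wp O E h)) :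
    z ∈ Wp O E h := by
  refine ⟨hz, h0, hli, ?_⟩
  obtain ⟨ε, Φ, Ψ, hε, hΦd, hΦ0, -, hΦ, hΨc, hΨz, hΨ⟩ := chart hO hd hz h0 hli
  have hΨs : ∀ᶠ w in 𝓝 z, Ψ w ∈ ball (0 : I → ℂ) ε := by
    apply hΨc.eventually_mem
    rw [hΨz]
    exact ball_mem_nhds 0 hε
  -- an adapted point in the chart
  obtain ⟨w₁, hw₁, hw₁1, hw₁2⟩ : ∃ w₁ ∈ Wp O E h, Φ (Ψ w₁) = w₁ ∧ Ψ w₁ ∈ ball (0 : I → ℂ) ε := by
    have h1 := (mem_closure_iff_frequently.1 hcl).and_eventually (hΨ.and hΨs)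
    obtain ⟨w, hw, hw1, hw2⟩ := h1.exists
    exact ⟨w, hw, hw1, hw2⟩
  set ζ₁ := Ψ w₁ with hζ₁
  have hζ₁0 : ∀ a, fderiv ℂ (h a) z ζ₁ = 0 := by
    intro a
    rw [← (hΦ ζ₁ hw₁2).2 a, hw₁1]
    exact hw₁.2.1 a
  filter_upwards [hΨ, hΨs] with w hw hws hw0 j
  set ζ := Ψ w with hζ
  have hζ0 : ∀ a, fderiv ℂ (h a) z ζ = 0 := by
    intro a
    rw [← (hΦ ζ hws).2 a, hw]
    exact hw0 a
  have hmain : E j (Φ ζ) = 0 := by
    refine line_id isOpen_ball (convex_ball (0 : I → ℂ) ε) (f := fun ζ => E j (Φ ζ))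
      ((hE j).comp hΦd fun ζ hζ => (hΦ ζ hζ).1) hw₁2 hws ?_
    -- near `w₁`
    have hc : ContinuousAt (fun t : ℂ => Φ (ζ₁ + t • (ζ - ζ₁))) 0 := by
      have e : (ζ₁ + (0 : ℂ) • (ζ - ζ₁)) = ζ₁ := by simp
      have h1 : ContinuousAt Φ (ζ₁ + (0 : ℂ) • (ζ - ζ₁)) := by
        rw [e]
        exact hΦd.continuousOn.continuousAt (isOpen_ball.mem_nhds hw₁2)
      have h2 : ContinuousAt (fun t : ℂ => ζ₁ + t • (ζ - ζ₁)) 0 := by fun_prop
      exact ContinuousAt.comp (f := fun t : ℂ => ζ₁ + t • (ζ - ζ₁)) (g := Φ) h1 h2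
    have hc1 : Tendsto (fun t : ℂ => Φ (ζ₁ + t • (ζ - ζ₁))) (𝓝 0) (𝓝 w₁) := by
      have := hc.tendsto
      simp only [zero_smul, add_zero] at this
      rwa [hw₁1] at this
    have h3 : ∀ᶠ t in 𝓝 (0 : ℂ), ζ₁ + t • (ζ - ζ₁) ∈ ball (0 : I → ℂ) ε := by
      have h2 : ContinuousAt (fun t : ℂ => ζ₁ + t • (ζ - ζ₁)) 0 := by fun_prop
      apply h2.eventually_mem
      simp only [zero_smul, add_zero]
      exact isOpen_ball.mem_nhds hw₁2
    filter_upwards [hc1.eventually hw₁.2.2.2, h3] with t ht htb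
    refine ht (fun a => ?_) j
    rw [(hΦ _ htb).2 a, map_add, map_smul, map_sub, hζ₁0, hζ0]
    simp
  rwa [hw] at hmain

/-- near every common zero of `E` there are adapted points, for at most as many functions as there
are in `E` -/
theorem start {κ : Type} [Fintype κ] {E : κ → (I → ℂ) → ℂ} {O : Set (I → ℂ)} (hO : IsOpen O)
    (hE : ∀ j, DifferentiableOn ℂ (E j) O) {z₀ : I → ℂ} (hz₀ : z₀ ∈ O) (h0 : ∀ j, E j z₀ = 0)
    {N : Set (I → ℂ)} (hN : N ∈ 𝓝 z₀) :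
    ∃ (ρ : ℕ) (h : Fin ρ → (I → ℂ) → ℂ), ρ ≤ Fintype.card κ ∧
      (∀ a, DifferentiableOn ℂ (h a) O) ∧ ∃ z ∈ N, z ∈ Wp O E h := by
  classical
  set N₁ : Set (I → ℂ) := interior N ∩ O with hN₁
  have hN₁o : IsOpen N₁ := isOpen_interior.inter hO
  set C : Set (I → ℂ) := {w | w ∈ N₁ ∧ ∀ j, E j w = 0} with hC
  have hCO : C ⊆ O := fun w hw => hw.1.2
  obtain ⟨ρ, h, z, hz, hh, hli, hmax⟩ := exists_max (O := O) (C := C)
    ⟨z₀, ⟨mem_interior_iff_mem_nhds.2 hN, hz₀⟩, h0⟩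
  have hred := red hO hCO hz hh hli hmax
  have hEv : ∀ j, E j ∈ Van O C := fun j => ⟨hE j, fun w hw => hw.2 j⟩
  refine ⟨ρ, h, ?_, fun a => (hh a).1, z, interior_subset hz.1.1, hCO hz, fun a => (hh a).2 z hz,
    hli, hred.mono fun w hw hw0 j => hw hw0 _ (hEv j)⟩
  -- dimension
  by_contra hcon
  push Not at hcon
  obtain ⟨v, hv⟩ := exists_dual hli
  let ℓ : (Fin ρ → ℂ) → (I → ℂ) := fun s => z + ∑ a, s a • v a
  have hℓd : Differentiable ℂ ℓ := by
    refine Differentiable.const_add _ ?_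
    refine Differentiable.fun_sum fun a _ => ?_
    exact (differentiable_apply a).smul_const _
  have hℓ0 : ℓ 0 = z := by simp [ℓ]
  have hO' : IsOpen (ℓ ⁻¹' O) := hO.preimage hℓd.continuous
  refine noiso (I := Fin ρ) (κ := κ) (E := fun j s => E j (ℓ s)) (O := ℓ ⁻¹' O) hO'
    (fun j => (hE j).comp hℓd.differentiableOn fun s hs => hs) (by rwa [Fintype.card_fin]) (z := 0)
    (by rw [mem_preimage, hℓ0]; exact hCO hz) (fun j => by simp only [hℓ0]; exact hz.2 j) ?_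
  -- the functions `h` in the transversal
  let H : (Fin ρ → ℂ) → (Fin ρ → ℂ) := fun s a => h a (ℓ s)
  have hH0 : H 0 = 0 := by
    funext a
    simp only [H, hℓ0]
    exact (hh a).2 z hz
  have hHd : HasFDerivAt H (ContinuousLinearMap.id ℂ (Fin ρ → ℂ)) 0 := by
    rw [hasFDerivAt_pi']
    intro a
    have e1 : HasFDerivAt ℓ (∑ b, (ContinuousLinearMap.proj b : (Fin ρ → ℂ) →L[ℂ] ℂ).smulRight
        (v b)) 0 := by
      refine HasFDerivAt.const_add _ ?_
      refine HasFDerivAt.fun_sum fun b _ => ?_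
      exact (ContinuousLinearMap.proj b : (Fin ρ → ℂ) →L[ℂ] ℂ).hasFDerivAt.smul_const (v b)
    have e2 : HasFDerivAt (h a) (fderiv ℂ (h a) z) (ℓ 0) := by
      rw [hℓ0]
      exact ((hh a).1.differentiableAt (hO.mem_nhds (hCO hz))).hasFDerivAt
    have e3 := e2.comp 0 e1
    have e4 : (fderiv ℂ (h a) z).comp (∑ b, (ContinuousLinearMap.proj b :
        (Fin ρ → ℂ) →L[ℂ] ℂ).smulRight (v b)) =
        (ContinuousLinearMap.proj a).comp (ContinuousLinearMap.id ℂ (Fin ρ → ℂ)) := by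
      ext s
      simp only [ContinuousLinearMap.comp_apply, _root_.sum_apply, map_sum,
        ContinuousLinearMap.smulRight_apply, ContinuousLinearMap.proj_apply, map_smul, hv,
        smul_eq_mul, mul_ite, mul_one, mul_zero, Finset.sum_ite_eq, Finset.mem_univ, if_true,
        ContinuousLinearMap.id_apply]
    rw [← e4]
    exact e3
  have hsm : ∀ᶠ s in 𝓝 (0 : Fin ρ → ℂ), ‖H s - s‖ ≤ 1 / 2 * ‖s‖ := by
    have h1 := hHd.isLittleO.def (show (0 : ℝ) < 1 / 2 by norm_num)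
    filter_upwards [h1] with s hs
    rw [hH0, sub_zero, sub_zero] at hs
    exact hs
  have hmem : ∀ᶠ s in 𝓝 (0 : Fin ρ → ℂ), ℓ s ∈ N₁ := by
    apply hℓd.continuous.continuousAt.eventually_mem
    rw [hℓ0]
    exact hN₁o.mem_nhds hz.1
  rw [eventually_nhdsWithin_iff]
  filter_upwards [hsm, hmem] with s h1 h2 hne h3
  have h4 : H s = 0 := funext fun a => (hh a).2 _ ⟨h2, h3⟩
  rw [h4, zero_sub, norm_neg] at h1
  have h5 : ‖s‖ = 0 := by
    have := norm_nonneg s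
    linarith
  exact hne (norm_eq_zero.1 h5)

/-- a compact set of common zeros does not contain nonconstant discs -/
theorem nodisc {κ : Type} [Fintype κ] {E : κ → (I → ℂ) → ℂ} {O : Set (I → ℂ)} (hO : IsOpen O)
    (hE : ∀ j, DifferentiableOn ℂ (E j) O) (hcomp : IsCompact {z | z ∈ O ∧ ∀ j, E j z = 0})
    {γ : ℂ → I → ℂ} {τ : ℝ} (hτ : 0 < τ) (hγ : DifferentiableOn ℂ γ (ball 0 τ))
    (hγZ : ∀ t ∈ ball (0 : ℂ) τ, γ t ∈ O ∧ ∀ j, E j (γ t) = 0) : deriv γ 0 = 0 := by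
  classical
  by_contra hγ'
  set C : Set (I → ℂ) := γ '' ball 0 τ with hC
  have h0τ : (0 : ℂ) ∈ ball (0 : ℂ) τ := mem_ball_self hτ
  have hCO : C ⊆ O := by
    rintro _ ⟨t, ht, rfl⟩
    exact (hγZ t ht).1
  obtain ⟨ρ, h, z, hz, hh, hli, hmax⟩ := exists_max (O := O) (C := C) ⟨γ 0, 0, h0τ, rfl⟩
  have hred := red hO hCO hz hh hli hmax
  have hd : ∀ a, DifferentiableOn ℂ (h a) O := fun a => (hh a).1
  have hEv : ∀ j, E j ∈ Van O C := by
    intro j
    refine ⟨hE j, ?_⟩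
    rintro _ ⟨t, ht, rfl⟩
    exact (hγZ t ht).2 j
  have hzO := hCO hz
  have hz0 : ∀ a, h a z = 0 := fun a => (hh a).2 z hz
  have hzW : z ∈ Wp O E h := ⟨hzO, hz0, hli, hred.mono fun w hw hw0 j => hw hw0 _ (hEv j)⟩
  -- the dimension is positive
  have hρ : ρ < Module.finrank ℂ (I → ℂ) := by
    by_contra hcon
    push Not at hcon
    obtain ⟨ε, Φ, Ψ, hε, -, hΦ0, -, hΦ, hΨc, hΨz, hΨ⟩ := chart hO hd hzO hz0 hli
    have hinj : ∀ ζ : I → ℂ, (∀ a, fderiv ℂ (h a) z ζ = 0) → ζ = 0 := by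
      intro ζ hζ
      obtain ⟨v, hv⟩ := exists_dual hli
      have hspan : Submodule.span ℂ (Set.range v) = ⊤ := by
        apply (indep_of_dual hv).span_eq_top_of_card_eq_finrank'
        rw [Fintype.card_fin]
        exact le_antisymm (indep_card hli) hcon
      have hmem : ζ ∈ Submodule.span ℂ (Set.range v) := by rw [hspan]; trivial
      obtain ⟨c, rfl⟩ := (Submodule.mem_span_range_iff_exists_fun ℂ).1 hmem
      apply Finset.sum_eq_zero
      intro a _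
      have h1 := hζ a
      rw [map_sum] at h1
      simp only [map_smul, hv, smul_eq_mul, mul_ite, mul_one, mul_zero, Finset.sum_ite_eq,
        Finset.mem_univ, if_true] at h1
      rw [h1, zero_smul]
    have hiso : ∀ᶠ w in 𝓝 z, (∀ a, h a w = 0) → w = z := by
      have hΨs : ∀ᶠ w in 𝓝 z, Ψ w ∈ ball (0 : I → ℂ) ε := by
        apply hΨc.eventually_mem
        rw [hΨz]
        exact ball_mem_nhds 0 hε
      filter_upwards [hΨ, hΨs] with w hw hws hw0
      have h1 : Ψ w = 0 := by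
        apply hinj
        intro a
        rw [← (hΦ _ hws).2 a, hw]
        exact hw0 a
      rw [← hw, h1, hΦ0]
    obtain ⟨t₁, ht₁, rfl⟩ := hz
    have hγe : ∀ᶠ t in 𝓝 t₁, γ t = γ t₁ := by
      have hc : ContinuousAt γ t₁ := hγ.continuousOn.continuousAt (isOpen_ball.mem_nhds ht₁)
      filter_upwards [hc.tendsto.eventually hiso, isOpen_ball.mem_nhds ht₁] with t ht htb
      exact ht fun a => (hh a).2 _ ⟨t, htb, rfl⟩
    have hγc : EqOn γ (fun _ => γ t₁) (ball 0 τ) := by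
      have h1 : AnalyticOnNhd ℂ γ (ball 0 τ) := hγ.analyticOnNhd isOpen_ball
      exact h1.eqOn_of_preconnected_of_eventuallyEq analyticOnNhd_const
        (convex_ball (0 : ℂ) τ).isPreconnected ht₁ hγe
    apply hγ'
    have h2 : γ =ᶠ[𝓝 0] fun _ => γ t₁ := by
      filter_upwards [ball_mem_nhds (0 : ℂ) hτ] with t ht
      exact hγc ht
    rw [h2.deriv_eq, deriv_const]
  -- the maximum
  obtain ⟨v, hv⟩ := exists_dual hli
  set Δ : (I → ℂ) → ℂ := fun w => (Am h v w).det with hΔ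
  have hΔd : DifferentiableOn ℂ Δ O := det_Am_diff hO hd v
  have hΔz : Δ z = 1 := by
    have : Am h v z = 1 := by
      ext a b
      simp only [Am, Matrix.of_apply, Matrix.one_apply]
      exact hv a b
    simp only [hΔ, this, Matrix.det_one]
  set Z : Set (I → ℂ) := {z | z ∈ O ∧ ∀ j, E j z = 0} with hZ
  set K : Set (I → ℂ) := Z ∩ closure (Wp O E h) with hK
  have hKc : IsCompact K := hcomp.inter_right isClosed_closure
  have hzK : z ∈ K := ⟨⟨hzO, fun j => Wp_zero hzW j⟩, subset_closure hzW⟩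
  set u : (I → ℂ) → ℝ := fun w => ‖Δ w‖ * Real.exp (∑ i, ‖w i - (0 : I → ℂ) i‖ ^ 2) with hu
  have huc : ContinuousOn u K := by
    apply ContinuousOn.mul
    · exact (hΔd.continuousOn.mono (fun w hw => hw.1.1)).norm
    · apply Continuous.continuousOn
      fun_prop
  obtain ⟨y, hyK, hymax⟩ := hKc.exists_isMaxOn ⟨z, hzK⟩ huc
  have hyu : u z ≤ u y := hymax hzK
  have hyΔ : Δ y ≠ 0 := by
    intro hcon
    have h1 : u y = 0 := by simp only [hu, hcon, norm_zero, zero_mul]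
    have h2 : 0 < u z := mul_pos (by rw [hΔz, norm_one]; exact one_pos) (Real.exp_pos _)
    linarith
  have hyO : y ∈ O := hyK.1.1
  have hy0 : ∀ a, h a y = 0 := by
    intro a
    have hc : ContinuousAt (h a) y := (hd a).continuousOn.continuousAt (hO.mem_nhds hyO)
    obtain ⟨hfr⟩ : Nonempty (∃ᶠ w in 𝓝 y, w ∈ Wp O E h) := ⟨mem_closure_iff_frequently.1 hyK.2⟩
    by_contra hne
    have h2 := hc.eventually_ne hne
    obtain ⟨w, hw, hw2⟩ := (hfr.and_eventually h2).exists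
    exact hw2 (hw.2.1 a)
  have hyli : LinearIndependent ℂ fun a => fderiv ℂ (h a) y := by
    rw [Fintype.linearIndependent_iff]
    intro c hc
    have e1 : Matrix.vecMul c (Am h v y) = 0 := by
      ext b
      have e2 := congrArg (fun f : (I → ℂ) →L[ℂ] ℂ => f (v b)) hc
      simp only [_root_.sum_apply, _root_.smul_apply, smul_eq_mul, _root_.zero_apply] at e2
      simp only [Matrix.vecMul, dotProduct, Am, Matrix.of_apply, Pi.zero_apply]
      exact e2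
    have e3 := Matrix.eq_zero_of_vecMul_eq_zero hyΔ e1
    exact fun a => congrFun e3 a
  have hyW : y ∈ Wp O E h := Wp_closed hO hd hE hyO hy0 hyli hyK.2
  -- a disc
  obtain ⟨ε, Φ, Ψ, hε, hΦd, hΦ0, hΦ', hΦ, -, -, -⟩ := chart hO hd hyO hy0 hyli
  obtain ⟨ζ, hζ0, hζ⟩ : ∃ ζ : I → ℂ, ζ ≠ 0 ∧ ∀ a, fderiv ℂ (h a) y ζ = 0 := by
    let D : (I → ℂ) →ₗ[ℂ] (Fin ρ → ℂ) := LinearMap.pi fun a => (fderiv ℂ (h a) y).toLinearMap
    have h1 : LinearMap.ker D ≠ ⊥ := by
      apply LinearMap.ker_ne_bot_of_finrank_lt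
      have e : Module.finrank ℂ (Fin ρ → ℂ) = ρ := by
        rw [Module.finrank_fintype_fun_eq_card, Fintype.card_fin]
      rw [e]
      exact hρ
    obtain ⟨ζ, hζ, hζ0⟩ := (Submodule.ne_bot_iff _).1 h1
    exact ⟨ζ, hζ0, fun a => congrFun (LinearMap.mem_ker.1 hζ) a⟩
  set δ : ℂ → I → ℂ := fun t => Φ (t • ζ) with hδ
  have hδ0 : δ 0 = y := by simp only [hδ, zero_smul, hΦ0]
  have hc0 : ContinuousAt (fun t : ℂ => t • ζ) 0 := by fun_prop
  have hballev : ∀ᶠ t in 𝓝 (0 : ℂ), t • ζ ∈ ball (0 : I → ℂ) ε := by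
    apply hc0.eventually_mem
    rw [zero_smul]
    exact ball_mem_nhds 0 hε
  have hδc : Tendsto δ (𝓝 0) (𝓝 y) := by
    have h1 : ContinuousAt Φ ((0 : ℂ) • ζ) := by
      rw [zero_smul]
      exact hΦd.continuousOn.continuousAt (ball_mem_nhds 0 hε)
    have h2 := ContinuousAt.comp (f := fun t : ℂ => t • ζ) (g := Φ) h1 hc0
    have h3 := h2.tendsto
    simp only [Function.comp_def, zero_smul, hΦ0] at h3
    exact h3
  have hWev : ∀ᶠ t in 𝓝 (0 : ℂ), (∀ a, h a (δ t) = 0) → δ t ∈ Wp O E h :=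
    hδc.eventually (Wp_open hO hd hyW)
  obtain ⟨τ₁, hτ₁, hb⟩ := Metric.eventually_nhds_iff_ball.1 (hballev.and hWev)
  have hδW : ∀ t ∈ ball (0 : ℂ) τ₁, δ t ∈ Wp O E h := by
    intro t ht
    refine (hb t ht).2 fun a => ?_
    have := (hΦ _ (hb t ht).1).2 a
    rw [map_smul, hζ, smul_zero] at this
    exact this
  have hδd : DifferentiableOn ℂ δ (ball 0 τ₁) := by
    refine hΦd.comp ?_ fun t ht => (hb t ht).1
    exact (differentiable_id.smul_const ζ).differentiableOn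
  have hδ' : deriv δ 0 ≠ 0 := by
    have h1 : HasDerivAt (fun t : ℂ => t • ζ) ζ 0 := by
      simpa using (hasDerivAt_id (0 : ℂ)).smul_const ζ
    have h2 : HasFDerivAt Φ (ContinuousLinearMap.id ℂ (I → ℂ)) ((0 : ℂ) • ζ) := by
      rw [zero_smul]
      exact hΦ'
    have h3 := h2.comp_hasDerivAt (0 : ℂ) h1
    have h4 : HasDerivAt δ ζ 0 := h3
    rw [h4.deriv]
    exact hζ0
  refine maxp hτ₁ hδd hδ' (Δ := fun t => Δ (δ t)) ?_ ?_ 0 ?_
  · exact hΔd.comp hδd fun t ht => (hδW t ht).1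
  · simp only [hδ0]
    exact hyΔ
  · intro t ht
    have h1 := hymax (show δ t ∈ K from ⟨⟨(hδW t ht).1, fun j => Wp_zero (hδW t ht) j⟩,
      subset_closure (hδW t ht)⟩)
    simp only [hδ0]
    exact h1

end Pool.Agent.H207.GF
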