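import Mathlib
import Pool.Graph.R_seed8.W440.RE.Top

/-! Project GF: points which enter the marked discs are attracted. -/

set_option autoImplicit false

open Topology Filter Metric Set
open Pool.Agent.H790R3.RB (CV hF cr ND wr sp pr hc Attd Sink)
open Pool.Agent.W757.RD
open Pool.Agent.W440.RE.TOP
open scoped OnePoint

namespace Pool.Agent.H207.GF

variable {d n s : ℕ}

theorem attd_of_inC (S : Sys d n s) {x : Fin n → ℂ} (hx : x ∈ S.U) {k : Fin s} {m : ℕ}
    {c : OnePoint ℂ} (h : S.InC k x ((S.F x)^[m] (hc c))) : Attd (sp (S.co x)) c := by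
  have hd : 1 ≤ d := le_trans (by norm_num) S.hd
  obtain ⟨hcont, hf, -, hhc, hprc⟩ := Pool.Agent.H790R3.RB.SP d (S.co x) hd (S.nd x hx)
  obtain ⟨e1, e2⟩ := hhc c
  obtain ⟨a, z, ha, hz, hm⟩ := h
  set f : OnePoint ℂ → OnePoint ℂ := sp (S.co x) with hfd
  set P : ℕ := S.per k with hP
  have hP1 : 1 ≤ P := S.hper k
  set b : OnePoint ℂ := pr (S.cht k x 0) with hb
  have hcD : f^[m] c ∈ Dk S k x := by
    refine ⟨z, hz, ?_⟩
    have h1 : f^[m] (pr (hc c)) = pr ((hF (S.co x))^[m] (hc c)) := hf _ e2 m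
    rw [e1] at h1
    rw [h1]
    have h2 : (hF (S.co x))^[m] (hc c) = a • S.cht k x z := hm
    rw [h2, pr_smul ha]
  have hfc : ∀ N : ℕ, Continuous f^[N] := fun N => hcont.iterate N
  -- uniform attraction of the disc
  have hunif : ∀ V ∈ 𝓝 b, ∀ᶠ j : ℕ in atTop, ∀ w ∈ Dk S k x, f^[P * j] w ∈ V := by
    intro V hV
    have h1 : ∀ᶠ z' : ℂ in 𝓝 0, pr (S.cht k x z') ∈ V :=
      (cont_chart S k x hprc).continuousAt.eventually_mem hV
    obtain ⟨ρ, hρ, hρV⟩ := Metric.eventually_nhds_iff.1 h1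
    have h4 := (tendsto_pow_atTop_nhds_zero_of_lt_one S.hθ0 S.hθ).mul_const (S.r₀ k)
    rw [zero_mul] at h4
    filter_upwards [h4.eventually (gt_mem_nhds hρ)] with j hj w hw
    obtain ⟨z, hz, rfl⟩ := hw
    obtain ⟨z', h5, h6⟩ := iter_chart S hx k hf j z hz
    rw [h6]
    apply hρV
    rw [dist_zero_right]
    refine lt_of_le_of_lt (h5.trans ?_) hj
    exact mul_le_mul_of_nonneg_left hz.le (pow_nonneg S.hθ0 _)
  -- the base point is fixed
  have hbfix : f^[P] b = b := by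
    obtain ⟨z', h1, h2⟩ := iter_chart S hx k hf 1 0 (by rw [norm_zero]; exact (S.hr₀ k))
    rw [norm_zero, mul_zero] at h1
    have h3 : z' = 0 := norm_le_zero_iff.1 h1
    rw [h3, mul_one] at h2
    exact h2
  have hbfix' : ∀ j : ℕ, f^[P * j] b = b := by
    intro j
    rw [Function.iterate_mul]
    exact Function.iterate_fixed hbfix j
  have hmain : ∀ V ∈ 𝓝 (f^[m * (P - 1)] b), ∀ᶠ j : ℕ in atTop, ∀ w ∈ f^[m] ⁻¹' (Dk S k x),
      f^[P * j] w ∈ V := by
    intro V hV
    have h1 := hunif _ ((hfc (m * (P - 1))).continuousAt.preimage_mem_nhds hV)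
    have h3 : Tendsto (fun j : ℕ => j - m) atTop atTop := tendsto_sub_atTop_nat m
    filter_upwards [h3.eventually h1, eventually_ge_atTop m] with j hj hjm w hw
    have h5 : f^[m * (P - 1)] (f^[P * (j - m)] (f^[m] w)) ∈ V := hj _ hw
    rw [← Function.iterate_add_apply, ← Function.iterate_add_apply] at h5
    convert h5 using 2
    obtain ⟨i, rfl⟩ := Nat.exists_eq_add_of_le hjm
    obtain ⟨Q, hQ⟩ := Nat.exists_eq_add_of_le hP1
    rw [hQ, Nat.add_sub_cancel_left, Nat.add_sub_cancel_left]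
    ring
  refine ⟨P, f^[m * (P - 1)] b, ⟨hP1, ?_, f^[m] ⁻¹' (Dk S k x), ?_, hmain⟩, ?_⟩
  · rw [← Function.iterate_add_apply, add_comm, Function.iterate_add_apply, hbfix]
  · refine (hfc m).continuousAt.preimage_mem_nhds ?_
    have h1 : f^[m] (f^[m * (P - 1)] b) = b := by
      rw [← Function.iterate_add_apply]
      have h2 : m + m * (P - 1) = P * m := by
        obtain ⟨Q, hQ⟩ := Nat.exists_eq_add_of_le hP1
        rw [hQ, Nat.add_sub_cancel_left]
        ring
      rw [h2, hbfix']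
    rw [h1]
    exact Dk_nhds S k x
  · intro V hV
    rw [Filter.mem_map]
    filter_upwards [hmain V hV] with j hj
    exact hj c hcD

end Pool.Agent.H207.GF
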