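import Mathlib
import Pool.Agent.H207.GF.An4
import Pool.Agent.H207.CS.Emin2
import Pool.Graph.R_seed8.W757.RD.St4
import Pool.Graph.R_seed8.H790R3.RB.Basic

/-! Project GF: the area-distance theorem in arbitrary analytic families. Definitions. The project is
built on the project `Pool.Agent.W757.RD` of the library. -/

set_option autoImplicit false

open Topology Filter Metric Set MeasureTheory
open Pool.Agent.H790R3.RB (CV hF cr ND wr rt Ix yx yc)
open Pool.Agent.W757.RD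

namespace Pool.Agent.H207.GF

/-- coordinates: the parameter of the universal family, the critical points, and `q` auxiliary
unknowns -/
abbrev Bx (d q : ℕ) : Type := Fin (2 * d) ⊕ (Fin (2 * d - 2) ⊕ Fin q)

/-- all coordinates -/
abbrev Jx (d s q : ℕ) : Type := Ix d (2 * d + s) s ⊕ Fin q

variable {d s q : ℕ}

/-- the parameter -/
def bu (z : Bx d q → ℂ) : Fin (2 * d) → ℂ := fun i => z (Sum.inl i)

/-- the critical points -/
def bc (z : Bx d q → ℂ) : Fin (2 * d - 2) → ℂ := fun i => z (Sum.inr (Sum.inl i))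

/-- the auxiliary unknowns -/
def bt (z : Bx d q → ℂ) : Fin q → ℂ := fun i => z (Sum.inr (Sum.inr i))

/-- the coordinates which belong to the dynamics -/
def yl (Y : Jx d s q → ℂ) : Ix d (2 * d + s) s → ℂ := fun i => Y (Sum.inl i)

/-- the auxiliary unknowns -/
def yt (Y : Jx d s q → ℂ) : Fin q → ℂ := fun i => Y (Sum.inr i)

/-- the point of the base -/
def bs (Y : Jx d s q → ℂ) : Bx d q → ℂ := fun i =>
  match i with
  | Sum.inl i => xp (yx (yl Y)) i
  | Sum.inr (Sum.inl i) => yc (yl Y) i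
  | Sum.inr (Sum.inr i) => yt Y i

/-- a system of equations in the base, and an adapted family of functions -/
structure Sta (d q : ℕ) where
  κ : Type
  fκ : Fintype κ
  B : Set (Fin (2 * d) → ℂ)
  T : Set (Fin q → ℂ)
  KT : Set (Fin q → ℂ)
  E : κ → (Bx d q → ℂ) → ℂ
  ρ : ℕ
  h : Fin ρ → (Bx d q → ℂ) → ℂ
  hB : IsOpen B
  hT : IsOpen T
  hKT : IsCompact KT
  KTT : KT ⊆ T
  hE : ∀ j, DifferentiableOn ℂ (E j) {z | bu z ∈ B ∧ bt z ∈ T}
  hh : ∀ a, DifferentiableOn ℂ (h a) {z | bu z ∈ B ∧ bt z ∈ T}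
  prop : ∀ z : Bx d q → ℂ, bu z ∈ B → bt z ∈ T → (∀ j, E j z = 0) → bt z ∈ KT
  crit : ∀ z : Bx d q → ℂ, bu z ∈ B → bt z ∈ T → (∀ j, E j z = 0) → ∀ ζ : ℂ,
    wr (fam (bu z)) (ζ, 1) = wr (fam (bu z)) (1, 0) * ∏ i, (ζ - bc z i)

namespace Sta

variable (Z : Sta d q)

/-- the domain of the equations -/
def O : Set (Bx d q → ℂ) := {z | bu z ∈ Z.B ∧ bt z ∈ Z.T}

/-- the adapted points -/
def W : Set (Bx d q → ℂ) := Wp Z.O Z.E Z.h

end Sta

/-- the matrix of partial derivatives, all structural rows and `R` other rows -/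
noncomputable def MxG (Z : Sta d q) (S : Sys d (2 * d + s) s)
    (KK : Fin s → (Fin (2 * d + s) → ℂ) × (ℂ × ℂ) → ℂ) (A : Finset (Pt d)) (ks : Pt d → Fin s)
    (ls : Pt d → ℕ) {R : ℕ} (sel : Fin R → Sys.Rw s d s A) (col : Fin Z.ρ ⊕ Fin R → Jx d s q)
    (Y : Jx d s q → ℂ) : Matrix (Fin Z.ρ ⊕ Fin R) (Fin Z.ρ ⊕ Fin R) ℂ :=
  Matrix.of fun a c =>
    match a with
    | Sum.inl j => fderiv ℂ (fun Y : Jx d s q → ℂ => Z.h j (bs Y)) Y (Pi.single (col c) 1)
    | Sum.inr i => fderiv ℂ (fun Y : Jx d s q → ℂ => S.Gr KK (ee S) A ks ls (sel i) (yl Y)) Y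
        (Pi.single (col c) 1)

/-- good configurations -/
def GoodG (Z : Sta d q) (S : Sys d (2 * d + s) s)
    (KK : Fin s → (Fin (2 * d + s) → ℂ) × (ℂ × ℂ) → ℂ) (A : Finset (Pt d)) (ks : Pt d → Fin s)
    (ls : Pt d → ℕ) (R : ℕ) (Y : Jx d s q → ℂ) : Prop :=
  S.Adm A ks ls (yl Y) ∧ bs Y ∈ Z.W ∧
    ∃ (sel : Fin R → Sys.Rw s d s A) (col : Fin Z.ρ ⊕ Fin R → Jx d s q),
      (MxG Z S KK A ks ls sel col Y).det ≠ 0

/-! ### linear maps -/

theorem bu_diff : Differentiable ℂ (fun z : Bx d q → ℂ => bu z) := by unfold bu; fun_prop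
theorem bc_diff : Differentiable ℂ (fun z : Bx d q → ℂ => bc z) := by unfold bc; fun_prop
theorem bt_diff : Differentiable ℂ (fun z : Bx d q → ℂ => bt z) := by unfold bt; fun_prop
theorem yl_diff : Differentiable ℂ (fun Y : Jx d s q → ℂ => yl Y) := by unfold yl; fun_prop
theorem yt_diff : Differentiable ℂ (fun Y : Jx d s q → ℂ => yt Y) := by unfold yt; fun_prop

theorem bs_diff : Differentiable ℂ (fun Y : Jx d s q → ℂ => bs Y) := by
  rw [differentiable_pi]
  rintro (i | i | i)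
  · exact differentiable_apply _
  · exact differentiable_apply _
  · exact differentiable_apply _

theorem bs_add (Y V : Jx d s q → ℂ) : bs (Y + V) = bs Y + bs V := by
  funext i
  rcases i with i | i | i <;> rfl

theorem bs_smul (t : ℂ) (Y : Jx d s q → ℂ) : bs (t • Y) = t • bs Y := by
  funext i
  rcases i with i | i | i <;> rfl

/-- `bs` as a linear map -/
noncomputable def bsL : (Jx d s q → ℂ) →L[ℂ] (Bx d q → ℂ) :=
  LinearMap.toContinuousLinearMap
    { toFun := bs, map_add' := bs_add, map_smul' := fun t Y => bs_smul t Y }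

theorem bsL_apply (Y : Jx d s q → ℂ) : bsL Y = bs Y := rfl

theorem bs_surj (z : Bx d q → ℂ) : ∃ Y : Jx d s q → ℂ, bs Y = z := by
  refine ⟨fun i => match i with
    | Sum.inl (Sum.inl i) => Fin.addCases (fun i => bu z i) (fun _ => 0) i
    | Sum.inl (Sum.inr (Sum.inl i)) => bc z i
    | Sum.inl (Sum.inr (Sum.inr _)) => 0
    | Sum.inr i => bt z i, ?_⟩
  funext i
  rcases i with i | i | i
  · change Fin.addCases (fun i => bu z i) (fun _ => 0) (Fin.castAdd s i) = z (Sum.inl i)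
    rw [Fin.addCases_left]
    rfl
  · rfl
  · rfl

theorem bu_bs (Y : Jx d s q → ℂ) : bu (bs Y) = xp (yx (yl Y)) := rfl
theorem bc_bs (Y : Jx d s q → ℂ) : bc (bs Y) = yc (yl Y) := rfl
theorem bt_bs (Y : Jx d s q → ℂ) : bt (bs Y) = yt Y := rfl

theorem Sta.O_open (Z : Sta d q) : IsOpen Z.O :=
  (Z.hB.preimage bu_diff.continuous).inter (Z.hT.preimage bt_diff.continuous)

theorem h_fderiv (Z : Sta d q) {Y : Jx d s q → ℂ} (hY : bs Y ∈ Z.O) (a : Fin Z.ρ)
    (V : Jx d s q → ℂ) : fderiv ℂ (fun Y : Jx d s q → ℂ => Z.h a (bs Y)) Y V =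
      fderiv ℂ (Z.h a) (bs Y) (bs V) := by
  have h1 : HasFDerivAt (Z.h a) (fderiv ℂ (Z.h a) (bs Y)) (bsL Y) :=
    ((Z.hh a).differentiableAt (Z.O_open.mem_nhds hY)).hasFDerivAt
  have h2 : HasFDerivAt (fun Y : Jx d s q → ℂ => Z.h a (bs Y))
      ((fderiv ℂ (Z.h a) (bs Y)).comp bsL) Y := h1.comp Y bsL.hasFDerivAt
  rw [h2.fderiv]
  rfl

/-- expansion of a functional -/
theorem fun_exp {J : Type} [Fintype J] [DecidableEq J] (f : (J → ℂ) →L[ℂ] ℂ) (V : J → ℂ) :
    f V = ∑ c, V c * f (Pi.single c 1) := by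
  conv_lhs => rw [pi_eq_sum_univ' V]
  rw [map_sum]
  refine Finset.sum_congr rfl fun a _ => ?_
  rw [map_smul, smul_eq_mul]

/-- a nonzero minor gives independent derivatives -/
theorem indep_of_det {Z : Sta d q} {S : Sys d (2 * d + s) s}
    {KK : Fin s → (Fin (2 * d + s) → ℂ) × (ℂ × ℂ) → ℂ} {A : Finset (Pt d)} {ks : Pt d → Fin s}
    {ls : Pt d → ℕ} {R : ℕ} {sel : Fin R → Sys.Rw s d s A} {col : Fin Z.ρ ⊕ Fin R → Jx d s q}
    {Y : Jx d s q → ℂ} (hY : bs Y ∈ Z.O) (h : (MxG Z S KK A ks ls sel col Y).det ≠ 0) :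
    LinearIndependent ℂ fun a => fderiv ℂ (Z.h a) (bs Y) := by
  rw [Fintype.linearIndependent_iff]
  intro c hc
  have h1 : Matrix.vecMul (Sum.elim c (fun _ => 0)) (MxG Z S KK A ks ls sel col Y) = 0 := by
    ext b
    rw [Matrix.vecMul, dotProduct, Fintype.sum_sum_type]
    simp only [Sum.elim_inl, Sum.elim_inr, zero_mul, Finset.sum_const_zero, add_zero,
      Pi.zero_apply, MxG, Matrix.of_apply]
    have h2 := congrArg (fun f : (Bx d q → ℂ) →L[ℂ] ℂ => f (bs (Pi.single (col b) 1))) hc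
    simp only [_root_.sum_apply, _root_.smul_apply, smul_eq_mul, _root_.zero_apply] at h2
    rw [← h2]
    refine Finset.sum_congr rfl fun a _ => ?_
    rw [h_fderiv Z hY]
  have h3 := Matrix.eq_zero_of_vecMul_eq_zero h h1
  intro a
  exact congrFun h3 (Sum.inl a)

/-- independent derivatives give a minor -/
theorem det_of_indep {Z : Sta d q} {Y : Jx d s q → ℂ} (hY : bs Y ∈ Z.O)
    (h : LinearIndependent ℂ fun a => fderiv ℂ (Z.h a) (bs Y)) :
    ∃ col : Fin Z.ρ → Jx d s q, (Matrix.of fun a c =>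
      fderiv ℂ (fun Y : Jx d s q → ℂ => Z.h a (bs Y)) Y (Pi.single (col c) 1)).det ≠ 0 := by
  apply Pool.Agent.H207.CS.exists_minor
    (fun a c => fderiv ℂ (fun Y : Jx d s q → ℂ => Z.h a (bs Y)) Y (Pi.single c 1))
  rw [Fintype.linearIndependent_iff] at h ⊢
  intro g hg
  apply h
  ext z
  obtain ⟨V, hV⟩ := bs_surj (s := s) z
  rw [_root_.sum_apply, _root_.zero_apply]
  have h1 : ∀ a, fderiv ℂ (Z.h a) (bs Y) z =
      ∑ c, V c * fderiv ℂ (fun Y : Jx d s q → ℂ => Z.h a (bs Y)) Y (Pi.single c 1) := by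
    intro a
    rw [← hV, ← h_fderiv Z hY, fun_exp]
  calc ∑ a, (g a • fderiv ℂ (Z.h a) (bs Y)) z
      = ∑ a, g a * ∑ c, V c * fderiv ℂ (fun Y : Jx d s q → ℂ => Z.h a (bs Y)) Y
          (Pi.single c 1) := by
        refine Finset.sum_congr rfl fun a _ => ?_
        rw [_root_.smul_apply, smul_eq_mul, h1]
    _ = ∑ c, V c * ∑ a, g a * fderiv ℂ (fun Y : Jx d s q → ℂ => Z.h a (bs Y)) Y
          (Pi.single c 1) := by
        simp only [Finset.mul_sum]
        rw [Finset.sum_comm]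
        refine Finset.sum_congr rfl fun c _ => Finset.sum_congr rfl fun a _ => by ring
    _ = 0 := by
        refine Finset.sum_eq_zero fun c _ => ?_
        have h2 := congrFun hg c
        simp only [Finset.sum_apply, Pi.smul_apply, smul_eq_mul, Pi.zero_apply] at h2
        rw [h2, mul_zero]

end Pool.Agent.H207.GF
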