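import Mathlib
import Pool.Agent.H207.GF.Defs
import Pool.Graph.R_seed8.W440.RE.Jt
import Pool.Graph.R_seed8.W757.RD.TTRF
import Pool.Graph.R_seed8.H790R3.RB.TLA

/-! Project GF: a holomorphic function on the leaf with the zeros of the minor, and maximal
configurations. -/

set_option autoImplicit false

open Topology Filter Metric Set MeasureTheory
open Pool.Agent.H790R3.RB (CV hF cr ND wr rt Ix yx yc StLA)
open Pool.Agent.W757.RD
open Pool.Agent.W440.RE.JT (KP ent fac diff_yx diff_yk quot prod_diff det_diff)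

namespace Pool.Agent.H207.GF

variable {d s q : ℕ}

theorem yl_add (Y V : Jx d s q → ℂ) : yl (Y + V) = yl Y + yl V := rfl

theorem yl_smul (t : ℂ) (Y : Jx d s q → ℂ) : yl (t • Y) = t • yl Y := rfl

/-- `yl` as a linear map -/
noncomputable def ylL : (Jx d s q → ℂ) →L[ℂ] (Ix d (2 * d + s) s → ℂ) :=
  LinearMap.toContinuousLinearMap
    { toFun := yl, map_add' := yl_add, map_smul' := fun t Y => yl_smul t Y }

theorem yl_fderiv {f : (Ix d (2 * d + s) s → ℂ) → ℂ} {Y : Jx d s q → ℂ}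
    (hf : DifferentiableAt ℂ f (yl Y)) (V : Jx d s q → ℂ) :
    fderiv ℂ (fun Y : Jx d s q → ℂ => f (yl Y)) Y V = fderiv ℂ f (yl Y) (yl V) := by
  have h1 : HasFDerivAt f (fderiv ℂ f (yl Y)) (ylL Y) := hf.hasFDerivAt
  have h2 : HasFDerivAt (fun Y : Jx d s q → ℂ => f (yl Y))
      ((fderiv ℂ f (yl Y)).comp ylL) Y := h1.comp Y ylL.hasFDerivAt
  rw [h2.fderiv]
  rfl

theorem jtg (hLAM : StLAM) (hADO : StADO) (Z : Sta d q) (S : Sys d (2 * d + s) s)
    (KK : Fin s → (Fin (2 * d + s) → ℂ) × (ℂ × ℂ) → ℂ) (A : Finset (Pt d))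
    (ks : Pt d → Fin s) (ls : Pt d → ℕ) {R : ℕ}
    (sel : Fin R → Sys.Rw s d s A) (col : Fin Z.ρ ⊕ Fin R → Jx d s q) (hK : S.Koe KK)
    (he : ∀ i, DifferentiableOn ℂ (ee S i) S.U) :
    ∃ Jt : (Jx d s q → ℂ) → ℂ,
      DifferentiableOn ℂ Jt {Y | bs Y ∈ Z.O ∧ yx (yl Y) ∈ S.U ∧ (∀ k, S.lam k (yx (yl Y)) ≠ 0) ∧
        ∀ i ∈ A, (yx (yl Y), (S.F (yx (yl Y)))^[ls i] (pc (yl Y) i, 1)) ∈ S.Dom (ks i)} ∧
      ∀ Y : Jx d s q → ℂ, bs Y ∈ Z.O → yx (yl Y) ∈ S.U → (∀ k, S.lam k (yx (yl Y)) ≠ 0) →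
        (∀ i ∈ A, (yx (yl Y), (S.F (yx (yl Y)))^[ls i] (pc (yl Y) i, 1)) ∈ S.Dom (ks i)) →
        (∀ k, ys (yl Y) k ≠ 0) → (Jt Y = 0 ↔ (MxG Z S KK A ks ls sel col Y).det = 0) := by
  obtain ⟨O, hO, hOe, hEr, hKP, hGr⟩ := hADO d (2 * d + s) s s S KK (ee S) A ks ls hK he
  obtain ⟨hlam, -⟩ := hLAM d (2 * d + s) s S
  have hOU : ∀ y ∈ O, yx y ∈ S.U := by
    intro y hy
    rw [hOe] at hy
    exact hy.1
  have hcomp : ∀ f : (Fin (2 * d + s) → ℂ) → ℂ, DifferentiableOn ℂ f S.U →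
      DifferentiableOn ℂ (fun y : Ix d (2 * d + s) s → ℂ => f (yx y)) O := fun f hf =>
    hf.comp diff_yx.differentiableOn hOU
  have hent : ∀ (a : Sys.Rw s d s A) (v : Ix d (2 * d + s) s → ℂ),
      DifferentiableOn ℂ (fun y => ent S KK (ee S) A ks ls a y v) O := by
    intro a v
    rcases a with i | k | i
    · exact Pool.Agent.Helper540.differentiableOn_fderiv_apply hO (hcomp _ (he i)) v
    · exact Pool.Agent.Helper540.differentiableOn_fderiv_apply hO (hcomp _ (hlam k)) v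
    · have h1 : DifferentiableOn ℂ (KP S KK ks ls i) O := hKP i i.2
      have h2 : DifferentiableOn ℂ (fun y : Ix d (2 * d + s) s → ℂ => ys y (ks i)) O :=
        (diff_yk (ks i)).differentiableOn
      exact (h2.mul (Pool.Agent.Helper540.differentiableOn_fderiv_apply hO h1 v)).sub
        (h1.mul (Pool.Agent.Helper540.differentiableOn_fderiv_apply hO h2 v))
  have hD : {Y : Jx d s q → ℂ | bs Y ∈ Z.O ∧ yx (yl Y) ∈ S.U ∧ (∀ k, S.lam k (yx (yl Y)) ≠ 0) ∧
        ∀ i ∈ A, (yx (yl Y), (S.F (yx (yl Y)))^[ls i] (pc (yl Y) i, 1)) ∈ S.Dom (ks i)} =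
      bs ⁻¹' Z.O ∩ yl ⁻¹' O := by
    ext Y
    simp only [mem_ofPred_eq, mem_inter_iff, mem_preimage]
    rw [hOe]
    rfl
  have hO' : IsOpen (bs ⁻¹' Z.O : Set (Jx d s q → ℂ)) := Z.O_open.preimage bs_diff.continuous
  refine ⟨fun Y => (Matrix.of fun (a c : Fin Z.ρ ⊕ Fin R) =>
    match a with
    | Sum.inl j => fderiv ℂ (fun Y : Jx d s q → ℂ => Z.h j (bs Y)) Y (Pi.single (col c) 1)
    | Sum.inr i => ent S KK (ee S) A ks ls (sel i) (yl Y) (yl (Pi.single (col c) 1))).det, ?_, ?_⟩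
  · rw [hD]
    apply det_diff
    intro a c
    rcases a with j | i
    · refine DifferentiableOn.mono ?_ inter_subset_left
      apply Pool.Agent.Helper540.differentiableOn_fderiv_apply hO'
      exact (Z.hh j).comp bs_diff.differentiableOn fun Y hY => hY
    · refine DifferentiableOn.mono ?_ inter_subset_right
      exact (hent (sel i) _).comp yl_diff.differentiableOn fun Y hY => hY
  · intro Y h0 h1 h2 h3 h4
    have hyO : yl Y ∈ O := by
      rw [hOe]
      exact ⟨h1, h2, h3⟩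
    have hmat : (Matrix.of fun (a c : Fin Z.ρ ⊕ Fin R) =>
        match a with
        | Sum.inl j => fderiv ℂ (fun Y : Jx d s q → ℂ => Z.h j (bs Y)) Y (Pi.single (col c) 1)
        | Sum.inr i => ent S KK (ee S) A ks ls (sel i) (yl Y) (yl (Pi.single (col c) 1))) =
        Matrix.of fun (a c : Fin Z.ρ ⊕ Fin R) =>
          (Sum.elim (fun _ => 1) (fun i => fac A ks (sel i) (yl Y)) a : ℂ) *
            MxG Z S KK A ks ls sel col Y a c := by
      ext a c
      rcases a with j | i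
      · change fderiv ℂ (fun Y : Jx d s q → ℂ => Z.h j (bs Y)) Y (Pi.single (col c) 1) =
          1 * fderiv ℂ (fun Y : Jx d s q → ℂ => Z.h j (bs Y)) Y (Pi.single (col c) 1)
        rw [one_mul]
      · change ent S KK (ee S) A ks ls (sel i) (yl Y) (yl (Pi.single (col c) 1)) =
          fac A ks (sel i) (yl Y) * fderiv ℂ (fun Y : Jx d s q → ℂ =>
            S.Gr KK (ee S) A ks ls (sel i) (yl Y)) Y (Pi.single (col c) 1)
        have hkopen : IsOpen {z : Ix d (2 * d + s) s → ℂ | ∀ k, ys z k ≠ 0} := by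
          have : {z : Ix d (2 * d + s) s → ℂ | ∀ k, ys z k ≠ 0} = ⋂ k, {z | ys z k ≠ 0} := by
            ext; simp
          rw [this]
          exact isOpen_iInter_of_finite fun k =>
            isOpen_ne_fun (diff_yk k).continuous continuous_const
        have hdiff : DifferentiableAt ℂ (S.Gr KK (ee S) A ks ls (sel i)) (yl Y) :=
          (hGr (sel i)).differentiableAt ((hO.inter hkopen).mem_nhds ⟨hyO, h4⟩)
        rw [yl_fderiv hdiff]
        rcases sel i with i' | k | i'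
        · exact (one_mul _).symm
        · exact (one_mul _).symm
        · exact quot ((hKP i' i'.2).differentiableAt (hO.mem_nhds hyO))
            (diff_yk (ks i')).differentiableAt (h4 (ks i')) _
    dsimp only
    rw [hmat, Matrix.det_mul_column]
    have hne : (∏ a : Fin Z.ρ ⊕ Fin R,
        (Sum.elim (fun _ => 1) (fun i => fac A ks (sel i) (yl Y)) a : ℂ)) ≠ 0 := by
      rw [Finset.prod_ne_zero_iff]
      intro a _
      rcases a with j | i
      · exact one_ne_zero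
      · change fac A ks (sel i) (yl Y) ≠ 0
        rcases sel i with i' | k | i'
        · exact one_ne_zero
        · exact one_ne_zero
        · exact pow_ne_zero 2 (h4 (ks i'))
    rw [mul_eq_zero]
    exact ⟨fun h => h.resolve_left hne, fun h => Or.inr h⟩

/-- the minors of size `ρ` -/
theorem good_zero {Z : Sta d q} {S : Sys d (2 * d + s) s}
    {KK : Fin s → (Fin (2 * d + s) → ℂ) × (ℂ × ℂ) → ℂ} {A : Finset (Pt d)} {ks : Pt d → Fin s}
    {ls : Pt d → ℕ} {Y : Jx d s q → ℂ} (hadm : S.Adm A ks ls (yl Y)) (hW : bs Y ∈ Z.W) :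
    GoodG Z S KK A ks ls 0 Y := by
  obtain ⟨col, hcol⟩ := det_of_indep (s := s) hW.1 hW.2.2.1
  refine ⟨hadm, hW, fun a => a.elim0, Sum.elim col (fun a => a.elim0), ?_⟩
  have e1 : MxG Z S KK A ks ls (fun a : Fin 0 => a.elim0) (Sum.elim col (fun a => a.elim0)) Y =
      (Matrix.of fun a c : Fin Z.ρ =>
        fderiv ℂ (fun Y : Jx d s q → ℂ => Z.h a (bs Y)) Y (Pi.single (col c) 1)).submatrix
        (Equiv.sumEmpty (Fin Z.ρ) (Fin 0)) (Equiv.sumEmpty (Fin Z.ρ) (Fin 0)) := by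
    ext a c
    rcases a with a | a
    · rcases c with c | c
      · rfl
      · exact c.elim0
    · exact a.elim0
  rw [e1, Matrix.det_submatrix_equiv_self]
  exact hcol

/-- At a good configuration with maximal number of attracted points the other critical points are
not attracted. -/
theorem nomore (Z : Sta d q) (S : Sys d (2 * d + s) s)
    (KK : Fin s → (Fin (2 * d + s) → ℂ) × (ℂ × ℂ) → ℂ) (A : Finset (Pt d)) (ks : Pt d → Fin s)
    (ls : Pt d → ℕ) (Y : Jx d s q → ℂ) (hadm : S.Adm A ks ls (yl Y)) (hW : bs Y ∈ Z.W)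
    (hmax : ∀ (A' : Finset (Pt d)) (ks' : Pt d → Fin s) (ls' : Pt d → ℕ), A ⊆ A' →
      A.card < A'.card → ¬ GoodG Z S KK A' ks' ls' 0 Y) :
    ∀ i : Fin (2 * d - 2), Sum.inl i ∉ A →
      ∀ k, ∀ m : ℕ, ¬ S.InC k (yx (yl Y)) ((S.F (yx (yl Y)))^[m] (yc (yl Y) i, 1)) := by
  classical
  intro i₀ hi₀ k m hInC
  set i : Pt d := Sum.inl i₀ with hidef
  have hi : i ∉ A := hi₀
  set ks' : Pt d → Fin s := fun j => if j = i then k else ks j with hks'
  set ls' : Pt d → ℕ := fun j => if j = i then m % S.per k else ls j with hls'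
  refine hmax (insert i A) ks' ls' (Finset.subset_insert _ _)
    (by rw [Finset.card_insert_of_notMem hi]; exact Nat.lt_succ_self _)
    (good_zero ⟨hadm.xU, hadm.lam0, hadm.kap0, hadm.crit, ?_, ?_⟩ hW)
  · intro j hj
    simp only [hks', hls']
    by_cases h : j = i
    · rw [if_pos h, if_pos h]
      exact Nat.mod_lt _ (S.hper k)
    · rw [if_neg h, if_neg h]
      exact hadm.lsp j ((Finset.mem_insert.1 hj).resolve_left h)
  · intro j hj
    simp only [hks', hls']
    by_cases h : j = i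
    · rw [if_pos h, if_pos h, h]
      refine ⟨hadm.xU, hadm.lam0 k, m / S.per k, ?_⟩
      change S.InC k (yx (yl Y)) ((S.F (yx (yl Y)))^[S.per k * (m / S.per k)]
        ((S.F (yx (yl Y)))^[m % S.per k] (yc (yl Y) i₀, 1)))
      rw [← Function.iterate_add_apply, Nat.div_add_mod]
      exact hInC
    · rw [if_neg h, if_neg h]
      exact hadm.att j ((Finset.mem_insert.1 hj).resolve_left h)

end Pool.Agent.H207.GF
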