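import Mathlib
import Pool.Agent.H207.GF.Jt
import Pool.Agent.H207.CS.Nu

/-! Project GF: coincidences of critical orbits and the rows of the matrix. -/

set_option autoImplicit false

open Topology Filter Metric Set
open Pool.Agent.H790R3.RB (CV hF cr ND wr rt Ix yx yc cr_self cr_comm cr_iter cr_trans
  cr_eq_zero_iff hF_iter_smul)
open Pool.Agent.W757.RD

namespace Pool.Agent.H207.GF

section Pt

variable {d n s : ℕ}

theorem inC_mul (hLAM : StLAM) {S : Sys d n s} {k : Fin s} {x : Fin n → ℂ} (hx : x ∈ S.U)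
    {p : ℂ × ℂ} (h : S.InC k x p) (j : ℕ) : S.InC k x ((S.F x)^[S.per k * j] p) := by
  induction j with
  | zero => simpa using h
  | succ j ih =>
    rw [Nat.mul_succ, add_comm, Function.iterate_add_apply]
    exact Pool.Agent.H207.CS.inC_per hLAM hx ih

/-- coincidences of orbits of attracted points -/
theorem rel_pt (hLAM : StLAM) {S : Sys d n s} {KK : Fin s → (Fin n → ℂ) × (ℂ × ℂ) → ℂ}
    (hK : S.Koe KK) {x : Fin n → ℂ} {k k' : Fin s} {P P' : ℂ × ℂ} {l l' a b : ℕ}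
    (hP : P ≠ 0) (hP' : P' ≠ 0)
    (hD : (x, (S.F x)^[l] P) ∈ S.Dom k) (hD' : (x, (S.F x)^[l'] P') ∈ S.Dom k')
    (hc : cr ((S.F x)^[a] P) ((S.F x)^[b] P') = 0) :
    k = k' ∧ ∃ ν : ℤ, (S.per k : ℤ) * ν = (l' : ℤ) + a - l - b ∧
      KK k' (x, (S.F x)^[l'] P') = S.lam k x ^ ν * KK k (x, (S.F x)^[l] P) := by
  have hx : x ∈ S.U := hD.1
  have hlam : S.lam k x ≠ 0 := hD.2.1
  have hnd := S.nd x hx
  have hne : ∀ (N : ℕ) (p : ℂ × ℂ), p ≠ 0 → (S.F x)^[N] p ≠ 0 := fun N p hp =>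
    Pool.Agent.H790R3.RB.ND.iter_ne hnd N hp
  obtain ⟨-, -, N₀, hN₀⟩ := id hD
  obtain ⟨-, -, N₀', hN₀'⟩ := id hD'
  change S.InC k x ((S.F x)^[S.per k * N₀] ((S.F x)^[l] P)) at hN₀
  change S.InC k' x ((S.F x)^[S.per k' * N₀'] ((S.F x)^[l'] P')) at hN₀'
  have hp1 := S.hper k
  have hp1' := S.hper k'
  obtain ⟨α, hα, hab⟩ := (cr_eq_zero_iff (hne _ _ hP) (hne _ _ hP')).1 hc
  -- time `M` for the first point
  obtain ⟨N, hN⟩ : ∃ N, N = N₀ + a := ⟨_, rfl⟩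
  have hNa : a ≤ S.per k * N := by
    have : 1 * N ≤ S.per k * N := Nat.mul_le_mul_right _ hp1
    omega
  obtain ⟨e₁, he₁⟩ := Nat.exists_eq_add_of_le (show a ≤ S.per k * N + l by omega)
  have hInM : S.InC k x ((S.F x)^[S.per k * N + l] P) := by
    have h1 := inC_mul hLAM hx hN₀ a
    rw [← Function.iterate_add_apply, ← Function.iterate_add_apply] at h1
    have e : S.per k * a + S.per k * N₀ + l = S.per k * N + l := by rw [hN]; ring
    rw [e] at h1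
    exact h1
  have hMP : (S.F x)^[S.per k * N + l] P = α ^ d ^ e₁ • (S.F x)^[e₁ + b] P' := by
    rw [he₁, add_comm, Function.iterate_add_apply, hab]
    change (hF (S.co x))^[e₁] _ = _
    rw [hF_iter_smul]
    change _ • (S.F x)^[e₁] _ = _
    rw [← Function.iterate_add_apply]
  have hα' : α ^ d ^ e₁ ≠ 0 := pow_ne_zero _ hα
  have hw : (S.F x)^[e₁ + b] P' = (α ^ d ^ e₁)⁻¹ • (S.F x)^[S.per k * N + l] P := by
    rw [hMP, smul_smul, inv_mul_cancel₀ hα', one_smul]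
  have hInw : S.InC k x ((S.F x)^[e₁ + b] P') := by
    rw [hw]
    exact Pool.Agent.H207.CS.inC_smul hInM (inv_ne_zero hα')
  -- time `M'` for the second point
  obtain ⟨N', hN'⟩ : ∃ N', N' = N₀' + (e₁ + b) := ⟨_, rfl⟩
  have hN'a : e₁ + b ≤ S.per k' * N' := by
    have : 1 * N' ≤ S.per k' * N' := Nat.mul_le_mul_right _ hp1'
    omega
  obtain ⟨e₂, he₂⟩ := Nat.exists_eq_add_of_le (show e₁ + b ≤ S.per k' * N' + l' by omega)
  have hInM' : S.InC k' x ((S.F x)^[S.per k' * N' + l'] P') := by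
    have h1 := inC_mul hLAM hx hN₀' (e₁ + b)
    rw [← Function.iterate_add_apply, ← Function.iterate_add_apply] at h1
    have e : S.per k' * (e₁ + b) + S.per k' * N₀' + l' = S.per k' * N' + l' := by rw [hN']; ring
    rw [e] at h1
    exact h1
  have hM'w : (S.F x)^[S.per k' * N' + l'] P' = (S.F x)^[e₂] ((S.F x)^[e₁ + b] P') := by
    rw [he₂, add_comm, Function.iterate_add_apply]
  obtain ⟨a₁, z, ha₁, hz, hwz⟩ := id hInw
  obtain ⟨a₂, z', ha₂, hz', hwz'⟩ := id hInM'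
  have hsep : k = k' ∧ S.per k ∣ e₂ := by
    refine S.sep x hx k k' z z' ((a₁ ^ d ^ e₂)⁻¹ * a₂) e₂ hz hz' ?_
    have h1 : (S.F x)^[e₂] (a₁ • S.cht k x z) = a₂ • S.cht k' x z' := by
      rw [← hwz, ← hM'w, hwz']
    change (hF (S.co x))^[e₂] _ = _ at h1
    rw [hF_iter_smul] at h1
    change (hF (S.co x))^[e₂] (S.cht k x z) = _
    rw [mul_smul]
    change _ = (a₁ ^ d ^ e₂)⁻¹ • (a₂ • S.cht k' x z')
    rw [← h1, smul_smul, inv_mul_cancel₀ (pow_ne_zero _ ha₁), one_smul]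
  obtain ⟨hkk, e, he⟩ := hsep
  subst hkk
  refine ⟨rfl, (e : ℤ) + N - N', ?_, ?_⟩
  · have h1 : ((S.per k * N + l : ℕ) : ℤ) = ((a + e₁ : ℕ) : ℤ) := by rw [he₁]
    have h2 : ((S.per k * N' + l' : ℕ) : ℤ) = ((e₁ + b + e₂ : ℕ) : ℤ) := by rw [he₂]
    have h3 : ((e₂ : ℕ) : ℤ) = ((S.per k * e : ℕ) : ℤ) := by rw [he]
    push_cast at h1 h2 h3
    linarith
  · have h1 : KK k (x, (S.F x)^[S.per k * N' + l'] P') =
        S.lam k x ^ N' * KK k (x, (S.F x)^[l'] P') := by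
      rw [Function.iterate_add_apply]
      exact TRF.KK_iter S hLAM hK hD' N'
    have hDw : (x, (S.F x)^[e₁ + b] P') ∈ S.Dom k := by
      refine ⟨hx, hlam, 0, ?_⟩
      simpa using hInw
    have h2 : KK k (x, (S.F x)^[S.per k * N' + l'] P') =
        S.lam k x ^ e * KK k (x, (S.F x)^[e₁ + b] P') := by
      rw [hM'w, he]
      exact TRF.KK_iter S hLAM hK hDw e
    have hDM : (x, (S.F x)^[S.per k * N + l] P) ∈ S.Dom k := by
      refine ⟨hx, hlam, 0, ?_⟩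
      simpa using hInM
    have h3 : KK k (x, (S.F x)^[e₁ + b] P') = S.lam k x ^ N * KK k (x, (S.F x)^[l] P) := by
      rw [hw, hK.hom k x _ hDM _ (inv_ne_zero hα'), Function.iterate_add_apply]
      exact TRF.KK_iter S hLAM hK hD N
    rw [h2, h3] at h1
    have h4 : S.lam k x ^ ((e : ℤ) + N - N') = S.lam k x ^ e * S.lam k x ^ N / S.lam k x ^ N' := by
      rw [zpow_sub₀ hlam, zpow_add₀ hlam]
      simp only [zpow_natCast]
    rw [h4]
    have h5 := pow_ne_zero N' hlam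
    field_simp
    linear_combination -h1

end Pt

variable {d s q : ℕ}

/-- a curve in the manifold with given tangent vector -/
theorem curve (Z : Sta d q) {Y : Jx d s q → ℂ} (hW : bs Y ∈ Z.W) {v : Jx d s q → ℂ}
    (hv : ∀ a, fderiv ℂ (Z.h a) (bs Y) (bs v) = 0) :
    ∃ δ : ℂ → Jx d s q → ℂ, HasDerivAt δ v 0 ∧ δ 0 = Y ∧
      ∀ᶠ t in 𝓝 (0 : ℂ), ∀ a, Z.h a (bs (δ t)) = 0 := by
  obtain ⟨ε, Φ, Ψ, hε, hΦd, hΦ0, hΦ', hΦ, -, -, -⟩ := chart Z.O_open Z.hh hW.1 hW.2.1 hW.2.2.1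
  obtain ⟨sec, hsec⟩ : ∃ sec : (Bx d q → ℂ) →L[ℂ] (Jx d s q → ℂ), ∀ z, bs (sec z) = z := by
    have hsurj : Function.Surjective (bsL (d := d) (s := s) (q := q)).toLinearMap := by
      intro z
      obtain ⟨Y, hY⟩ := bs_surj (s := s) z
      exact ⟨Y, hY⟩
    obtain ⟨g, hg⟩ := LinearMap.exists_rightInverse_of_surjective _
      (LinearMap.range_eq_top.2 hsurj)
    exact ⟨LinearMap.toContinuousLinearMap g, fun z => LinearMap.congr_fun hg z⟩
  refine ⟨fun t => Y + t • v + sec (Φ (t • bs v) - bs Y - t • bs v), ?_, ?_, ?_⟩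
  · have h1 : HasDerivAt (fun t : ℂ => t • bs v) (bs v) 0 := by
      simpa using (hasDerivAt_id (0 : ℂ)).smul_const (bs v)
    have h2 : HasFDerivAt Φ (ContinuousLinearMap.id ℂ (Bx d q → ℂ)) ((0 : ℂ) • bs v) := by
      rw [zero_smul]
      exact hΦ'
    have h3' := h2.comp_hasDerivAt (0 : ℂ) h1
    have h3 : HasDerivAt (fun t : ℂ => Φ (t • bs v)) (bs v) 0 := h3'
    have h4 : HasDerivAt (fun t : ℂ => Φ (t • bs v) - bs Y - t • bs v) (bs v - bs v) 0 :=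
      (h3.sub_const _).sub h1
    rw [sub_self] at h4
    have h5 : HasDerivAt (fun t : ℂ => sec (Φ (t • bs v) - bs Y - t • bs v)) 0 0 := by
      have := (sec.hasFDerivAt (x := Φ ((0 : ℂ) • bs v) - bs Y - (0 : ℂ) • bs v)).comp_hasDerivAt
        (0 : ℂ) h4
      rw [map_zero] at this
      exact this
    have h6 : HasDerivAt (fun t : ℂ => Y + t • v) v 0 := by
      have := ((hasDerivAt_id (0 : ℂ)).smul_const v).const_add Y
      simpa using this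
    have h7 := h6.add h5
    rw [add_zero] at h7
    exact h7
  · simp only [zero_smul, hΦ0, sub_self, map_zero, add_zero]
  · have hc0 : ContinuousAt (fun t : ℂ => t • bs v) 0 := by fun_prop
    have hballev : ∀ᶠ t in 𝓝 (0 : ℂ), t • bs v ∈ ball (0 : Bx d q → ℂ) ε := by
      apply hc0.eventually_mem
      rw [zero_smul]
      exact ball_mem_nhds 0 hε
    filter_upwards [hballev] with t ht a
    have e : bs (Y + t • v + sec (Φ (t • bs v) - bs Y - t • bs v)) = Φ (t • bs v) := by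
      rw [bs_add, bs_add, bs_smul, hsec]
      abel
    rw [e, (hΦ _ ht).2 a, map_smul, hv, smul_zero]

/-- coincidence of critical orbits -/
noncomputable def Th (a b : ℕ) (i j : Fin (2 * d - 2)) (z : Bx d q → ℂ) : ℂ :=
  cr ((hF (fam (bu z)))^[a] (bc z i, 1)) ((hF (fam (bu z)))^[b] (bc z j, 1))

/-- the function vanishes on the manifold near the point -/
def Vn (Z : Sta d q) (z₀ : Bx d q → ℂ) (f : (Bx d q → ℂ) → ℂ) : Prop :=
  ∀ᶠ z in 𝓝 z₀, (∀ a, Z.h a z = 0) → f z = 0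

/-- the row of a point whose orbit meets the orbit of another one -/
theorem row_rel (hLAM : StLAM) (hADO : StADO) (Z : Sta d q) {S : Sys d (2 * d + s) s} (hExt : Ext S)
    {KK : Fin s → (Fin (2 * d + s) → ℂ) × (ℂ × ℂ) → ℂ} (hK : S.Koe KK) {A : Finset (Pt d)}
    {ks : Pt d → Fin s} {ls : Pt d → ℕ} {Y : Jx d s q → ℂ} (hadm : S.Adm A ks ls (yl Y))
    (hW : bs Y ∈ Z.W) {v : Jx d s q → ℂ} (hv : ∀ a, fderiv ℂ (Z.h a) (bs Y) (bs v) = 0)
    (hvl : ∀ k, fderiv ℂ (fun Y : Jx d s q → ℂ =>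
      S.Gr KK (ee S) A ks ls (Sum.inr (Sum.inl k)) (yl Y)) Y v = 0)
    {i j : Fin (2 * d - 2)} (hi : Sum.inl i ∈ A) (hj : Sum.inl j ∈ A) {a b : ℕ}
    (hrel : Vn Z (bs Y) (Th a b i j))
    (hvi : (i = j ∧ a ≠ b) ∨ fderiv ℂ (fun Y : Jx d s q → ℂ =>
      S.Gr KK (ee S) A ks ls (Sum.inr (Sum.inr ⟨Sum.inl i, hi⟩)) (yl Y)) Y v = 0) :
    fderiv ℂ (fun Y : Jx d s q → ℂ =>
      S.Gr KK (ee S) A ks ls (Sum.inr (Sum.inr ⟨Sum.inl j, hj⟩)) (yl Y)) Y v = 0 := by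
  obtain ⟨hlamd, hlamθ, -⟩ := hLAM d (2 * d + s) s S
  have hed : ∀ i, DifferentiableOn ℂ (ee S i) S.U := fun i =>
    Pool.Agent.W402.RE.MINP.ee_diff S i
  obtain ⟨Oo, hOo, hOe, hErd, -, hGrd⟩ := hADO d (2 * d + s) s s S KK (ee S) A ks ls hK hed
  have hYO : yl Y ∈ Oo := by
    rw [hOe]
    exact ⟨hadm.xU, hadm.lam0, hadm.att⟩
  have hkopen : IsOpen {z : Ix d (2 * d + s) s → ℂ | ∀ k, ys z k ≠ 0} := by
    have : {z : Ix d (2 * d + s) s → ℂ | ∀ k, ys z k ≠ 0} = ⋂ k, {z | ys z k ≠ 0} := by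
      ext; simp
    rw [this]
    exact isOpen_iInter_of_finite fun k =>
      isOpen_ne_fun (Pool.Agent.W402.RE.MINP.ys_diff k).continuous continuous_const
  have hOopen := hOo.inter hkopen
  have hYO' : yl Y ∈ Oo ∩ {z : Ix d (2 * d + s) s → ℂ | ∀ k, ys z k ≠ 0} := ⟨hYO, hadm.kap0⟩
  have hGd : ∀ r, DifferentiableAt ℂ (fun Y : Jx d s q → ℂ => S.Gr KK (ee S) A ks ls r (yl Y)) Y :=
    fun r => ((hGrd r).differentiableAt (hOopen.mem_nhds hYO')).comp Y yl_diff.differentiableAt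
  obtain ⟨δ, hδ, hδ0, hδh⟩ := curve Z hW hv
  have hδc : Tendsto δ (𝓝 0) (𝓝 Y) := by
    have := hδ.continuousAt.tendsto
    rwa [hδ0] at this
  -- derivatives along the curve
  have hder : ∀ r, HasDerivAt (fun t => S.Gr KK (ee S) A ks ls r (yl (δ t)))
      (fderiv ℂ (fun Y : Jx d s q → ℂ => S.Gr KK (ee S) A ks ls r (yl Y)) Y v) 0 := by
    intro r
    have h1 : HasFDerivAt (fun Y : Jx d s q → ℂ => S.Gr KK (ee S) A ks ls r (yl Y))
        (fderiv ℂ (fun Y : Jx d s q → ℂ => S.Gr KK (ee S) A ks ls r (yl Y)) Y) (δ 0) := by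
      rw [hδ0]
      exact (hGd r).hasFDerivAt
    exact h1.comp_hasDerivAt (0 : ℂ) hδ
  -- the relation near `Y`
  have hev : ∀ᶠ Y' in 𝓝 Y, (∀ a, Z.h a (bs Y') = 0) → ks (Sum.inl i) = ks (Sum.inl j) ∧
      ∃ ν : ℤ, (S.per (ks (Sum.inl i)) : ℤ) * ν = (ls (Sum.inl j) : ℤ) + a - ls (Sum.inl i) - b ∧
      S.Gr KK (ee S) A ks ls (Sum.inr (Sum.inr ⟨Sum.inl j, hj⟩)) (yl Y') =
        S.lam (ks (Sum.inl i)) (yx (yl Y')) ^ ν *
          S.Gr KK (ee S) A ks ls (Sum.inr (Sum.inr ⟨Sum.inl i, hi⟩)) (yl Y') := by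
    have h1 : ∀ᶠ Y' in 𝓝 Y, yl Y' ∈ Oo ∩ {z : Ix d (2 * d + s) s → ℂ | ∀ k, ys z k ≠ 0} :=
      (yl_diff (d := d) (s := s) (q := q)).continuous.continuousAt.eventually_mem
        (hOopen.mem_nhds hYO')
    have h2 : ∀ᶠ Y' in 𝓝 Y, (∀ a, Z.h a (bs Y') = 0) → Th a b i j (bs Y') = 0 :=
      ((bs_diff (d := d) (s := s) (q := q)).continuous.tendsto Y).eventually hrel
    filter_upwards [h1, h2] with Y' hY' hT hh
    obtain ⟨hO', hk'⟩ := hY'
    rw [hOe] at hO'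
    have hT' := hT hh
    unfold Th at hT'
    rw [bu_bs, bc_bs, ← hExt.co _ hO'.1] at hT'
    have hne1 : ((yc (yl Y') i, 1) : ℂ × ℂ) ≠ 0 := fun h => by simpa using congrArg Prod.snd h
    have hne2 : ((yc (yl Y') j, 1) : ℂ × ℂ) ≠ 0 := fun h => by simpa using congrArg Prod.snd h
    obtain ⟨hkk, ν, hν, hKν⟩ := rel_pt hLAM hK hne1 hne2 (hO'.2.2 (Sum.inl i) hi)
      (hO'.2.2 (Sum.inl j) hj) hT'
    refine ⟨hkk, ν, hν, ?_⟩
    change KK (ks (Sum.inl j)) (yx (yl Y'), (S.F (yx (yl Y')))^[ls (Sum.inl j)]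
      (yc (yl Y') j, 1)) / ys (yl Y') (ks (Sum.inl j)) =
      S.lam (ks (Sum.inl i)) (yx (yl Y')) ^ ν * (KK (ks (Sum.inl i)) (yx (yl Y'),
        (S.F (yx (yl Y')))^[ls (Sum.inl i)] (yc (yl Y') i, 1)) / ys (yl Y') (ks (Sum.inl i)))
    change KK (ks (Sum.inl j)) (yx (yl Y'), (S.F (yx (yl Y')))^[ls (Sum.inl j)]
      (yc (yl Y') j, 1)) = S.lam (ks (Sum.inl i)) (yx (yl Y')) ^ ν * KK (ks (Sum.inl i))
        (yx (yl Y'), (S.F (yx (yl Y')))^[ls (Sum.inl i)] (yc (yl Y') i, 1)) at hKν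
    rw [hKν, hkk]
    ring
  obtain ⟨hkk, ν, hν, -⟩ := hev.self_of_nhds hW.2.1
  have hp0 : (S.per (ks (Sum.inl i)) : ℤ) ≠ 0 := by
    have := S.hper (ks (Sum.inl i))
    have h2 : S.per (ks (Sum.inl i)) ≠ 0 := by omega
    exact_mod_cast h2
  have hevt : ∀ᶠ t in 𝓝 (0 : ℂ),
      S.Gr KK (ee S) A ks ls (Sum.inr (Sum.inr ⟨Sum.inl j, hj⟩)) (yl (δ t)) =
        S.Gr KK (ee S) A ks ls (Sum.inr (Sum.inl (ks (Sum.inl i)))) (yl (δ t)) ^ ν *
          S.Gr KK (ee S) A ks ls (Sum.inr (Sum.inr ⟨Sum.inl i, hi⟩)) (yl (δ t)) := by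
    filter_upwards [hδc.eventually hev, hδh] with t ht hh
    obtain ⟨-, ν', hν', hr⟩ := ht hh
    have : ν' = ν := mul_left_cancel₀ hp0 (hν'.trans hν.symm)
    subst this
    exact hr
  have hl0 : S.Gr KK (ee S) A ks ls (Sum.inr (Sum.inl (ks (Sum.inl i)))) (yl (δ 0)) ≠ 0 := by
    rw [hδ0]
    exact hadm.lam0 _
  have hdl : HasDerivAt (fun t => S.Gr KK (ee S) A ks ls (Sum.inr (Sum.inl (ks (Sum.inl i))))
      (yl (δ t))) 0 0 := by
    have := hder (Sum.inr (Sum.inl (ks (Sum.inl i))))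
    rwa [hvl] at this
  have hdz : HasDerivAt (fun t => S.Gr KK (ee S) A ks ls (Sum.inr (Sum.inl (ks (Sum.inl i))))
      (yl (δ t)) ^ ν) 0 0 := by
    have h1 := (hasDerivAt_zpow ν _ (Or.inl hl0)).comp (0 : ℂ) hdl
    rw [mul_zero] at h1
    exact h1
  rcases hvi with ⟨rfl, hab⟩ | hvi
  · -- the orbit meets itself
    have hν0 : ν ≠ 0 := by
      rintro rfl
      rw [mul_zero] at hν
      apply hab
      omega
    have hzero : ∀ᶠ t in 𝓝 (0 : ℂ),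
        S.Gr KK (ee S) A ks ls (Sum.inr (Sum.inr ⟨Sum.inl i, hj⟩)) (yl (δ t)) = 0 := by
      have hxU : ∀ᶠ t in 𝓝 (0 : ℂ), yl (δ t) ∈ Oo := by
        have h1 : ∀ᶠ Y' in 𝓝 Y, yl Y' ∈ Oo :=
          (yl_diff (d := d) (s := s) (q := q)).continuous.continuousAt.eventually_mem
            (hOo.mem_nhds hYO)
        exact hδc.eventually h1
      filter_upwards [hevt, hxU] with t ht hx
      rw [hOe] at hx
      have h1 : ‖S.lam (ks (Sum.inl i)) (yx (yl (δ t)))‖ < 1 :=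
        (hlamθ _ _ hx.1).trans_lt S.hθ
      have h2 : S.lam (ks (Sum.inl i)) (yx (yl (δ t))) ≠ 0 := hx.2.1 _
      have h3 : S.lam (ks (Sum.inl i)) (yx (yl (δ t))) ^ ν ≠ 1 := by
        intro hcon
        have h4 : ‖S.lam (ks (Sum.inl i)) (yx (yl (δ t)))‖ ^ ν = 1 := by
          rw [← norm_zpow, hcon, norm_one]
        rcases lt_trichotomy ν 0 with h | h | h
        · have := one_lt_zpow_of_neg₀ (norm_pos_iff.2 h2) h1 h
          linarith
        · exact hν0 h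
        · have := zpow_lt_one₀ (norm_pos_iff.2 h2) h1 h
          linarith
      have h5 : S.Gr KK (ee S) A ks ls (Sum.inr (Sum.inr ⟨Sum.inl i, hj⟩)) (yl (δ t)) *
          (1 - S.lam (ks (Sum.inl i)) (yx (yl (δ t))) ^ ν) = 0 := by
        have h6 : S.Gr KK (ee S) A ks ls (Sum.inr (Sum.inl (ks (Sum.inl i)))) (yl (δ t)) =
            S.lam (ks (Sum.inl i)) (yx (yl (δ t))) := rfl
        rw [h6] at ht
        linear_combination ht
      rcases mul_eq_zero.1 h5 with h6 | h6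
      · exact h6
      · exact absurd (sub_eq_zero.1 h6).symm h3
    have h1 := (hasDerivAt_const (0 : ℂ) (0 : ℂ)).congr_of_eventuallyEq
      (show (fun t => S.Gr KK (ee S) A ks ls (Sum.inr (Sum.inr ⟨Sum.inl i, hj⟩)) (yl (δ t))) =ᶠ[𝓝 0]
        fun _ => (0 : ℂ) from hzero)
    exact (hder (Sum.inr (Sum.inr ⟨Sum.inl i, hj⟩))).unique h1
  · have hdi : HasDerivAt (fun t => S.Gr KK (ee S) A ks ls (Sum.inr (Sum.inr ⟨Sum.inl i, hi⟩))
        (yl (δ t))) 0 0 := by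
      have := hder (Sum.inr (Sum.inr ⟨Sum.inl i, hi⟩))
      rwa [hvi] at this
    have h1 := hdz.mul hdi
    rw [zero_mul, mul_zero, add_zero] at h1
    have h2 := h1.congr_of_eventuallyEq hevt
    exact (hder (Sum.inr (Sum.inr ⟨Sum.inl j, hj⟩))).unique h2

end Pool.Agent.H207.GF
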