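import Mathlib
import Pool.Agent.H207.GF.End1
import Pool.Agent.H207.GF.Att

/-! Project GF: at a configuration of maximal rank there are many disjoint critical orbits. -/

set_option autoImplicit false

open Topology Filter Metric Set
open Pool.Agent.H790R3.RB (CV hF cr ND wr rt Ix yx yc sp hc Attd cr_self cr_comm cr_iter cr_trans
  cr_eq_zero_iff hF_iter_smul hF_iter_differentiable)
open Pool.Agent.W757.RD

namespace Pool.Agent.H207.GF

/-- a point where countably many holomorphic functions do not vanish -/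
theorem baire_pt {I : Type} [Fintype I] {U : Set (I → ℂ)} (hU : IsOpen U) (hUc : Convex ℝ U)
    {ι : Type} [Countable ι] (f : ι → (I → ℂ) → ℂ) (hf : ∀ i, DifferentiableOn ℂ (f i) U)
    (hne : ∀ i, ∃ x ∈ U, f i x ≠ 0) {V : Set (I → ℂ)} (hV : IsOpen V) (hVU : (V ∩ U).Nonempty) :
    ∃ x ∈ V ∩ U, ∀ i, f i x ≠ 0 := by
  haveI : LocallyCompactSpace U := hU.locallyCompactSpace
  have hD : Dense (⋂ i, {x : U | f i x ≠ 0}) := by
    refine dense_iInter_of_isOpen (fun i => ?_) (fun i => ?_)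
    · have h1 : Continuous (U.domRestrict (f i)) := (hf i).continuousOn.domRestrict
      exact isOpen_ne_fun h1 continuous_const
    · rw [dense_iff_inter_open]
      rintro W hW ⟨x₀, hx₀⟩
      by_contra hcon
      obtain ⟨x₁, hx₁, hx₁f⟩ := hne i
      obtain ⟨W', hW', rfl⟩ := isOpen_induced_iff.1 hW
      apply hx₁f
      refine line_id hU hUc (hf i) x₀.2 hx₁ ?_
      have hc : ContinuousAt (fun t : ℂ => (x₀ : I → ℂ) + t • (x₁ - x₀)) 0 := by fun_prop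
      have h1 : ∀ᶠ t in 𝓝 (0 : ℂ), (x₀ : I → ℂ) + t • (x₁ - x₀) ∈ W' ∩ U := by
        apply hc.eventually_mem
        rw [zero_smul, add_zero]
        exact (hW'.inter hU).mem_nhds ⟨hx₀, x₀.2⟩
      filter_upwards [h1] with t ht
      by_contra hne'
      exact hcon ⟨⟨_, ht.2⟩, ht.1, hne'⟩
  obtain ⟨y, hy⟩ := hVU
  obtain ⟨x, hx1, hx2⟩ := hD.inter_open_nonempty (Subtype.val ⁻¹' V)
    (hV.preimage continuous_subtype_val) ⟨⟨y, hy.2⟩, hy.1⟩
  rw [mem_iInter] at hx2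
  exact ⟨x, ⟨hx1, x.2⟩, hx2⟩

variable {d s q : ℕ}

theorem Th_diff (a b : ℕ) (hd : Differentiable ℂ (fam : (Fin (2 * d) → ℂ) → CV d))
    (i j : Fin (2 * d - 2)) : Differentiable ℂ (Th (q := q) a b i j) := by
  have e0 : ∀ i, Differentiable ℂ (fun z : Bx d q → ℂ => ((bc z i, 1) : ℂ × ℂ)) := fun i =>
    (differentiable_pi.1 bc_diff i).prodMk (differentiable_const _)
  have e2 : ∀ (n : ℕ) i, Differentiable ℂ (fun z : Bx d q → ℂ =>
      (hF (fam (bu z)))^[n] (bc z i, 1)) := fun n i =>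
    (hF_iter_differentiable d n).comp ((hd.comp bu_diff).prodMk (e0 i))
  unfold Th cr
  exact ((e2 a i).fst.mul (e2 b j).snd).sub ((e2 a i).snd.mul (e2 b j).fst)

/-- the number of classes of critical orbits -/
theorem count (hLAM : StLAM) (hADO : StADO) (Z : Sta d q) {S : Sys d (2 * d + s) s} (hExt : Ext S)
    {KK : Fin s → (Fin (2 * d + s) → ℂ) × (ℂ × ℂ) → ℂ} (hK : S.Koe KK) {A : Finset (Pt d)}
    {ks : Pt d → Fin s} {ls : Pt d → ℕ} {R : ℕ} {Y : Jx d s q → ℂ}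
    (hG : GoodG Z S KK A ks ls R Y) (hcard : Fintype.card (Jx d s q) ≤ Z.ρ + R)
    (I : Finset (Fin (2 * d - 2))) (hIA : ∀ i ∈ I, Sum.inl i ∈ A)
    (hImax : ∀ j : Fin (2 * d - 2), Sum.inl j ∈ A → j ∈ I ∨
      (∃ i ∈ I, ∃ a b, Vn Z (bs Y) (Th a b i j)) ∨ ∃ a b, a ≠ b ∧ Vn Z (bs Y) (Th a b j j)) :
    Fintype.card (Jx d s q) ≤ Z.ρ + (s + (s + (2 + I.card))) := by
  classical
  obtain ⟨hadm, hW, sel, col, hdet⟩ := hG
  -- columns
  have hcolinj : Function.Injective col := by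
    intro c c' hcc
    by_contra hne
    apply hdet
    refine Matrix.det_zero_of_column_eq hne ?_
    intro a
    simp only [MxG, Matrix.of_apply]
    rw [hcc]
  have hcolbij : Function.Bijective col := by
    refine (Fintype.bijective_iff_injective_and_card col).2 ⟨hcolinj, ?_⟩
    have h1 := Fintype.card_le_of_injective col hcolinj
    rw [Fintype.card_sum, Fintype.card_fin, Fintype.card_fin] at h1 ⊢
    omega
  have hkey : ∀ v : Jx d s q → ℂ, (∀ a, fderiv ℂ (Z.h a) (bs Y) (bs v) = 0) →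
      (∀ r, fderiv ℂ (fun Y : Jx d s q → ℂ => S.Gr KK (ee S) A ks ls r (yl Y)) Y v = 0) →
      v = 0 := by
    intro v hv1 hv2
    have h1 : (MxG Z S KK A ks ls sel col Y).mulVec (fun c => v (col c)) = 0 := by
      have hexp : ∀ f : (Jx d s q → ℂ) →L[ℂ] ℂ, f v = ∑ c, f (Pi.single (col c) 1) * v (col c) := by
        intro f
        rw [fun_exp f v, ← (Equiv.ofBijective col hcolbij).sum_comp]
        refine Finset.sum_congr rfl fun c _ => ?_
        simp only [Equiv.ofBijective_apply]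
        ring
      funext a
      rw [Matrix.mulVec, dotProduct, Pi.zero_apply]
      rcases a with a | a
      · simp only [MxG, Matrix.of_apply]
        rw [← hexp, h_fderiv Z hW.1]
        exact hv1 a
      · simp only [MxG, Matrix.of_apply]
        rw [← hexp]
        exact hv2 _
    have h2 := Matrix.eq_zero_of_mulVec_eq_zero hdet h1
    funext c
    obtain ⟨c', rfl⟩ := hcolbij.2 c
    exact congrFun h2 c'
  -- the functionals
  let ψ : Fin Z.ρ ⊕ (Fin s ⊕ (Fin s ⊕ (Fin 2 ⊕ {i // i ∈ I}))) → (Jx d s q → ℂ) →ₗ[ℂ] ℂ := fun ξ =>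
    match ξ with
    | Sum.inl a => ((fderiv ℂ (Z.h a) (bs Y)).comp bsL).toLinearMap
    | Sum.inr (Sum.inl k) =>
      (fderiv ℂ (fun Y : Jx d s q → ℂ => S.Gr KK (ee S) A ks ls (Sum.inl k) (yl Y)) Y).toLinearMap
    | Sum.inr (Sum.inr (Sum.inl k)) =>
      (fderiv ℂ (fun Y : Jx d s q → ℂ =>
        S.Gr KK (ee S) A ks ls (Sum.inr (Sum.inl k)) (yl Y)) Y).toLinearMap
    | Sum.inr (Sum.inr (Sum.inr (Sum.inl j))) =>
      if h : Sum.inr j ∈ A then
        (fderiv ℂ (fun Y : Jx d s q → ℂ =>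
          S.Gr KK (ee S) A ks ls (Sum.inr (Sum.inr ⟨Sum.inr j, h⟩)) (yl Y)) Y).toLinearMap
      else 0
    | Sum.inr (Sum.inr (Sum.inr (Sum.inr i))) =>
      (fderiv ℂ (fun Y : Jx d s q → ℂ =>
        S.Gr KK (ee S) A ks ls (Sum.inr (Sum.inr ⟨Sum.inl i.1, hIA i.1 i.2⟩)) (yl Y)) Y).toLinearMap
  have hinj : Function.Injective (LinearMap.pi ψ) := by
    rw [← LinearMap.ker_eq_bot, LinearMap.ker_eq_bot']
    intro v hv
    have hψ : ∀ ξ, ψ ξ v = 0 := fun ξ => congrFun hv ξ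
    have hv1 : ∀ a, fderiv ℂ (Z.h a) (bs Y) (bs v) = 0 := fun a => hψ (Sum.inl a)
    have hvl : ∀ k, fderiv ℂ (fun Y : Jx d s q → ℂ =>
        S.Gr KK (ee S) A ks ls (Sum.inr (Sum.inl k)) (yl Y)) Y v = 0 :=
      fun k => hψ (Sum.inr (Sum.inr (Sum.inl k)))
    have hvi : ∀ i (hi : i ∈ I), fderiv ℂ (fun Y : Jx d s q → ℂ =>
        S.Gr KK (ee S) A ks ls (Sum.inr (Sum.inr ⟨Sum.inl i, hIA i hi⟩)) (yl Y)) Y v = 0 :=
      fun i hi => hψ (Sum.inr (Sum.inr (Sum.inr (Sum.inr ⟨i, hi⟩))))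
    refine hkey v hv1 ?_
    rintro (k | k | ⟨i | j, h⟩)
    · exact hψ (Sum.inr (Sum.inl k))
    · exact hvl k
    · rcases hImax i h with h1 | ⟨i', hi', a, b, hr⟩ | ⟨a, b, hab, hr⟩
      · exact hvi i h1
      · exact row_rel hLAM hADO Z hExt hK hadm hW hv1 hvl (hIA i' hi') h hr (Or.inr (hvi i' hi'))
      · exact row_rel hLAM hADO Z hExt hK hadm hW hv1 hvl h h hr (Or.inl ⟨rfl, hab⟩)
    · have h1 := hψ (Sum.inr (Sum.inr (Sum.inr (Sum.inl j))))
      simp only [ψ, dif_pos h] at h1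
      exact h1
  have h1 := LinearMap.finrank_le_finrank_of_injective hinj
  rw [Module.finrank_fintype_fun_eq_card, Module.finrank_fintype_fun_eq_card] at h1
  simp only [Fintype.card_sum, Fintype.card_fin, Fintype.card_coe] at h1 ⊢
  exact h1

/-- Many disjoint critical orbits near a configuration of maximal rank. -/
theorem endg (hFM : StFM) (hLAM : StLAM) (hADO : StADO) (hd : 2 ≤ d) (Z : Sta d q)
    {S : Sys d (2 * d + s) s} (hExt : Ext S)
    {KK : Fin s → (Fin (2 * d + s) → ℂ) × (ℂ × ℂ) → ℂ} (hK : S.Koe KK) {A : Finset (Pt d)}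
    {ks : Pt d → Fin s} {ls : Pt d → ℕ} {R : ℕ} {Y : Jx d s q → ℂ}
    (hG : GoodG Z S KK A ks ls R Y) (hcard : Fintype.card (Jx d s q) ≤ Z.ρ + R) {ε' : ℝ}
    (hε' : 0 < ε') :
    ∃ (z : Bx d q → ℂ) (I : Finset (Fin (2 * d - 2))), ‖z - bs Y‖ < ε' ∧ z ∈ Z.W ∧
      bu z ∈ U₀ d ∧ 4 * d + q ≤ Z.ρ + I.card + 4 ∧
      (∀ i ∈ I, Attd (sp (fam (bu z))) ((bc z i : ℂ) : OnePoint ℂ)) ∧
      (∀ i ∈ I, ∀ a b, a ≠ b → Th a b i i z ≠ 0) ∧
      ∀ i ∈ I, ∀ j ∈ I, i ≠ j → ∀ a b, Th a b i j z ≠ 0 := by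
  classical
  obtain ⟨-, hfamd, -⟩ := hFM d hd
  have hW : bs Y ∈ Z.W := hG.2.1
  have hadm := hG.1
  -- the maximal family
  let P : Finset (Fin (2 * d - 2)) → Prop := fun I =>
    (∀ i ∈ I, Sum.inl i ∈ A ∧ ∀ a b, a ≠ b → ¬ Vn Z (bs Y) (Th a b i i)) ∧
      ∀ i ∈ I, ∀ j ∈ I, i ≠ j → ∀ a b, ¬ Vn Z (bs Y) (Th a b i j)
  have hP0 : P ∅ := ⟨fun i hi => absurd hi (Finset.notMem_empty i),
    fun i hi => absurd hi (Finset.notMem_empty i)⟩
  obtain ⟨I, hI, hImx⟩ := Finset.exists_max_image (Finset.univ.filter P) Finset.card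
    ⟨∅, Finset.mem_filter.2 ⟨Finset.mem_univ _, hP0⟩⟩
  have hPI : P I := (Finset.mem_filter.1 hI).2
  have hsymm : ∀ a b i j, Vn Z (bs Y) (Th a b i j) → Vn Z (bs Y) (Th b a j i) := by
    intro a b i j h
    filter_upwards [h] with z hz hh
    have h1 := hz hh
    unfold Th at h1 ⊢
    rw [cr_comm, h1, neg_zero]
  have hImax : ∀ j : Fin (2 * d - 2), Sum.inl j ∈ A → j ∈ I ∨
      (∃ i ∈ I, ∃ a b, Vn Z (bs Y) (Th a b i j)) ∨ ∃ a b, a ≠ b ∧ Vn Z (bs Y) (Th a b j j) := by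
    intro j hj
    by_contra hcon
    push Not at hcon
    obtain ⟨h1, h2, h3⟩ := hcon
    have hP' : P (insert j I) := by
      refine ⟨fun i hi => ?_, fun i hi i' hi' hne a b hV => ?_⟩
      · rcases Finset.mem_insert.1 hi with rfl | hi
        · exact ⟨hj, h3⟩
        · exact hPI.1 i hi
      · rcases Finset.mem_insert.1 hi with k1 | k1
        · rcases Finset.mem_insert.1 hi' with k2 | k2
          · exact hne (k1.trans k2.symm)
          · rw [k1] at hV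
            exact h2 i' k2 b a (hsymm _ _ _ _ hV)
        · rcases Finset.mem_insert.1 hi' with k2 | k2
          · rw [k2] at hV
            exact h2 i k1 a b hV
          · exact hPI.2 i k1 i' k2 hne a b hV
    have h4 := hImx _ (Finset.mem_filter.2 ⟨Finset.mem_univ _, hP'⟩)
    rw [Finset.card_insert_of_notMem h1] at h4
    omega
  have hcount := count hLAM hADO Z hExt hK hG hcard I (fun i hi => (hPI.1 i hi).1) hImax
  have hcd : 4 * d + q ≤ Z.ρ + I.card + 4 := by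
    simp only [Fintype.card_sum, Fintype.card_fin] at hcount
    omega
  -- the chart
  obtain ⟨ε, Φ, Ψ, hε, hΦd, hΦ0, hΦ', hΦ, hΨc, hΨz, hΨ⟩ :=
    chart Z.O_open Z.hh hW.1 hW.2.1 hW.2.2.1
  obtain ⟨w, hw⟩ := exists_dual hW.2.2.1
  let π : (Bx d q → ℂ) →L[ℂ] (Bx d q → ℂ) := ContinuousLinearMap.id ℂ _ -
    ∑ a, (fderiv ℂ (Z.h a) (bs Y)).smulRight (w a)
  have hπ : ∀ ζ, π ζ = ζ - ∑ a, fderiv ℂ (Z.h a) (bs Y) ζ • w a := by
    intro ζ
    simp only [π, _root_.sub_apply, ContinuousLinearMap.id_apply, _root_.sum_apply,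
      ContinuousLinearMap.smulRight_apply]
  have hπ0 : ∀ ζ b, fderiv ℂ (Z.h b) (bs Y) (π ζ) = 0 := by
    intro ζ b
    rw [hπ, map_sub, map_sum]
    simp only [map_smul, hw, smul_eq_mul, mul_ite, mul_one, mul_zero, Finset.sum_ite_eq,
      Finset.mem_univ, if_true]
    exact sub_self _
  have hπ1 : ∀ ζ, (∀ b, fderiv ℂ (Z.h b) (bs Y) ζ = 0) → π ζ = ζ := by
    intro ζ h
    rw [hπ]
    simp only [h, zero_smul, Finset.sum_const_zero, sub_zero]
  set U : Set (Bx d q → ℂ) := π ⁻¹' ball 0 ε with hUdef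
  have hUo : IsOpen U := isOpen_ball.preimage π.continuous
  have hUc : Convex ℝ U := (convex_ball (0 : Bx d q → ℂ) ε).linear_preimage
    (π.toLinearMap.restrictScalars ℝ)
  have hΦU : DifferentiableOn ℂ (fun ζ => Φ (π ζ)) U :=
    hΦd.comp π.differentiable.differentiableOn fun ζ hζ => hζ
  have h0U : (0 : Bx d q → ℂ) ∈ U := by
    rw [hUdef, mem_preimage, map_zero]
    exact mem_ball_self hε
  have hh0 : ∀ ζ ∈ U, ∀ a, Z.h a (Φ (π ζ)) = 0 := by
    intro ζ hζ a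
    rw [(hΦ _ hζ).2 a, hπ0]
  -- the functions
  let ι := {p : (Fin (2 * d - 2) × Fin (2 * d - 2)) × (ℕ × ℕ) //
    ¬ Vn Z (bs Y) (Th p.2.1 p.2.2 p.1.1 p.1.2)}
  have hne : ∀ p : ι, ∃ ζ ∈ U, (Th p.1.2.1 p.1.2.2 p.1.1.1 p.1.1.2 (Φ (π ζ)) : ℂ) ≠ 0 := by
    rintro ⟨p, hp⟩
    have h1 : ∃ᶠ z in 𝓝 (bs Y), ¬ ((∀ a, Z.h a z = 0) → Th p.2.1 p.2.2 p.1.1 p.1.2 z = 0) :=
      Filter.not_eventually.1 hp
    have hΨs : ∀ᶠ z in 𝓝 (bs Y), Ψ z ∈ ball (0 : Bx d q → ℂ) ε := by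
      apply hΨc.eventually_mem
      rw [hΨz]
      exact ball_mem_nhds 0 hε
    obtain ⟨z, hz1, hz2, hz3⟩ := (h1.and_eventually (hΨ.and hΨs)).exists
    push Not at hz1
    obtain ⟨hz1, hz4⟩ := hz1
    have h2 : π (Ψ z) = Ψ z := by
      apply hπ1
      intro b
      rw [← (hΦ _ hz3).2 b, hz2]
      exact hz1 b
    refine ⟨Ψ z, ?_, ?_⟩
    · rw [hUdef, mem_preimage, h2]
      exact hz3
    · rw [h2, hz2]
      exact hz4
  -- the neighbourhood
  obtain ⟨sec, hsec⟩ : ∃ sec : (Bx d q → ℂ) →L[ℂ] (Jx d s q → ℂ), ∀ z, bs (sec z) = z := by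
    have hsurj : Function.Surjective (bsL (d := d) (s := s) (q := q)).toLinearMap := by
      intro z
      obtain ⟨Y, hY⟩ := bs_surj (s := s) z
      exact ⟨Y, hY⟩
    obtain ⟨g, hg⟩ := LinearMap.exists_rightInverse_of_surjective _
      (LinearMap.range_eq_top.2 hsurj)
    exact ⟨LinearMap.toContinuousLinearMap g, fun z => LinearMap.congr_fun hg z⟩
  obtain ⟨Oo, hOo, hOe, -⟩ := hADO d (2 * d + s) s 0 S KK (fun i => i.elim0) A ks ls hK
    (fun i => i.elim0)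
  have hYO : yl Y ∈ Oo := by
    rw [hOe]
    exact ⟨hadm.xU, hadm.lam0, hadm.att⟩
  have hnear : ∀ᶠ z in 𝓝 (bs Y), ‖z - bs Y‖ < ε' ∧ ((∀ a, Z.h a z = 0) → z ∈ Z.W) ∧
      yl (Y + sec (z - bs Y)) ∈ Oo := by
    refine Filter.Eventually.and ?_ (Filter.Eventually.and (Wp_open Z.O_open Z.hh hW) ?_)
    · have h1 : ContinuousAt (fun z : Bx d q → ℂ => ‖z - bs Y‖) (bs Y) := by fun_prop
      refine h1.eventually_lt continuousAt_const ?_
      rw [sub_self, norm_zero]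
      exact hε'
    · have h1 : ContinuousAt (fun z : Bx d q → ℂ => yl (Y + sec (z - bs Y))) (bs Y) := by
        apply Continuous.continuousAt
        exact (yl_diff (d := d) (s := s) (q := q)).continuous.comp (by fun_prop)
      apply h1.eventually_mem
      rw [sub_self, map_zero, add_zero]
      exact hOo.mem_nhds hYO
  have hcont : ContinuousAt (fun ζ => Φ (π ζ)) 0 :=
    hΦU.continuousOn.continuousAt (hUo.mem_nhds h0U)
  have hev : ∀ᶠ ζ in 𝓝 (0 : Bx d q → ℂ), ‖Φ (π ζ) - bs Y‖ < ε' ∧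
      ((∀ a, Z.h a (Φ (π ζ)) = 0) → Φ (π ζ) ∈ Z.W) ∧ yl (Y + sec (Φ (π ζ) - bs Y)) ∈ Oo := by
    have h1 : Tendsto (fun ζ => Φ (π ζ)) (𝓝 0) (𝓝 (bs Y)) := by
      have := hcont.tendsto
      rwa [map_zero, hΦ0] at this
    exact h1.eventually hnear
  obtain ⟨V, hV, hVo, h0V⟩ := _root_.mem_nhds_iff.1 hev
  obtain ⟨ζ, hζ, hζf⟩ := baire_pt hUo hUc (ι := ι)
    (fun p ζ => Th p.1.2.1 p.1.2.2 p.1.1.1 p.1.1.2 (Φ (π ζ)))
    (fun p => (Th_diff _ _ hfamd _ _).comp_differentiableOn hΦU) hne hVo ⟨0, h0V, h0U⟩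
  obtain ⟨g1, g2, g3⟩ := hV hζ.1
  have hζh := hh0 ζ hζ.2
  refine ⟨Φ (π ζ), I, g1, g2 hζh, ?_, hcd, ?_, ?_, ?_⟩
  · rw [hOe] at g3
    have e1 : bs (Y + sec (Φ (π ζ) - bs Y)) = Φ (π ζ) := by
      rw [bs_add, hsec]
      abel
    have e2 : xp (yx (yl (Y + sec (Φ (π ζ) - bs Y)))) = bu (Φ (π ζ)) := by
      rw [← bu_bs, e1]
    rw [← e2]
    exact hExt.U _ g3.1
  · intro i hi
    rw [hOe] at g3
    obtain ⟨k1, -, k3⟩ := g3
    obtain ⟨m1, -, N, m3⟩ := k3 (Sum.inl i) (hPI.1 i hi).1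
    have e1 : bs (Y + sec (Φ (π ζ) - bs Y)) = Φ (π ζ) := by
      rw [bs_add, hsec]
      abel
    have e2 : xp (yx (yl (Y + sec (Φ (π ζ) - bs Y)))) = bu (Φ (π ζ)) := by
      rw [← bu_bs, e1]
    have e3 : yc (yl (Y + sec (Φ (π ζ) - bs Y))) i = bc (Φ (π ζ)) i := by
      rw [← bc_bs, e1]
    rw [← e2, ← e3, ← hExt.co _ k1]
    refine attd_of_inC S k1 (k := ks (Sum.inl i))
      (m := S.per (ks (Sum.inl i)) * N + ls (Sum.inl i)) ?_
    change S.InC _ _ ((S.F _)^[_] (yc (yl (Y + sec (Φ (π ζ) - bs Y))) i, 1))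
    rw [Function.iterate_add_apply]
    exact m3
  · intro i hi a b hab
    exact hζf ⟨((i, i), (a, b)), (hPI.1 i hi).2 a b hab⟩
  · intro i hi j hj hij a b
    exact hζf ⟨((i, j), (a, b)), hPI.2 i hi j hj hij a b⟩

end Pool.Agent.H207.GF
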