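import Mathlib
import Pool.Agent.H207.GF.Jt
import Pool.Graph.R_seed8.W402.RE.MINP1

/-! Project GF: the local part of the minimal principle in an analytic family (adapted from
`Pool.Agent.W402.RE.MINP.no_min`). -/

set_option autoImplicit false
set_option linter.unusedVariables false

open Topology Filter Metric Set MeasureTheory
open Pool.Agent.H790R3.RB (CV hF cr ND wr rt Ix yx yc yx_diff yc_diff exists_low
  lsc_comp StDISC StMAXI StCONT StLA)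
open Pool.Agent.W757.RD
open Pool.Agent.W402.RE.MINP (ys_diff DIprop exists_L)

namespace Pool.Agent.H207.GF

variable {d s q : ℕ}

/-- the critical equations hold at adapted points -/
theorem er_of_E {Z : Sta d q} {S : Sys d (2 * d + s) s} (hS : Ext S) {Y : Jx d s q → ℂ}
    (hU : yx (yl Y) ∈ S.U) (hO : bs Y ∈ Z.O) (hE : ∀ j, Z.E j (bs Y) = 0)
    (j : Fin (2 * d - 2)) : S.Er j (yl Y) = 0 := by
  unfold Sys.Er
  rw [hS.co _ hU]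
  have h := Z.crit (bs Y) hO.1 hO.2 hE (((j : ℕ) : ℂ))
  rw [bu_bs, bc_bs] at h
  rw [h, sub_self]

/-- the auxiliary unknowns cannot move alone -/
theorem const_disc (Z : Sta d q) {Γ : ℂ → Jx d s q → ℂ} {τ : ℝ} (hτ : 0 < τ)
    (hΓ : DifferentiableOn ℂ Γ (ball 0 τ)) (hW : ∀ t ∈ ball (0 : ℂ) τ, bs (Γ t) ∈ Z.W)
    (hc : ∀ t ∈ ball (0 : ℂ) τ, yl (Γ t) = yl (Γ 0)) : deriv Γ 0 = 0 := by
  have := Z.fκ
  have h0 : (0 : ℂ) ∈ ball (0 : ℂ) τ := mem_ball_self hτ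
  set b₀ := bs (Γ 0) with hb₀
  let ι : (Fin q → ℂ) → (Bx d q → ℂ) := fun t i =>
    match i with
    | Sum.inl i => b₀ (Sum.inl i)
    | Sum.inr (Sum.inl i) => b₀ (Sum.inr (Sum.inl i))
    | Sum.inr (Sum.inr i) => t i
  have hι : Differentiable ℂ ι := by
    rw [differentiable_pi]
    rintro (i | i | i)
    · exact differentiable_const _
    · exact differentiable_const _
    · exact differentiable_apply _
  have hιu : ∀ t, bu (ι t) = bu b₀ := fun t => rfl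
  have hιt : ∀ t, bt (ι t) = t := fun t => rfl
  have hb0O : b₀ ∈ Z.O := (hW 0 h0).1
  have hΓι : ∀ t ∈ ball (0 : ℂ) τ, bs (Γ t) = ι (yt (Γ t)) := by
    intro t ht
    funext i
    rcases i with i | i | i
    · change xp (yx (yl (Γ t))) i = xp (yx (yl (Γ 0))) i
      rw [hc t ht]
    · change yc (yl (Γ t)) i = yc (yl (Γ 0)) i
      rw [hc t ht]
    · rfl
  have hmaps : ∀ t ∈ Z.T, ι t ∈ Z.O := fun t ht => ⟨by rw [hιu]; exact hb0O.1, by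
    rw [hιt]; exact ht⟩
  have hEd : ∀ j, DifferentiableOn ℂ (fun t => Z.E j (ι t)) Z.T := fun j =>
    (Z.hE j).comp hι.differentiableOn hmaps
  have hθd : DifferentiableOn ℂ (fun t => yt (Γ t)) (ball 0 τ) :=
    yt_diff.comp_differentiableOn hΓ
  have hcomp : IsCompact {t | t ∈ Z.T ∧ ∀ j, Z.E j (ι t) = 0} := by
    have hsub : {t | t ∈ Z.T ∧ ∀ j, Z.E j (ι t) = 0} ⊆ Z.KT := by
      rintro t ⟨ht, hE⟩
      have := Z.prop (ι t) (hmaps t ht).1 (hmaps t ht).2 hE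
      rwa [hιt] at this
    have heq : {t | t ∈ Z.T ∧ ∀ j, Z.E j (ι t) = 0} = Z.KT ∩ ⋂ j, (Z.KT ∩
        (fun t => Z.E j (ι t)) ⁻¹' {0}) := by
      ext t
      simp only [mem_ofPred_eq, mem_inter_iff, mem_iInter, mem_preimage, mem_singleton_iff]
      exact ⟨fun h => ⟨hsub h, fun j => ⟨hsub h, h.2 j⟩⟩, fun h => ⟨Z.KTT h.1, fun j => (h.2 j).2⟩⟩
    rw [heq]
    refine Z.hKT.inter_right (isClosed_iInter fun j => ?_)
    exact ((hEd j).continuousOn.mono Z.KTT).preimage_isClosed_of_isClosed Z.hKT.isClosed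
      isClosed_singleton
  have hθ' := nodisc Z.hT hEd hcomp hτ hθd (fun t ht => by
    have h1 := hW t ht
    refine ⟨h1.1.2, fun j => ?_⟩
    have h2 := Wp_zero h1 j
    rw [hΓι t ht] at h2
    exact h2)
  have hd : HasDerivAt Γ (deriv Γ 0) 0 :=
    (hΓ.differentiableAt (isOpen_ball.mem_nhds h0)).hasDerivAt
  have hdi := hasDerivAt_pi.1 hd
  funext i
  rcases i with i | i
  · have e : (fun t => Γ t (Sum.inl i)) =ᶠ[𝓝 0] fun _ => Γ 0 (Sum.inl i) := by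
      filter_upwards [isOpen_ball.mem_nhds h0] with t ht
      exact congrFun (hc t ht) i
    exact ((hdi (Sum.inl i)).congr_of_eventuallyEq e.symm).unique (hasDerivAt_const 0 _)
  · have h1 : HasDerivAt (fun t => yt (Γ t)) 0 0 := by
      have := (hθd.differentiableAt (isOpen_ball.mem_nhds h0)).hasDerivAt
      rwa [hθ'] at this
    exact (hdi (Sum.inr i)).unique (hasDerivAt_pi.1 h1 i)

/-- the local part of the argument: there is no minimal point -/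
theorem no_min (hLAM : StLAM) (hADO : StADO) (hLF : StLF)
    (hOPN : StOPN) (hEXC : StEXC) (hBAD : StBAD)
    (hNC : StNC) (hCONT : StCONT)
    {β : ℝ} (Z : Sta d q) (S : Sys d (2 * d + s) s) (hExt : Ext S)
    (hNrm : ∀ x ∈ S.U, Nrm (S.co x))
    (hed : ∀ i, DifferentiableOn ℂ (ee S i) S.U)
    {KK : Fin s → (Fin (2 * d + s) → ℂ) × (ℂ × ℂ) → ℂ} (hK : S.Koe KK)
    {R : ℕ} {C : Set (Fin (2 * d + s) → ℂ)} {Ω : Set (Jx d s q → ℂ)} (hΩ : IsOpen Ω)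
    {x₀ : CV d} {c₀ ε₀ σ : ℝ} (hc₀ : 0 < c₀) (wT : CV d)
    (hdi : DIprop β d x₀ c₀ ε₀ σ)
    {A : Finset (Pt d)} {ks : Pt d → Fin s}
    {ls : Pt d → ℕ} (hA : Z.ρ + R < Fintype.card (Jx d s q))
    (hls : ∀ i ∈ A, ls i < S.per (ks i))
    (hA0 : Sum.inr 0 ∈ A) (hA1 : Sum.inr 1 ∈ A)
    (hmax : ∀ (A' : Finset (Pt d)) (ks' : Pt d → Fin s)
        (ls' : Pt d → ℕ), ∀ Y ∈ Ω, Sum.inr 0 ∈ A' → Sum.inr 1 ∈ A' →
        (A.card < A'.card → ¬ GoodG Z S KK A' ks' ls' 0 Y) ∧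
        (A'.card = A.card → ¬ GoodG Z S KK A' ks' ls' (R + 1) Y))
    {y₀ : Ix d (2 * d + s) s → ℂ} (hlam0 : ∀ k, S.lam k (yx y₀) ≠ 0)
    (sel : Fin R → Sys.Rw s d s A) (col : Fin Z.ρ ⊕ Fin R → Jx d s q)
    {N : Set (Fin (2 * d + s) → ℂ)} {r : ℝ} {ω : Fin s → (Fin (2 * d + s) → ℂ) × ℂ → ℂ}
    (hL : S.Lin KK N r ω) {Kc r₁ r₂ : ℝ}
    (hr₁ : 0 < r₁) (hr₁₂ : r₁ < r₂) (hr₂ : Kc * r₂ < r)
    {L : ℕ} {Fh : Pt d → ℂ}
    (hKL : ∀ i ∈ A, Kc * ‖S.lam (ks i) (yx y₀) ^ L * Fh i‖ < r)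
    {Nt : ℕ} (hNt : ∀ k, S.per k ∣ Nt)
    (hbase : ∀ j : Fin 2, ∃ L' a : ℕ, L ≤ L' ∧ a < S.per (ks (Sum.inr j)) ∧
      Nt = ls (Sum.inr j) + (S.per (ks (Sum.inr j)) * L' + a) ∧
      ‖S.lam (ks (Sum.inr j)) (yx y₀) ^ L' * Fh (Sum.inr j)‖ < r₂)
    {Jt : (Jx d s q → ℂ) → ℂ}
    (hJd : DifferentiableOn ℂ Jt {Y | bs Y ∈ Z.O ∧ yx (yl Y) ∈ S.U ∧
        (∀ k, S.lam k (yx (yl Y)) ≠ 0) ∧
        ∀ i ∈ A, (yx (yl Y), (S.F (yx (yl Y)))^[ls i] (pc (yl Y) i, 1)) ∈ S.Dom (ks i)})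
    (hJ0 : ∀ Y : Jx d s q → ℂ, bs Y ∈ Z.O → yx (yl Y) ∈ S.U → (∀ k, S.lam k (yx (yl Y)) ≠ 0) →
        (∀ i ∈ A, (yx (yl Y), (S.F (yx (yl Y)))^[ls i] (pc (yl Y) i, 1)) ∈ S.Dom (ks i)) →
        (∀ k, ys (yl Y) k ≠ 0) → (Jt Y = 0 ↔ (MxG Z S KK A ks ls sel col Y).det = 0))
    {δ₀ : ℝ} (hδ₀ : 0 < δ₀)
    (y : Jx d s q → ℂ) (hyL : yl y ∈ S.Leaf ω (ee S) A ks ls L C Kc y₀ Fh)
    (hyW : bs y ∈ Z.W)
    (hyN : yx (yl y) ∈ N) (hyΩ : y ∈ Ω)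
    (hyC : ∀ᶠ z in 𝓝 (yl y), (∀ i, ee S i (yx z) = ee S i (yx (yl y))) →
      (∀ k, S.lam k (yx z) = S.lam k (yx (yl y))) → yx z ∈ C)
    (hsep : ∃ ε : ℝ, 0 < ε ∧ ∀ x ∈ S.U, ‖x - yx (yl y)‖ < ε →
      (∀ i, ee S i x = ee S i (yx (yl y))) → S.co x = S.co (yx (yl y)) → x = yx (yl y))
    (hyk : ∀ k, ys (yl y) k ≠ 0)
    (hykK : ∀ k, ‖ys (yl y) k‖ < Kc) (hyF : ∀ k : Fin s, ∃ i ∈ A, ks i = k ∧ Fh i ≠ 0)
    (hyJ : Jt y ≠ 0) (hynear : ‖S.co (yx (yl y)) - x₀‖ < σ)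
    (hyAN : S.AN β ω Nt r₁ (yx (yl y)) (ys (yl y)) ≤ ε₀)
    (hymin : ∀ z : Jx d s q → ℂ, yl z ∈ S.Leaf ω (ee S) A ks ls L C Kc y₀ Fh → bs z ∈ Z.W →
      0 < ‖Jt z * ∏ k : Fin s, ys (yl z) k‖ →
      S.AN β ω Nt r₁ (yx (yl y)) (ys (yl y)) + c₀ / 2 * ∑ i : Fin 2 × Fin (d + 1),
          ‖S.co (yx (yl y)) i - wT i‖ ^ 2 -
        δ₀ * Real.log ‖Jt y * ∏ k : Fin s, ys (yl y) k‖ ≤
      S.AN β ω Nt r₁ (yx (yl z)) (ys (yl z)) + c₀ / 2 * ∑ i : Fin 2 × Fin (d + 1),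
          ‖S.co (yx (yl z)) i - wT i‖ ^ 2 -
        δ₀ * Real.log ‖Jt z * ∏ k : Fin s, ys (yl z) k‖) : False := by
  classical
  obtain ⟨hlamd, hlamθ, -⟩ := hLAM d (2 * d + s) s S
  obtain ⟨Oo, hOo, hOe, hErd, -, hGrd⟩ := hADO d (2 * d + s) s s S KK (ee S) A ks ls hK hed
  -- facts on the leaf
  have hleaf : ∀ z ∈ S.Leaf ω (ee S) A ks ls L C Kc y₀ Fh, yx z ∈ N → z ∈ Oo := by
    intro z hz hzN
    obtain ⟨h1, -, -⟩ := hLF d (2 * d + s) s s S KK r N ω (ee S) A ks ls L C Kc y₀ z Fh hK hL hlam0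
      hls hKL hzN hz
    rw [hOe]
    exact ⟨hL.NU hzN, fun k => hL.lam0 _ hzN k, h1⟩
  have hadm : ∀ z ∈ S.Leaf ω (ee S) A ks ls L C Kc y₀ Fh, yx z ∈ N → (∀ k, ys z k ≠ 0) →
      S.Adm A ks ls z ∧ ∀ i ∈ A,
        KK (ks i) (yx z, (S.F (yx z))^[ls i] (pc z i, 1)) / ys z (ks i) = Fh i := by
    intro z hz hzN hzk
    exact (hLF d (2 * d + s) s s S KK r N ω (ee S) A ks ls L C Kc y₀ z Fh hK hL hlam0 hls hKL hzN
      hz).2.2 hzk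
  have hyO : yl y ∈ Oo := hleaf (yl y) hyL hyN
  have hyA := (hadm (yl y) hyL hyN hyk).1
  have hdet : (MxG Z S KK A ks ls sel col y).det ≠ 0 := by
    intro h
    exact hyJ ((hJ0 y hyW.1 hyA.xU hyA.lam0 hyA.att hyk).mpr h)
  -- the open set for the disc lemma
  have hkopen : IsOpen {z : Ix d (2 * d + s) s → ℂ | ∀ k, ys z k ≠ 0} := by
    have : {z : Ix d (2 * d + s) s → ℂ | ∀ k, ys z k ≠ 0} = ⋂ k, {z | ys z k ≠ 0} := by
      ext; simp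
    rw [this]
    exact isOpen_iInter_of_finite fun k =>
      isOpen_ne_fun (ys_diff k).continuous continuous_const
  obtain ⟨O₁, hO₁, hO₁o, hyO₁⟩ := _root_.mem_nhds_iff.1 (Wp_open Z.O_open Z.hh hyW)
  set O : Set (Jx d s q → ℂ) := ((yl ⁻¹' (Oo ∩ {z | ∀ k, ys z k ≠ 0})) ∩ Ω) ∩
    (bs ⁻¹' (O₁ ∩ Z.O)) with hO
  have hOopen : IsOpen O :=
    (((hOo.inter hkopen).preimage yl_diff.continuous).inter hΩ).inter
      ((hO₁o.inter Z.O_open).preimage bs_diff.continuous)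
  have hyOO : y ∈ O := ⟨⟨⟨hyO, hyk⟩, hyΩ⟩, hyO₁, hyW.1⟩
  have hWO : ∀ z ∈ O, (∀ a, Z.h a (bs z) = 0) → bs z ∈ Z.W := fun z hz h => hO₁ hz.2.1 h
  have hErO : ∀ z ∈ O, (∀ a, Z.h a (bs z) = 0) → ∀ j, S.Er j (yl z) = 0 := by
    intro z hz h
    have h1 := hWO z hz h
    have h2 := hz.1.1.1
    rw [hOe] at h2
    exact er_of_E hExt h2.1 h1.1 (fun j => Wp_zero h1 j)
  obtain ⟨τ, Γ, hτ, hΓd, hΓ0, hΓ', hΓE⟩ := discr
    (fun a (Y : Jx d s q → ℂ) => Z.h a (bs Y))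
    (fun a (Y : Jx d s q → ℂ) => S.Gr KK (ee S) A ks ls a (yl Y)) O y R sel col hOopen hyOO
    (fun a => ((Z.hh a).comp bs_diff.differentiableOn fun z hz => hz.2.2))
    (fun a => ((hGrd a).comp yl_diff.differentiableOn fun z hz => hz.1.1))
    (by rw [Fintype.card_fin]; exact hA) hyW.2.1 (by
      refine mt (fun h => ?_) hdet
      rw [← h]
      congr 1
      ext a c
      rcases a with a | a <;> rfl) (by
      intro z hz hEz sel' col'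
      by_contra hne0
      have hne : (MxG Z S KK A ks ls sel' col' z).det ≠ 0 := by
        refine mt (fun h => ?_) hne0
        rw [← h]
        congr 1
        ext a c
        rcases a with a | a <;> rfl
      have hz' := hz.1.1.1
      rw [hOe] at hz'
      exact (hmax A ks ls z hz.1.2 hA0 hA1).2 rfl ⟨⟨hz'.1, hz'.2.1, hz.1.1.2,
        hErO z hz hEz, hls, hz'.2.2⟩, hWO z hz hEz, sel', col', hne⟩)
  set γ : ℂ → Ix d (2 * d + s) s → ℂ := fun t => yl (Γ t) with hγdef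
  have hγd : DifferentiableOn ℂ γ (ball 0 τ) := yl_diff.comp_differentiableOn hΓd
  have hγ0 : γ 0 = yl y := by rw [hγdef]; simp only [hΓ0]
  have hγ : ∀ t ∈ ball (0 : ℂ) τ, Γ t ∈ O ∧ (∀ j, S.Er j (γ t) = 0) ∧
      (∀ a, S.Gr KK (ee S) A ks ls a (γ t) = S.Gr KK (ee S) A ks ls a (yl y)) ∧
      bs (Γ t) ∈ Z.W := by
    intro t ht
    obtain ⟨h1, h2, h3⟩ := hΓE t ht
    exact ⟨h1, hErO _ h1 h2, h3, hWO _ h1 h2⟩
  -- the disc stays in the leaf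
  have h0 : (0 : ℂ) ∈ ball (0 : ℂ) τ := mem_ball_self hτ
  have hγc : ContinuousOn γ (ball (0 : ℂ) τ) := hγd.continuousOn
  have hγc0 : ContinuousAt γ 0 := hγc.continuousAt (isOpen_ball.mem_nhds h0)
  have hΓc0 : ContinuousAt Γ 0 := hΓd.continuousOn.continuousAt (isOpen_ball.mem_nhds h0)
  have hγC : ∀ᶠ t in 𝓝 (0 : ℂ), yx (γ t) ∈ C := by
    have h1 : Tendsto γ (𝓝 0) (𝓝 (yl y)) := by
      have := hγc0.tendsto
      rwa [hγ0] at this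
    have h2 := h1.eventually hyC
    filter_upwards [h2, isOpen_ball.mem_nhds h0] with t ht htb
    refine ht (fun i => ?_) (fun k => ?_)
    · exact (hγ t htb).2.2.1 (Sum.inl i)
    · exact (hγ t htb).2.2.1 (Sum.inr (Sum.inl k))
  obtain ⟨τ₁, hτ₁, hτ₁τ, hγ1⟩ := hOPN d (2 * d + s) s s S KK r N ω (ee S) A ks ls L C Kc τ y₀ Fh γ
    hK hL hlam0 hls
    hKL hτ hγd (by rw [hγ0]; exact hyN) (by rw [hγ0]; exact hyL) (by rw [hγ0]; exact hyk)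
    hγC (by rw [hγ0]; exact hykK)
    (fun t ht => ⟨(hγ t ht).2.1, fun a => by rw [(hγ t ht).2.2.1 a, hγ0]⟩)
  -- a smaller disc
  obtain ⟨εs, hεs, hsep⟩ := hsep
  have hJc : ContinuousAt (fun t => Jt (Γ t)) 0 := by
    have hopen : IsOpen {Y : Jx d s q → ℂ | bs Y ∈ Z.O ∧ yx (yl Y) ∈ S.U ∧
        (∀ k, S.lam k (yx (yl Y)) ≠ 0) ∧
        ∀ i ∈ A, (yx (yl Y), (S.F (yx (yl Y)))^[ls i] (pc (yl Y) i, 1)) ∈ S.Dom (ks i)} := by
      have : {Y : Jx d s q → ℂ | bs Y ∈ Z.O ∧ yx (yl Y) ∈ S.U ∧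
        (∀ k, S.lam k (yx (yl Y)) ≠ 0) ∧
        ∀ i ∈ A, (yx (yl Y), (S.F (yx (yl Y)))^[ls i] (pc (yl Y) i, 1)) ∈ S.Dom (ks i)} =
          bs ⁻¹' Z.O ∩ yl ⁻¹' Oo := by
        ext Y
        simp only [mem_ofPred_eq, mem_inter_iff, mem_preimage]
        rw [hOe]
        rfl
      rw [this]
      exact (Z.O_open.preimage bs_diff.continuous).inter (hOo.preimage yl_diff.continuous)
    have h1 : ContinuousAt Jt (Γ 0) := by
      rw [hΓ0]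
      apply hJd.continuousOn.continuousAt
      exact hopen.mem_nhds ⟨hyW.1, hyA.xU, hyA.lam0, hyA.att⟩
    exact h1.comp hΓc0
  have hyxc : Continuous (yx : (Ix d (2 * d + s) s → ℂ) → (Fin (2 * d + s) → ℂ)) :=
    yx_diff.continuous
  have hev : ∀ᶠ t in 𝓝 (0 : ℂ), Jt (Γ t) ≠ 0 ∧ ‖yx (γ t) - yx (yl y)‖ < εs ∧ Γ t ∈ Ω := by
    have h1 : ∀ᶠ t in 𝓝 (0 : ℂ), Jt (Γ t) ≠ 0 := hJc.eventually_ne (by rw [hΓ0]; exact hyJ)
    have h2 : ContinuousAt (fun t => yx (γ t)) 0 := hyxc.continuousAt.comp hγc0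
    have h3 : ∀ᶠ t in 𝓝 (0 : ℂ), ‖yx (γ t) - yx (yl y)‖ < εs := by
      have h4 : ContinuousAt (fun t => ‖yx (γ t) - yx (yl y)‖) 0 := (h2.sub continuousAt_const).norm
      apply h4.eventually_lt continuousAt_const
      rw [hγ0, sub_self, norm_zero]; exact hεs
    have h5 : ∀ᶠ t in 𝓝 (0 : ℂ), Γ t ∈ Ω := by
      apply hΓc0.eventually_mem
      rw [hΓ0]; exact hΩ.mem_nhds hyΩ
    filter_upwards [h1, h3, h5] with t a b c
    exact ⟨a, b, c⟩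
  obtain ⟨τ₂', hτ₂', hball⟩ := Metric.eventually_nhds_iff_ball.mp hev
  set τ₂ : ℝ := min τ₁ τ₂' with hτ₂
  have hτ₂0 : 0 < τ₂ := lt_min hτ₁ hτ₂'
  have hb1 : ball (0 : ℂ) τ₂ ⊆ ball 0 τ₁ := ball_subset_ball (min_le_left _ _)
  have hb2 : ball (0 : ℂ) τ₂ ⊆ ball 0 τ₂' := ball_subset_ball (min_le_right _ _)
  have hb : ball (0 : ℂ) τ₂ ⊆ ball 0 τ := hb1.trans (ball_subset_ball hτ₁τ)
  have hLt : ∀ t ∈ ball (0 : ℂ) τ₂, yx (γ t) ∈ N ∧ (∀ k, ys (γ t) k ≠ 0) ∧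
      γ t ∈ S.Leaf ω (ee S) A ks ls L C Kc y₀ Fh := fun t ht => hγ1 t (hb1 ht)
  have hAt : ∀ t ∈ ball (0 : ℂ) τ₂, S.Adm A ks ls (γ t) ∧ ∀ i ∈ A,
      KK (ks i) (yx (γ t), (S.F (yx (γ t)))^[ls i] (pc (γ t) i, 1)) / ys (γ t) (ks i) = Fh i :=
    fun t ht => hadm _ (hLt t ht).2.2 (hLt t ht).1 (hLt t ht).2.1
  have hJt : ∀ t ∈ ball (0 : ℂ) τ₂, Jt (Γ t) ≠ 0 := fun t ht => (hball t (hb2 ht)).1
  have hWt : ∀ t ∈ ball (0 : ℂ) τ₂, bs (Γ t) ∈ Z.W := fun t ht => (hγ t (hb ht)).2.2.2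
  -- the other critical points are not attracted
  have hnon : ∀ t ∈ ball (0 : ℂ) τ₂, ∀ i : Fin (2 * d - 2), Sum.inl i ∉ A → ∀ k, ∀ m : ℕ,
      ¬ S.InC k (yx (γ t)) ((S.F (yx (γ t)))^[m] (yc (γ t) i, 1)) := by
    intro t ht
    apply nomore Z S KK A ks ls (Γ t) (hAt t ht).1 (hWt t ht)
    intro A' ks' ls' hAA' hcA'
    exact (hmax A' ks' ls' (Γ t) (hball t (hb2 ht)).2.2 (hAA' hA0) (hAA' hA1)).1 hcA'
  -- exceptional values
  have hlamt : ∀ t ∈ ball (0 : ℂ) τ₂, ∀ k, S.lam k (yx (γ t)) = S.lam k (yx y₀) := fun t ht k =>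
    (hLt t ht).2.2.2.2.1 k
  set Sx : Fin s → ℕ → Set ℂ := fun k l' =>
    ((((A ×ˢ Finset.range (Nt + 1)).image (fun p : Pt d × ℕ =>
      S.lam k (yx y₀) ^ p.2 * Fh p.1 / S.lam k (yx y₀) ^ ((l' + ls p.1) / S.per k)) :
        Finset ℂ)) : Set ℂ) with hSx
  set x : ℂ → (Fin (2 * d + s) → ℂ) := fun t => yx (γ t) with hx
  set κ : Fin s → ℂ → ℂ := fun k t => ys (γ t) k with hκ
  have hxd : DifferentiableOn ℂ x (ball 0 τ₂) := yx_diff.comp_differentiableOn (hγd.mono hb)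
  have hκd : ∀ k, DifferentiableOn ℂ (κ k) (ball 0 τ₂) := fun k =>
    (ys_diff k).comp_differentiableOn (hγd.mono hb)
  have h02 : (0 : ℂ) ∈ ball (0 : ℂ) τ₂ := mem_ball_self hτ₂0
  have hr₂0 : 0 < r₂ := hr₁.trans hr₁₂
  have hKκ : ∀ t ∈ ball (0 : ℂ) τ₂, ∀ k, ‖κ k t‖ ≤ Kc := fun t ht k =>
    (hLt t ht).2.2.2.2.2.2.1 k
  have hκr : ∀ k, ∀ t ∈ ball (0 : ℂ) τ₂, ‖κ k t‖ * r₂ < r := fun k t ht =>
    (mul_le_mul_of_nonneg_right (hKκ t ht k) hr₂0.le).trans_lt hr₂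
  have hdisc : S.Disc N r r₂ τ₂ x κ := by
    refine ⟨hτ₂0, hxd, fun t ht => (hLt t ht).1, hκd, fun k t ht => (hLt t ht).2.1 k,
      hκr, fun k t ht => ?_⟩
    rw [hlamt t ht k, hlamt 0 h02 k]
  have hexc : ∀ t ∈ ball (0 : ℂ) τ₂, ∀ c : ℂ × ℂ, c ≠ 0 → wr (S.co (x t)) c = 0 → ∀ m ≤ Nt, ∀ k,
        ∀ l < S.per k, ∀ w : ℂ, w ≠ 0 → ‖w‖ < r₂ →
        cr ((S.F (x t))^[m] c) (S.pt ω k l (x t) (κ k t * w)) = 0 → w ∈ Sx k l := by
    intro t ht c hc hwc m' hm' k l' _ w _ hw hcr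
    have hn : ‖ys (γ t) k * w‖ < r := by
      rw [norm_mul]
      exact (mul_le_mul_of_nonneg_left hw.le (norm_nonneg _)).trans_lt (hκr k t ht)
    obtain ⟨i, hi, -, hrel⟩ := hEXC d (2 * d + s) s s S KK r N ω (ee S) A ks ls L C Kc y₀ (γ t) Fh
      hK hL hKL
      (hLt t ht).1 (hLt t ht).2.2 (hLt t ht).2.1 (hnon t ht) c hc hwc m' k l' w hn hcr
    rw [hlamt t ht k] at hrel
    simp only [hSx, Finset.coe_image, mem_image, Finset.mem_coe]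
    refine ⟨(Sum.inl i, m' / S.per k), Finset.mem_product.mpr ⟨hi, Finset.mem_range.mpr ?_⟩, ?_⟩
    · have := Nat.div_le_self m' (S.per k)
      omega
    · simp only
      rw [hrel, mul_div_assoc, mul_comm, div_mul_cancel₀]
      exact pow_ne_zero _ (hlam0 k)
  have hDD : DD S KK r N ω Nt r₂ τ₂ x κ Sx :=
    ⟨hK, hL, hr₂0, hNt, hdisc, fun k l => Finset.finite_toSet _, hexc⟩
  have hx0 : x 0 = yx (yl y) := by simp only [hx, hγ0]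
  have hκ0 : (fun k => κ k 0) = ys (yl y) := by
    funext k
    simp only [hκ, hγ0]
  -- the base points
  have hbaseA : ∀ j : Fin 2, Sum.inr j ∈ A := by
    intro j
    fin_cases j
    · exact hA0
    · exact hA1
  have hbz : ∀ j : Fin 2, ∃ k, ∃ l < S.per k, ∃ w : ℂ, ‖w‖ < r₂ ∧ ∀ t ∈ ball (0 : ℂ) τ₂,
        Ad S ω Nt x κ t k l w (bz j) := by
    intro j
    obtain ⟨L', a, hLL', ha, hNa, hw⟩ := hbase j
    refine ⟨ks (Sum.inr j), a, ha, S.lam (ks (Sum.inr j)) (yx y₀) ^ L' * Fh (Sum.inr j), hw, ?_⟩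
    intro t ht
    have h1 := hBAD d (2 * d + s) s s S KK r N ω (ee S) A ks ls L C Kc y₀ (γ t) Fh hK hL hKL
      (hLt t ht).1 (hLt t ht).2.2 (Sum.inr j) (hbaseA j) L' a hLL'
    unfold Ad
    rw [hNa]
    exact h1
  -- nonconstancy
  have hnc : ∀ τ' : ℝ, 0 < τ' → τ' ≤ τ₂ → ∃ t ∈ ball (0 : ℂ) τ', S.co (x t) ≠ S.co (x 0) := by
    intro τ' hτ' hττ'
    by_contra hcon
    push Not at hcon
    have hbb : ball (0 : ℂ) τ' ⊆ ball 0 τ₂ := ball_subset_ball hττ'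
    have hxc : ∀ t ∈ ball (0 : ℂ) τ', x t = x 0 := by
      intro t ht
      rw [hx0]
      apply hsep (x t) (hL.NU (hLt t (hbb ht)).1) (hball t (hb2 (hbb ht))).2.1
      · intro i
        have a1 := (hLt t (hbb ht)).2.2.2.1 i
        have a2 := hyL.2.1 i
        rw [a2]; exact a1
      · rw [← hx0]; exact hcon t ht
    have hder0 : ∀ t₀ ∈ ball (0 : ℂ) τ', deriv γ t₀ = 0 := by
      intro t₀ ht₀
      by_contra hne
      set τ₃ : ℝ := τ' - ‖t₀‖ with hτ₃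
      have hτ₃0 : 0 < τ₃ := by
        rw [mem_ball_zero_iff] at ht₀
        linarith
      have hshift : ∀ t ∈ ball (0 : ℂ) τ₃, t₀ + t ∈ ball (0 : ℂ) τ' := by
        intro t ht
        rw [mem_ball_zero_iff] at ht ⊢
        have := norm_add_le t₀ t
        linarith
      have hγs : DifferentiableOn ℂ (fun t => γ (t₀ + t)) (ball 0 τ₃) := by
        refine (hγd.mono (hbb.trans hb)).comp ?_ hshift
        fun_prop
      have hds : deriv (fun t => γ (t₀ + t)) 0 ≠ 0 := by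
        rw [deriv_comp_const_add, add_zero]
        exact hne
      obtain ⟨t₁, ht₁, hxt₁⟩ := hNC d (2 * d + s) s S KK A ks ls τ₃ (fun t => γ (t₀ + t)) Fh hτ₃0
        hγs hds (fun t ht => hAt _ (hbb (hshift t ht))) hyF
      apply hxt₁
      have e1 := hxc _ (hshift t₁ ht₁)
      have e2 := hxc _ (hshift 0 (mem_ball_self hτ₃0))
      exact e1.trans e2.symm
    have hγconst : ∀ t ∈ ball (0 : ℂ) τ', γ t = γ 0 := by
      intro t ht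
      exact isOpen_ball.is_const_of_deriv_eq_zero (convex_ball (0 : ℂ) τ').isPreconnected
        (hγd.mono (hbb.trans hb)) (fun s hs => hder0 s hs) ht (mem_ball_self hτ')
    exact hΓ' (const_disc Z hτ' (hΓd.mono (hbb.trans hb)) (fun t ht => hWt t (hbb ht)) hγconst)
  obtain ⟨ρ₁, hρ₁, hρ₁τ, hint⟩ := hdi (2 * d + s) s S hNrm KK r N ω Nt r₁ r₂ τ₂ x κ Sx hDD hr₁ hr₁₂
    hbz (by rw [hx0]; exact hynear) (by rw [hx0, hκ0]; exact hyAN) (hnc τ₂ hτ₂0 le_rfl)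
  obtain ⟨t₁, ht₁, hxt₁⟩ := hnc ρ₁ hρ₁ hρ₁τ
  have ht₁0 : t₁ ≠ 0 := by
    rintro rfl; exact hxt₁ rfl
  have hρc : 0 < ‖t₁‖ := norm_pos_iff.mpr ht₁0
  have hρcρ : ‖t₁‖ < ρ₁ := mem_ball_zero_iff.mp ht₁
  have hρcτ : ‖t₁‖ < τ₂ := hρcρ.trans_le hρ₁τ
  have hcirc : ∀ θ : ℝ, circleMap 0 ‖t₁‖ θ ∈ ball (0 : ℂ) τ₂ := by
    intro θ
    rw [mem_ball_zero_iff, norm_circleMap_zero, abs_of_pos hρc]
    exact hρcτ
  have hθ₁ : circleMap 0 ‖t₁‖ (Complex.arg t₁) = t₁ := by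
    rw [circleMap_zero]
    exact Complex.norm_mul_exp_arg_mul_I t₁
  -- the functions on the disc
  have hfd : ∀ i : Fin 2 × Fin (d + 1), DifferentiableOn ℂ (fun t => S.co (x t) i) (ball 0 τ₂) := by
    intro i
    have h1 : DifferentiableOn ℂ (fun t => S.co (x t)) (ball 0 τ₂) :=
      S.hco.comp hxd (fun t ht => hL.NU (hLt t ht).1)
    exact (differentiableOn_pi.mp h1) i
  have hgd : DifferentiableOn ℂ (fun t => Jt (Γ t) * ∏ k : Fin s, ys (γ t) k)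
      (ball 0 τ₂) := by
    apply DifferentiableOn.mul
    · apply hJd.comp (hΓd.mono hb)
      intro t ht
      have := hleaf _ (hLt t ht).2.2 (hLt t ht).1
      rw [hOe] at this
      exact ⟨(hWt t ht).1, this.1, this.2.1, this.2.2⟩
    · apply DifferentiableOn.fun_finsetProd
      intro k _
      exact (ys_diff k).comp_differentiableOn (hγd.mono hb)
  have hg0 : ∀ t ∈ ball (0 : ℂ) τ₂, Jt (Γ t) * ∏ k : Fin s, ys (γ t) k ≠ 0 := by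
    intro t ht
    exact mul_ne_zero (hJt t ht) (Finset.prod_ne_zero_iff.mpr fun k _ => (hLt t ht).2.1 _)
  refine hCONT (Fin 2 × Fin (d + 1)) τ₂ ‖t₁‖ c₀ δ₀ (S.AN β ω Nt r₁ (yx (yl y)) (ys (yl y)))
    (fun i t => S.co (x t) i)
    (fun i => wT i)
    (fun t => Jt (Γ t) * ∏ k : Fin s, ys (γ t) k)
    (fun θ => S.AN β ω Nt r₁ (x (circleMap 0 ‖t₁‖ θ)) (fun k => κ k (circleMap 0 ‖t₁‖ θ)))
    hρc hρcτ hc₀ hδ₀ hfd hgd hg0 ?_ (fun θ => ENNReal.toReal_nonneg) ?_ ?_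
  · by_contra hcon
    push Not at hcon
    apply hxt₁
    funext i
    have := hcon (Complex.arg t₁) i
    rwa [hθ₁] at this
  · intro θ
    have h1 := hymin (Γ (circleMap 0 ‖t₁‖ θ)) (hLt _ (hcirc θ)).2.2 (hWt _ (hcirc θ))
      (norm_pos_iff.mpr (hg0 _ (hcirc θ)))
    simp only [hx0, hγ0, hΓ0]
    exact h1
  · intro q hq hqA
    have h1 := hint ‖t₁‖ hρc hρcρ q hq hqA
    rw [hκ0, hx0] at h1
    simp only [hx0]
    exact h1

end Pool.Agent.H207.GF
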