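import Mathlib
import Pool.Agent.H207.GF.Minp
import Pool.Agent.H207.GF.Trf
import Pool.Graph.R_seed8.W757.RD.TSEL

/-! Project GF: configurations of maximal rank (adapted from `Pool.Agent.W757.RD.SEL`). -/

set_option autoImplicit false
set_option linter.style.haveILetI false

open Topology Filter Metric Set MeasureTheory
open Pool.Agent.H790R3.RB (CV hF cr ND wr rt Ix yx yc sp HypTop Attd Sink)
open Pool.Agent.W757.RD
open Pool.Agent.W757.RD.SEL (mk_of)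
open scoped OnePoint

namespace Pool.Agent.H207.GF

/-- replace the adapted family of functions -/
def Sta.up {d q : ℕ} (Z : Sta d q) (ρ : ℕ) (h : Fin ρ → (Bx d q → ℂ) → ℂ)
    (hh : ∀ a, DifferentiableOn ℂ (h a) {z | bu z ∈ Z.B ∧ bt z ∈ Z.T}) : Sta d q :=
  { Z with ρ := ρ, h := h, hh := hh }

/-- near the point there are solutions without periodic critical points -/
def Npc {d q : ℕ} (Z : Sta d q) (z₁ : Bx d q → ℂ) : Prop :=
  ∃ᶠ z in 𝓝 z₁, z ∈ Z.O ∧ (∀ j, Z.E j z = 0) ∧ ∀ n : ℕ, 1 ≤ n → ∀ i,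
    cr ((hF (fam (bu z)))^[n] (bc z i, 1)) (bc z i, 1) ≠ 0

/-- Good configurations near a map for which infinity is not attracting and the base points are
attracted. -/
def PSTARTG : Prop :=
  ∀ (β : ℝ) (d : ℕ) (u₁ : Fin (2 * d) → ℂ),
    1 / 2 < β → β < 1 → 2 ≤ d → u₁ ∈ U₀ d →
    (∀ p : ℕ, ¬ Sink (sp (fam u₁)) p ∞) →
    (∀ j : Fin 2, Attd (sp (fam u₁)) ((bz j : ℂ) : OnePoint ℂ)) →
    ∀ (q : ℕ) (Z : Sta d q) (z₁ : Bx d q → ℂ), bu z₁ = u₁ → z₁ ∈ Z.O → (∀ j, Z.E j z₁ = 0) →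
    Npc Z z₁ →
    ∀ ε : ℝ, 0 < ε → ∃ (ρ : ℕ) (h : Fin ρ → (Bx d q → ℂ) → ℂ)
      (hh : ∀ a, DifferentiableOn ℂ (h a) {z | bu z ∈ Z.B ∧ bt z ∈ Z.T}),
      (ρ ≤ @Fintype.card Z.κ Z.fκ) ∧
      ∃ (s : ℕ) (S : Sys d (2 * d + s) s)
      (KK : Fin s → (Fin (2 * d + s) → ℂ) × (ℂ × ℂ) → ℂ) (ks : Pt d → Fin s) (ls : Pt d → ℕ)
      (Y : Jx d s q → ℂ),
      Ext S ∧ S.Koe KK ∧ ‖xp (yx (yl Y)) - u₁‖ < ε ∧
      mu β (S.KS (yx (yl Y))) ≤ mu β {ζ : ℂ | ¬ Attd (sp (fam u₁)) (ζ : OnePoint ℂ)} +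
        ENNReal.ofReal ε ∧
      GoodG (Z.up ρ h hh) S KK {Sum.inr 0, Sum.inr 1} ks ls 0 Y

/-- Configurations of maximal rank. -/
def PSELG : Prop :=
  ∀ (β : ℝ) (d : ℕ) (u₀ : Fin (2 * d) → ℂ), 1 / 2 < β → β < 1 → 2 ≤ d → u₀ ∈ U₀ d →
    Gz (fam u₀) → ∃ C₂ ε₂ c₂ σ₂ : ℝ, 0 < C₂ ∧ 0 < ε₂ ∧ 0 < c₂ ∧ 0 < σ₂ ∧
    ∀ u₁ : Fin (2 * d) → ℂ, ‖u₁ - u₀‖ < σ₂ → (∀ p : ℕ, ¬ Sink (sp (fam u₁)) p ∞) →
      (∀ j : Fin 2, Attd (sp (fam u₁)) ((bz j : ℂ) : OnePoint ℂ)) →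
      ∀ (q : ℕ) (Z : Sta d q) (z₁ : Bx d q → ℂ), bu z₁ = u₁ → z₁ ∈ Z.O → (∀ j, Z.E j z₁ = 0) →
      Npc Z z₁ → ∀ r : ℝ, 0 < r → r ≤ σ₂ → closedBall u₁ r ⊆ Z.B →
      ∀ a : ℝ, 0 ≤ a → a < ε₂ → a < c₂ * r ^ 2 →
      mu β {ζ : ℂ | ¬ Attd (sp (fam u₁)) (ζ : OnePoint ℂ)} ≤ ENNReal.ofReal a →
      ∀ η : ℝ, 0 < η → ∃ (ρ : ℕ) (h : Fin ρ → (Bx d q → ℂ) → ℂ)
      (hh : ∀ a, DifferentiableOn ℂ (h a) {z | bu z ∈ Z.B ∧ bt z ∈ Z.T}),
      (ρ ≤ @Fintype.card Z.κ Z.fκ) ∧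
      ∃ (s : ℕ) (S : Sys d (2 * d + s) s)
      (KK : Fin s → (Fin (2 * d + s) → ℂ) × (ℂ × ℂ) → ℂ) (A : Finset (Pt d)) (ks : Pt d → Fin s)
      (ls : Pt d → ℕ) (R : ℕ) (Y : Jx d s q → ℂ),
      Ext S ∧ S.Koe KK ∧ ‖xp (yx (yl Y)) - u₁‖ ≤ C₂ * Real.sqrt a + η ∧
      GoodG (Z.up ρ h hh) S KK A ks ls R Y ∧ Fintype.card (Jx d s q) ≤ ρ + R

theorem sel_inj {d s q : ℕ} {Z : Sta d q} {S : Sys d (2 * d + s) s}
    {KK : Fin s → (Fin (2 * d + s) → ℂ) × (ℂ × ℂ) → ℂ} {A : Finset (Pt d)}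
    {ks : Pt d → Fin s} {ls : Pt d → ℕ} {R : ℕ}
    {Y : Jx d s q → ℂ} (sel : Fin R → Sys.Rw s d s A)
    (col : Fin Z.ρ ⊕ Fin R → Jx d s q)
    (h : (MxG Z S KK A ks ls sel col Y).det ≠ 0) :
    Function.Injective sel := by
  intro i i' hii
  by_contra hne
  apply h
  have hne' : (Sum.inr i : Fin Z.ρ ⊕ Fin R) ≠ Sum.inr i' :=
    fun h => hne (Sum.inr_injective h)
  refine Matrix.det_zero_of_row_eq hne' ?_
  funext c
  simp only [MxG, Matrix.of_apply]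
  rw [hii]

theorem R_le {d s q : ℕ} {Z : Sta d q} {S : Sys d (2 * d + s) s}
    {KK : Fin s → (Fin (2 * d + s) → ℂ) × (ℂ × ℂ) → ℂ} {A : Finset (Pt d)}
    {ks : Pt d → Fin s} {ls : Pt d → ℕ} {R : ℕ}
    {Y : Jx d s q → ℂ} (h : GoodG Z S KK A ks ls R Y) :
    R ≤ s + (s + A.card) := by
  obtain ⟨-, -, sel, col, h⟩ := h
  have h1 := Fintype.card_le_of_injective sel (sel_inj sel col h)
  simp only [Fintype.card_fin, Fintype.card_sum, Fintype.card_coe] at h1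
  omega

theorem s_le (hNUM : StNUM) (hER : StER) {d s q : ℕ} {Z : Sta d q} {S : Sys d (2 * d + s) s}
    {KK : Fin s → (Fin (2 * d + s) → ℂ) × (ℂ × ℂ) → ℂ} {A : Finset (Pt d)}
    {ks : Pt d → Fin s} {ls : Pt d → ℕ} {R : ℕ}
    {Y : Jx d s q → ℂ} (h : GoodG Z S KK A ks ls R Y) : s ≤ 2 * d - 2 :=
  hNUM d _ s S (yx (yl Y)) h.1.xU h.1.lam0 ⟨yc (yl Y), hER d _ s S (yl Y) h.1.crit⟩

theorem A_le {d : ℕ} (hd : 2 ≤ d) (A : Finset (Pt d)) : A.card ≤ 2 * d := by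
  refine (Finset.card_le_univ A).trans ?_
  simp only [Fintype.card_sum, Fintype.card_fin]
  omega

/-- configurations with potential at least `j` -/
def Cf (d : ℕ) (β : ℝ) (u₁ : Fin (2 * d) → ℂ) (q : ℕ) (Z : Sta d q) (j : ℕ) (x b : ℝ) : Prop :=
  ∃ (s : ℕ) (S : Sys d (2 * d + s) s) (KK : Fin s → (Fin (2 * d + s) → ℂ) × (ℂ × ℂ) → ℂ)
    (A : Finset (Pt d)) (ks : Pt d → Fin s)
    (ls : Pt d → ℕ) (R : ℕ) (Y : Jx d s q → ℂ), Ext S ∧ S.Koe KK ∧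
    ‖xp (yx (yl Y)) - u₁‖ ≤ x ∧ mu β (S.KS (yx (yl Y))) ≤ ENNReal.ofReal b ∧
    Sum.inr 0 ∈ A ∧ Sum.inr 1 ∈ A ∧
    GoodG Z S KK A ks ls R Y ∧ (Fintype.card (Jx d s q) ≤ Z.ρ + R ∨
      j ≤ A.card * (6 * d) + R)

theorem pselg (hSTART : PSTARTG) (hMARK : StMARK) (hTRF : StTRF) (hADO : StADO) (hMINP : PMING)
    (hNUM : StNUM) (hER : StER) (hLAM : StLAM) (hKOE : StKOE) : PSELG := by
  classical
  intro β d u₀ hβ hβ1 hd hu₀ hGz
  obtain ⟨C₁, ε₁, c₁, σ₁, hC₁, hε₁, hc₁, hσ₁, hBU, hmin⟩ := hMINP β d u₀ hβ hβ1 hd hu₀ hGz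
  -- one step
  have hstep : ∀ (u₁ : Fin (2 * d) → ℂ) (q : ℕ) (Z : Sta d q) (r : ℝ) (j : ℕ) (x b : ℝ), 0 < r →
      r ≤ σ₁ → closedBall u₁ r ⊆ Z.B → 0 ≤ b → b < ε₁ → b < c₁ * (r / 2) ^ 2 →
      x + ‖u₁ - u₀‖ < σ₁ / 2 → x ≤ r / 2 → Cf d β u₁ q Z j x b → ∀ η : ℝ, 0 < η →
      Cf d β u₁ q Z (j + 1) (x + (C₁ * Real.sqrt b + η)) (b + η) := by
    rintro u₁ q Z r j x b hr hrσ hrB hb hbε hbr hx hxr
      ⟨s, S, KK, A, ks, ls, R, Y, h1, h2, h3, h4, hA0, hA1, h5, h6⟩ η hη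
    have hsq : 0 ≤ C₁ * Real.sqrt b := mul_nonneg hC₁.le (Real.sqrt_nonneg _)
    by_cases hcard : Fintype.card (Jx d s q) ≤ Z.ρ + R
    · refine ⟨s, S, KK, A, ks, ls, R, Y, h1, h2, by linarith, ?_, hA0, hA1, h5, Or.inl hcard⟩
      exact h4.trans (ENNReal.ofReal_le_ofReal (by linarith))
    have hlt : Z.ρ + R < Fintype.card (Jx d s q) := not_le.1 hcard
    have hj : j ≤ A.card * (6 * d) + R := h6.resolve_left hcard
    have hq : yx (yl Y) ∈ S.U := h5.1.xU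
    have hMk := mk_of hLAM h1 hq
    have hdist : ‖xp (yx (yl Y)) - u₀‖ < σ₁ / 2 := by
      have : xp (yx (yl Y)) - u₀ = (xp (yx (yl Y)) - u₁) + (u₁ - u₀) := by abel
      rw [this]
      exact lt_of_le_of_lt (norm_add_le _ _) (by linarith)
    obtain ⟨S', q₀, g1, g2, g3, g4, g5, g6, g7⟩ := hMARK d (closedBall u₀ σ₁) hd
      (isCompact_closedBall _ _) hBU (xp (yx (yl Y))) (by
        rw [mem_closedBall, dist_eq_norm]
        linarith) s S.per _ hMk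
    obtain ⟨KK', hKK'⟩ := hKOE d (2 * d + s) s S'
    let Y' : Jx d s q → ℂ := Sum.elim (Sum.elim q₀ (Sum.elim (yc (yl Y)) (fun k => ys (yl Y) k)))
      (yt Y)
    have hyx : yx (yl Y') = q₀ := rfl
    have hyc : yc (yl Y) = yc (yl Y') := rfl
    have hyk : ys (yl Y) = ys (yl Y') := rfl
    have hyt : yt Y = yt Y' := rfl
    obtain ⟨t1, t2, t3⟩ := hTRF d s S S' h1 g1 g2.symm (yx (yl Y)) q₀ hq g3 g4.symm
      (fun k => (g6 k).symm)
    have hG' : GoodG Z S' KK' A ks ls R Y' :=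
      trf hLAM hADO Z h1 g1 g2.symm hq g3 g4.symm (fun k => (g6 k).symm) h2 hKK' rfl rfl hyc hyk
        hyt h5
    obtain ⟨A', ks', ls', W, z1, z2, z3, z3', z4⟩ := hmin q Z s S' KK' A ks ls R Y' (r / 2) g1 hKK'
      (fun k => by rw [hyx, g6, g5]) (by
        rw [hyx]
        exact g7) (by
        rw [hyx, g4]
        exact hdist) (by linarith) (by linarith) (by
        rw [hyx, g4]
        refine (closedBall_subset_closedBall' ?_).trans hrB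
        rw [dist_eq_norm]
        linarith) b hb hbε hbr (by
        rw [hyx, ← t1]
        exact h4) hG' hA0 hA1 hlt η hη
    have hz : ‖xp (yx (yl W)) - u₁‖ ≤ x + (C₁ * Real.sqrt b + η) := by
      rw [hyx, g4] at z1
      have : xp (yx (yl W)) - u₁ = (xp (yx (yl Y)) - u₁) + (xp (yx (yl W)) - xp (yx (yl Y))) := by
        abel
      rw [this]
      exact (norm_add_le _ _).trans (by linarith)
    have hRle := R_le h5
    have hsle := s_le hNUM hER h5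
    have hAle := A_le hd A
    rcases z4 with ⟨z5, z6⟩ | ⟨z5, z6⟩
    · refine ⟨s, S', KK', A', ks', ls', 0, W, g1, hKK', hz, z2, z3, z3', z6, Or.inr ?_⟩
      have h7 : (A.card + 1) * (6 * d) ≤ A'.card * (6 * d) :=
        Nat.mul_le_mul_right _ z5
      have h8 : (A.card + 1) * (6 * d) = A.card * (6 * d) + 6 * d := by ring
      omega
    · refine ⟨s, S', KK', A', ks', ls', R + 1, W, g1, hKK', hz, z2, z3, z3', z6, Or.inr ?_⟩
      rw [z5]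
      omega
  -- constants
  set T : ℕ := 2 * d * (6 * d) + 6 * d with hT
  have hT0 : (0 : ℝ) ≤ (T : ℝ) := Nat.cast_nonneg _
  set M : ℝ := T * C₁ with hM
  have hM0 : 0 ≤ M := mul_nonneg hT0 hC₁.le
  set κ : ℝ := 1 / (8 * (M + 1)) with hκ
  have hκ0 : 0 < κ := by positivity
  have hMκ : M * κ ≤ 1 / 8 := by
    have h1 : (M + 1) * κ = 1 / 8 := by
      rw [hκ]; field_simp
    linarith
  refine ⟨M + 1, ε₁ / 2, min (c₁ / 8) (κ ^ 2), σ₁ / 8, by linarith, by linarith,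
    lt_min (by linarith) (by positivity), by linarith, ?_⟩
  intro u₁ hu₁ hsink hatt q Z z₁ hz₁ hz₁O hz₁E hNpc r hr hrσ hrB a ha0 haε har hmu η hη
  have har1 : a < c₁ / 8 * r ^ 2 :=
    lt_of_lt_of_le har (mul_le_mul_of_nonneg_right (min_le_left _ _) (by positivity))
  have har2 : a < κ ^ 2 * r ^ 2 :=
    lt_of_lt_of_le har (mul_le_mul_of_nonneg_right (min_le_right _ _) (by positivity))
  have haρ : Real.sqrt a < κ * r := by
    rw [Real.sqrt_lt' (by positivity)]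
    rw [mul_pow]
    exact har2
  have hu₁U : u₁ ∈ U₀ d := hBU (by
    rw [mem_closedBall, dist_eq_norm]
    linarith)
  -- choice of the small number
  obtain ⟨η', hη'0, hη'1, hη'2⟩ : ∃ η' : ℝ, 0 < η' ∧ (T + 1) * η' + M * Real.sqrt ((T + 1) * η') <
      min η (r / 8) ∧ (T + 1) * η' < min (ε₁ / 2) (c₁ / 8 * r ^ 2) := by
    have hc : Continuous fun t : ℝ => (T + 1) * t + M * Real.sqrt ((T + 1) * t) := by fun_prop
    have h1 : ∀ᶠ t : ℝ in 𝓝 0, (T + 1) * t + M * Real.sqrt ((T + 1) * t) < min η (r / 8) := by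
      refine (hc.tendsto 0).eventually_lt_const ?_
      simp only [mul_zero, Real.sqrt_zero, add_zero]
      exact lt_min hη (by linarith)
    have hc2 : Continuous fun t : ℝ => ((T : ℝ) + 1) * t := by fun_prop
    have h2 : ∀ᶠ t : ℝ in 𝓝 0, ((T : ℝ) + 1) * t < min (ε₁ / 2) (c₁ / 8 * r ^ 2) := by
      refine (hc2.tendsto 0).eventually_lt_const ?_
      simp only [mul_zero]
      exact lt_min (by linarith) (by positivity)
    obtain ⟨t, ⟨ht1, ht2⟩, ht3⟩ := (((h1.and h2).filter_mono nhdsWithin_le_nhds).and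
      (self_mem_nhdsWithin : Ioi (0 : ℝ) ∈ 𝓝[>] (0 : ℝ))).exists
    exact ⟨t, ht3, ht1, ht2⟩
  set b : ℝ := a + (T + 1) * η' with hb
  have hsqb : Real.sqrt b ≤ Real.sqrt a + Real.sqrt ((T + 1) * η') := by
    have hc0 : (0 : ℝ) ≤ (T + 1) * η' := by positivity
    rw [Real.sqrt_le_iff]
    refine ⟨by positivity, ?_⟩
    have e1 := Real.sq_sqrt ha0
    have e2 := Real.sq_sqrt hc0
    have e3 : 0 ≤ Real.sqrt a * Real.sqrt ((T + 1) * η') := by positivity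
    rw [hb]
    nlinarith
  have hMb : M * Real.sqrt b ≤ M * Real.sqrt a + M * Real.sqrt ((T + 1) * η') := by
    rw [← mul_add]
    exact mul_le_mul_of_nonneg_left hsqb hM0
  have hMa : M * Real.sqrt a ≤ r / 8 := by
    have h1 : M * Real.sqrt a ≤ M * (κ * r) := mul_le_mul_of_nonneg_left haρ.le hM0
    have h2 : M * (κ * r) = (M * κ) * r := by ring
    have h3 : (M * κ) * r ≤ 1 / 8 * r := mul_le_mul_of_nonneg_right hMκ hr.le
    linarith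
  have hη'3 := lt_of_lt_of_le hη'1 (min_le_left _ _)
  have hη'4 := lt_of_lt_of_le hη'1 (min_le_right _ _)
  have hη'5 := lt_of_lt_of_le hη'2 (min_le_left _ _)
  have hη'6 := lt_of_lt_of_le hη'2 (min_le_right _ _)
  obtain ⟨ρ, h, hh, hρ, hst⟩ : ∃ (ρ : ℕ) (h : Fin ρ → (Bx d q → ℂ) → ℂ)
      (hh : ∀ a, DifferentiableOn ℂ (h a) {z | bu z ∈ Z.B ∧ bt z ∈ Z.T}),
      (ρ ≤ @Fintype.card Z.κ Z.fκ) ∧
      Cf d β u₁ q (Z.up ρ h hh) 0 (((0 : ℕ) + 1) * η' + (0 : ℕ) * (C₁ * Real.sqrt b))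
      (a + ((0 : ℕ) + 1) * η') := by
    obtain ⟨ρ, h, hh, hρ, s, S, KK, ks, ls, Y, h1, h2, h3, h4, h5⟩ :=
      hSTART β d u₁ hβ hβ1 hd hu₁U hsink hatt q Z z₁ hz₁ hz₁O hz₁E hNpc η' hη'0
    refine ⟨ρ, h, hh, hρ, s, S, KK, {Sum.inr 0, Sum.inr 1}, ks, ls, 0, Y, h1, h2,
      by simpa using h3.le, ?_, by simp, by simp, h5, Or.inr (Nat.zero_le _)⟩
    refine h4.trans ?_
    refine (add_le_add_left hmu _).trans ?_
    rw [← ENNReal.ofReal_add ha0 hη'0.le]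
    apply ENNReal.ofReal_le_ofReal
    simp
  -- the induction
  have hind : ∀ j : ℕ, j ≤ T → Cf d β u₁ q (Z.up ρ h hh) j ((j + 1) * η' + j * (C₁ * Real.sqrt b))
      (a + (j + 1) * η') := by
    intro j
    induction j with
    | zero =>
      intro _
      exact hst
    | succ j ih =>
      intro hj
      have hjT : (j : ℝ) + 1 ≤ T := by exact_mod_cast hj
      have hj0 : (0 : ℝ) ≤ j := Nat.cast_nonneg _
      have hCf := ih (by omega)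
      have hbj : a + (j + 1) * η' ≤ b := by
        rw [hb]
        have : ((j : ℝ) + 1) * η' ≤ (T + 1) * η' :=
          mul_le_mul_of_nonneg_right (by linarith) hη'0.le
        linarith
      have hsb : 0 ≤ C₁ * Real.sqrt b := mul_nonneg hC₁.le (Real.sqrt_nonneg _)
      have e1 : ((j : ℝ) + 1) * η' ≤ (T + 1) * η' :=
        mul_le_mul_of_nonneg_right (by linarith) hη'0.le
      have e2 : (j : ℝ) * (C₁ * Real.sqrt b) ≤ T * (C₁ * Real.sqrt b) :=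
        mul_le_mul_of_nonneg_right (by linarith) hsb
      have e3 : (T : ℝ) * (C₁ * Real.sqrt b) = M * Real.sqrt b := by rw [hM]; ring
      have e4 : ((j : ℝ) + 1) * η' + j * (C₁ * Real.sqrt b) ≤ r / 4 := by linarith
      have e5 : c₁ * (r / 2) ^ 2 = c₁ / 8 * r ^ 2 + c₁ / 8 * r ^ 2 := by ring
      have h7 := hstep u₁ q (Z.up ρ h hh) r j _ _ hr (by linarith) hrB (by positivity)
        (by linarith) (by linarith) (by linarith) (by linarith) hCf η' hη'0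
      obtain ⟨s, S, KK, A, ks, ls, R, y, h1, h2, h3, h4, h5⟩ := h7
      refine ⟨s, S, KK, A, ks, ls, R, y, h1, h2, h3.trans ?_, h4.trans ?_, h5⟩
      · have e1 : C₁ * Real.sqrt (a + (j + 1) * η') ≤ C₁ * Real.sqrt b :=
          mul_le_mul_of_nonneg_left (Real.sqrt_le_sqrt hbj) hC₁.le
        push_cast
        linarith
      · apply ENNReal.ofReal_le_ofReal
        push_cast
        linarith
  obtain ⟨s, S, KK, A, ks, ls, R, Y, h1, h2, h3, h4, hA0, hA1, h5, h6⟩ := hind T le_rfl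
  have hcard : Fintype.card (Jx d s q) ≤ ρ + R := by
    by_contra hcard
    have h7 := h6.resolve_left hcard
    have hRle := R_le h5
    have hsle := s_le hNUM hER h5
    have hAle := A_le hd A
    have h8 : A.card * (6 * d) ≤ (2 * d) * (6 * d) := Nat.mul_le_mul_right _ hAle
    omega
  refine ⟨ρ, h, hh, hρ, s, S, KK, A, ks, ls, R, Y, h1, h2, ?_, h5, hcard⟩
  refine h3.trans ?_
  have e3 : (T : ℝ) * (C₁ * Real.sqrt b) = M * Real.sqrt b := by rw [hM]; ring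
  have := Real.sqrt_nonneg a
  linarith

end Pool.Agent.H207.GF
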