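import Mathlib
import Pool.Agent.H207.GF.Sel
import Pool.Graph.R_seed8.W757.RD.TKOE

/-! Project GF: good configurations at the beginning. -/

set_option autoImplicit false

open Topology Filter Metric Set MeasureTheory
open Pool.Agent.H790R3.RB
open scoped OnePoint

namespace Pool.Agent.H207.GF

open Pool.Agent.W757.RD (Sys Pt bz pc ys mu)

open Pool.Agent.W757 in
/-- critical vectors which are not periodic -/
theorem ncr_of {d : ℕ} {u : Fin (2 * d) → ℂ} {c : Fin (2 * d - 2) → ℂ} (hd : 2 ≤ d)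
    (hW : wr (RD.fam u) (1, 0) ≠ 0)
    (hc : ∀ ζ : ℂ, wr (RD.fam u) (ζ, 1) = wr (RD.fam u) (1, 0) * ∏ i, (ζ - c i)) {n : ℕ}
    (hn : ∀ i, cr ((hF (RD.fam u))^[n] (c i, 1)) (c i, 1) ≠ 0) :
    ∀ p : ℂ × ℂ, p ≠ 0 → wr (RD.fam u) p = 0 → cr ((hF (RD.fam u))^[n] p) p ≠ 0 := by
  intro p hp hwp
  have hp2 : p.2 ≠ 0 := by
    intro h2
    have hp1 : p.1 ≠ 0 := fun h1 => hp (Prod.ext h1 h2)
    have h3 : p = p.1 • ((1, 0) : ℂ × ℂ) := by ext <;> simp [h2]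
    rw [h3, (Pool.Agent.H790R3.RB.WR d _ hd).1] at hwp
    rcases mul_eq_zero.1 hwp with h4 | h4
    · exact pow_ne_zero _ hp1 h4
    · exact hW h4
  set ζ : ℂ := p.1 / p.2 with hζ
  have hpζ : p = p.2 • ((ζ, 1) : ℂ × ℂ) := by
    ext
    · simp [hζ, mul_div_cancel₀ _ hp2]
    · simp
  have hζw : wr (RD.fam u) (ζ, 1) = 0 := by
    rw [hpζ, (Pool.Agent.H790R3.RB.WR d _ hd).1] at hwp
    exact (mul_eq_zero.1 hwp).resolve_left (pow_ne_zero _ hp2)
  rw [hc ζ] at hζw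
  obtain ⟨i, -, hi⟩ := Finset.prod_eq_zero_iff.1 ((mul_eq_zero.1 hζw).resolve_left hW)
  have hζi : ζ = c i := sub_eq_zero.1 hi
  rw [hpζ, hF_iter_smul, cr_smul_left, cr_smul_right, hζi]
  exact mul_ne_zero (pow_ne_zero _ hp2) (mul_ne_zero hp2 (hn i))

open Pool.Agent.W757 in
/-- Good configurations at the beginning. -/
theorem pstartg (hSMK : RD.StSMK) (hMARK : RD.StMARK) (hUSC : RD.StUSC) (hLNE : RD.StLNE)
    (hKOE : RD.StKOE) (hFM : RD.StFM) : PSTARTG := by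
  intro β d u₁ hβ1 hβ2 hd hu₁ hsink hatt nq Z z₁ hz₁ hz₁O hz₁E hNpc ε hε
  letI hfκ := Z.fκ
  obtain ⟨s, per, p, hMk, hKS⟩ := hSMK d u₁ hd hu₁ hsink
  obtain ⟨hU₀, hfamd, -⟩ := hFM d hd
  obtain ⟨ρ, hρ, hBU⟩ := Metric.nhds_basis_closedBall.mem_iff.1 (hU₀.mem_nhds hu₁)
  obtain ⟨S, q₀, hExt, hper, hq₀U, hxp, hbp, hb, -⟩ := hMARK d (closedBall u₁ ρ) hd
    (isCompact_closedBall _ _) hBU u₁ (mem_closedBall_self hρ.le) s per p hMk
  have hKS' := hKS S q₀ hExt hper hq₀U hxp hb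
  obtain ⟨σ, N₀, hσ, hUSC'⟩ := hUSC β d (2 * d + s) s S q₀ hβ1 hβ2 hq₀U ε hε
  choose kj mj hkm using fun j : Fin 2 => hKS' (bz j) (hatt j)
  -- the base points enter the discs for all nearby parameters
  have hev : ∀ᶠ q in 𝓝 q₀, q ∈ S.U ∧ ∀ j : Fin 2, S.InC (kj j) q ((S.F q)^[mj j] (bz j, 1)) := by
    refine Filter.Eventually.and (S.hU.mem_nhds hq₀U) (eventually_all.2 fun j => ?_)
    have h1 := RD.KOE.ev_inC S (kj j) (mj j) (q := (q₀, (bz j, 1))) hq₀U (hkm j)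
    have h2 : Tendsto (fun q : Fin (2 * d + s) → ℂ => (q, ((bz j, 1) : ℂ × ℂ))) (𝓝 q₀)
        (𝓝 (q₀, (bz j, 1))) := (Continuous.prodMk continuous_id continuous_const).tendsto _
    exact h2.eventually h1
  obtain ⟨σ', hσ', hball⟩ := Metric.eventually_nhds_iff.1 hev
  have hq1 : 1 ≤ ∏ k : Fin s, S.per k := Finset.one_le_prod' fun k _ => S.hper k
  have hdvd : ∀ k, S.per k ∣ ∏ k : Fin s, S.per k :=
    fun k => Finset.dvd_prod_of_mem S.per (Finset.mem_univ k)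
  set Q : ℕ := ∏ k : Fin s, S.per k with hQ
  have hε' : 0 < min ε (min σ σ') := lt_min hε (lt_min hσ hσ')
  -- a solution without periodic critical points
  have hNd : ∀ᶠ z in 𝓝 z₁, ‖bu z - u₁‖ < min ε (min σ σ') := by
    have h1 : ContinuousAt (fun z : Bx d nq → ℂ => ‖bu z - u₁‖) z₁ :=
      ((bu_diff.continuous).sub continuous_const).norm.continuousAt
    refine h1.eventually_lt continuousAt_const ?_
    rw [hz₁, sub_self, norm_zero]
    exact hε'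
  obtain ⟨z₂, ⟨hz₂O, hz₂E, hz₂n⟩, hz₂d⟩ := (hNpc.and_eventually hNd).exists
  -- the neighbourhood
  set g : Fin (2 * d - 2) → (Bx d nq → ℂ) → ℂ := fun i z =>
    cr ((hF (RD.fam (bu z)))^[Q] (bc z i, 1)) (bc z i, 1) with hg
  have hgc : ∀ i, Continuous (g i) := by
    intro i
    have e0 : Differentiable ℂ (fun z : Bx d nq → ℂ => ((bc z i, 1) : ℂ × ℂ)) :=
      (differentiable_pi.1 bc_diff i).prodMk (differentiable_const _)
    have e2 : Differentiable ℂ (fun z : Bx d nq → ℂ => (hF (RD.fam (bu z)))^[Q] (bc z i, 1)) :=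
      (hF_iter_differentiable d Q).comp ((hfamd.comp bu_diff).prodMk e0)
    have e3 : Differentiable ℂ (g i) := by
      simp only [hg]
      unfold cr
      exact (e2.fst.mul e0.snd).sub (e2.snd.mul e0.fst)
    exact e3.continuous
  have hN₂ : {z : Bx d nq → ℂ | ‖bu z - u₁‖ < min ε (min σ σ') ∧ ∀ i, g i z ≠ 0} ∈ 𝓝 z₂ := by
    refine Filter.Eventually.and ?_ (eventually_all.2 fun i => ?_)
    · have h1 : ContinuousAt (fun z : Bx d nq → ℂ => ‖bu z - u₁‖) z₂ :=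
        ((bu_diff.continuous).sub continuous_const).norm.continuousAt
      exact h1.eventually_lt continuousAt_const hz₂d
    · exact (hgc i).continuousAt.eventually_ne (hz₂n Q hq1 i)
  obtain ⟨ρ₀, h, hρ₀, hh, z₃, hz₃N, hz₃W⟩ := start Z.O_open Z.hE hz₂O hz₂E hN₂
  obtain ⟨hx₂, hz₃n⟩ := hz₃N
  have hz₃E : ∀ j, Z.E j z₃ = 0 := fun j => Wp_zero hz₃W j
  have hz₃O : z₃ ∈ Z.O := hz₃W.1
  have hcrit := Z.crit z₃ hz₃O.1 hz₃O.2 hz₃E
  refine ⟨ρ₀, h, hh, hρ₀, ?_⟩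
  obtain ⟨x₂, hx₂def⟩ : ∃ x, x = bu z₃ := ⟨_, rfl⟩
  rw [← hx₂def] at hx₂ hcrit
  set q₂ : Fin (2 * d + s) → ℂ := Fin.append x₂ p with hq₂
  have hxp₂ : RD.xp q₂ = x₂ := by
    funext i
    simp [RD.xp, hq₂]
  have hd₂ : ‖q₂ - q₀‖ < min ε (min σ σ') := by
    rw [pi_norm_lt_iff hε']
    intro i
    rw [Pi.sub_apply]
    refine Fin.addCases (fun i => ?_) (fun k => ?_) i
    · have h1 : q₂ (Fin.castAdd s i) = x₂ i := by simp [hq₂]
      have h2 : q₀ (Fin.castAdd s i) = u₁ i := congrFun hxp i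
      rw [h1, h2]
      exact lt_of_le_of_lt (norm_le_pi_norm (x₂ - u₁) i) hx₂
    · have h1 : q₂ (Fin.natAdd (2 * d) k) = p k := by simp [hq₂]
      have h2 : q₀ (Fin.natAdd (2 * d) k) = p k := hbp k
      rw [h1, h2, sub_self, norm_zero]
      exact hε'
  obtain ⟨hq₂U, hIn⟩ := hball (y := q₂) (by
    rw [dist_eq_norm]
    exact hd₂.trans_le ((min_le_right _ _).trans (min_le_right _ _)))
  have hco : S.co q₂ = RD.fam x₂ := by rw [hExt.co q₂ hq₂U, hxp₂]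
  have hwr : wr (RD.fam x₂) (1, 0) ≠ 0 := by
    rw [← hco]
    exact S.hwr q₂ hq₂U
  have hlam : ∀ k, S.lam k q₂ ≠ 0 :=
    hLNE d (2 * d + s) s S Q q₂ hq₂U hdvd hq1 (by
      rw [hco]
      refine ncr_of hd hwr hcrit fun i => ?_
      rw [hx₂def]
      exact hz₃n i)
  obtain ⟨KK, hKK⟩ := hKOE d (2 * d + s) s S
  let Y : Jx d s nq → ℂ := Sum.elim (Sum.elim q₂ (Sum.elim (bc z₃) (fun _ => 1))) (bt z₃)
  have hyx : yx (yl Y) = q₂ := rfl
  have hyc : yc (yl Y) = bc z₃ := rfl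
  have hbs : bs Y = z₃ := by
    funext i
    rcases i with i | i | i
    · change RD.xp (yx (yl Y)) i = z₃ (Sum.inl i)
      rw [hyx, hxp₂, hx₂def]
      rfl
    · rfl
    · rfl
  let ks : Pt d → Fin s := Sum.elim (fun _ => kj 0) kj
  let ls : Pt d → ℕ := Sum.elim (fun _ => 0) (fun j => mj j % S.per (kj j))
  refine ⟨s, S, KK, ks, ls, Y, hExt, hKK, ?_, ?_, ?_⟩
  · rw [hyx, hxp₂]
    exact hx₂.trans_le (min_le_left _ _)
  · rw [hyx]
    have h1 : S.KS q₂ ⊆ {ζ : ℂ | ∀ k, ∀ m ≤ N₀, ¬ S.InC k q₂ ((S.F q₂)^[m] (ζ, 1))} :=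
      fun ζ hζ k m _ => hζ k m
    refine (measure_mono h1).trans ((hUSC' q₂ hq₂U ?_).trans ?_)
    · exact hd₂.trans_le ((min_le_right _ _).trans (min_le_left _ _))
    · refine add_le_add (measure_mono ?_) le_rfl
      intro ζ hζ hA
      obtain ⟨k, m, hkm'⟩ := hKS' ζ hA
      exact hζ k m hkm'
  · have hatt2 : ∀ j : Fin 2, ls (Sum.inr j) < S.per (ks (Sum.inr j)) ∧
        (q₂, (S.F q₂)^[ls (Sum.inr j)] (pc (yl Y) (Sum.inr j), 1)) ∈
          S.Dom (ks (Sum.inr j)) := by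
      intro j
      refine ⟨Nat.mod_lt _ (S.hper _), hq₂U, hlam _, mj j / S.per (kj j), ?_⟩
      have h1 : (S.F q₂)^[S.per (kj j) * (mj j / S.per (kj j))]
          ((S.F q₂)^[mj j % S.per (kj j)] (bz j, 1)) = (S.F q₂)^[mj j] (bz j, 1) := by
        rw [← Function.iterate_add_apply, Nat.div_add_mod]
      have h2 := hIn j
      rw [← h1] at h2
      exact h2
    refine good_zero (Z := Z.up ρ₀ h hh) ⟨hq₂U, hlam, fun k => one_ne_zero, ?_, ?_, ?_⟩ ?_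
    · intro j
      unfold RD.Sys.Er
      rw [hyx, hyc, hco, hcrit, sub_self]
    · intro i hi
      rcases Finset.mem_insert.1 hi with rfl | hi
      · exact (hatt2 0).1
      · rw [Finset.mem_singleton.1 hi]
        exact (hatt2 1).1
    · intro i hi
      rcases Finset.mem_insert.1 hi with rfl | hi
      · exact (hatt2 0).2
      · rw [Finset.mem_singleton.1 hi]
        exact (hatt2 1).2
    · rw [hbs]
      exact hz₃W

end Pool.Agent.H207.GF
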