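import Mathlib
import Pool.Agent.H207.GF.Start
import Pool.Agent.H207.GF.End2

/-! Project GF: the core theorem for families of normalised rational maps. -/

set_option autoImplicit false

open Topology Filter Metric Set MeasureTheory
open Pool.Agent.H790R3.RB (CV hF cr ND wr rt Ix yx yc sp hc Attd Sink wr_contDiff)
open Pool.Agent.W757.RD
open scoped OnePoint

namespace Pool.Agent.H207.GF

/-- the structural equations (the proof is that of `Pool.Agent.W440.RE.ERMIN.ER`) -/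
theorem er_vec {d : ℕ} (hd : 2 ≤ d) (x : CV d) (y : Fin (2 * d - 2) → ℂ)
    (hEr : ∀ j : Fin (2 * d - 2), wr x (((j : ℕ) : ℂ), 1) -
      wr x (1, 0) * ∏ i, (((j : ℕ) : ℂ) - y i) = 0) (ζ : ℂ) :
    wr x (ζ, 1) = wr x (1, 0) * ∏ i, (ζ - y i) := by
  obtain ⟨_, ⟨W, hWdeg, hWev, hWc⟩, _⟩ := Pool.Agent.H790R3.RB.WR d x hd
  set c := wr x (1, 0) with hc
  set Q : Polynomial ℂ := ∏ i : Fin (2 * d - 2), (Polynomial.X - Polynomial.C (y i)) with hQ
  have hQm : Q.Monic := Polynomial.monic_prod_of_monic _ _ fun i _ => Polynomial.monic_X_sub_C _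
  have hQd : Q.natDegree = 2 * d - 2 := by
    rw [hQ, Polynomial.natDegree_prod_of_monic _ _ fun i _ => Polynomial.monic_X_sub_C _]
    simp
  have hQev : ∀ z : ℂ, Q.eval z = ∏ i : Fin (2 * d - 2), (z - y i) := by
    intro z
    rw [hQ, Polynomial.eval_prod]
    simp
  set D : Polynomial ℂ := W - Polynomial.C c * Q with hD
  have hDdeg : D.natDegree ≤ 2 * d - 2 := by
    refine (Polynomial.natDegree_sub_le _ _).trans (max_le hWdeg ?_)
    exact (Polynomial.natDegree_C_mul_le _ _).trans hQd.le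
  have hDc : D.coeff (2 * d - 2) = 0 := by
    rw [hD, Polynomial.coeff_sub, Polynomial.coeff_C_mul, hWc]
    have : Q.coeff (2 * d - 2) = 1 := by rw [← hQd]; exact hQm.coeff_natDegree
    rw [this, mul_one, sub_self]
  have hDev : ∀ z : ℂ, D.eval z = wr x (z, 1) - c * ∏ i : Fin (2 * d - 2), (z - y i) := by
    intro z
    rw [hD, Polynomial.eval_sub, Polynomial.eval_mul, Polynomial.eval_C, hWev, hQev]
  have hlt : D.natDegree < Fintype.card (Fin (2 * d - 2)) := by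
    rw [Fintype.card_fin]
    refine lt_of_le_of_ne hDdeg fun h => ?_
    have h1 : D.leadingCoeff = 0 := by rw [Polynomial.leadingCoeff, h, hDc]
    rw [Polynomial.leadingCoeff_eq_zero] at h1
    rw [h1, Polynomial.natDegree_zero] at h
    omega
  have hD0 : D = 0 := by
    refine Polynomial.eq_zero_of_natDegree_lt_card_of_eval_eq_zero D
      (f := fun j : Fin (2 * d - 2) => ((j : ℕ) : ℂ)) ?_ ?_ hlt
    · intro i j hij
      exact Fin.ext (Nat.cast_injective hij)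
    · intro j
      rw [hDev]
      exact hEr j
  have := hDev ζ
  rw [hD0, Polynomial.eval_zero] at this
  exact (sub_eq_zero.mp this.symm)

theorem prod_bc_diff {d q : ℕ} (w : ℂ) :
    Differentiable ℂ (fun z : Bx d q → ℂ => ∏ i : Fin (2 * d - 2), (w - bc z i)) := by
  have h3 : ContDiff ℂ 1 (fun z : Bx d q → ℂ =>
      ∏ i ∈ (Finset.univ : Finset (Fin (2 * d - 2))), (w - bc z i)) :=
    contDiff_prod fun i _ => contDiff_const.sub
      (contDiff_apply ℂ ℂ (Sum.inr (Sum.inl i) : Bx d q))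
  exact h3.differentiable (by norm_num)

theorem wr_fam_diff {d q : ℕ} (hfamd : Differentiable ℂ (fam : (Fin (2 * d) → ℂ) → CV d))
    (p : ℂ × ℂ) : Differentiable ℂ (fun z : Bx d q → ℂ => wr (fam (bu z)) p) := by
  have hw : Differentiable ℂ (fun q : CV d × (ℂ × ℂ) => wr q.1 q.2) :=
    (wr_contDiff d 1).differentiable (by norm_num)
  have h1 : Differentiable ℂ (fun z : Bx d q → ℂ => ((fam (bu z), p) : CV d × (ℂ × ℂ))) :=
    Differentiable.prodMk (fun z => (hfamd (bu z)).comp z (bu_diff z)) (differentiable_const p)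
  intro z
  exact DifferentiableAt.comp (f := fun z : Bx d q → ℂ => ((fam (bu z), p) : CV d × (ℂ × ℂ)))
    (g := fun q : CV d × (ℂ × ℂ) => wr q.1 q.2) z (hw _) (h1 z)

/-- The core theorem for families of normalised rational maps: a map for which the set of points
which are not attracted has small area is near solutions of the same equations with many disjoint
infinite attracted critical orbits. -/
def PCG : Prop :=
  ∀ (β : ℝ) (d : ℕ) (u₀ : Fin (2 * d) → ℂ), 1 / 2 < β → β < 1 → 2 ≤ d → u₀ ∈ U₀ d →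
    Gz (fam u₀) → ∃ C₂ ε₂ c₂ σ₂ : ℝ, 0 < C₂ ∧ 0 < ε₂ ∧ 0 < c₂ ∧ 0 < σ₂ ∧
    ∀ u₁ : Fin (2 * d) → ℂ, ‖u₁ - u₀‖ < σ₂ → (∀ p : ℕ, ¬ Sink (sp (fam u₁)) p ∞) →
      (∀ j : Fin 2, Attd (sp (fam u₁)) ((bz j : ℂ) : OnePoint ℂ)) →
      ∀ (q k : ℕ) (B : Set (Fin (2 * d) → ℂ)) (T KT : Set (Fin q → ℂ))
      (G : Fin k → (Fin (2 * d) → ℂ) × (Fin q → ℂ) → ℂ), IsOpen B → IsOpen T → IsCompact KT →
      KT ⊆ T → (∀ j, DifferentiableOn ℂ (G j) (B ×ˢ T)) →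
      (∀ u ∈ B, ∀ t ∈ T, (∀ j, G j (u, t) = 0) → t ∈ KT) →
      ∀ t₁ ∈ T, u₁ ∈ B → (∀ j, G j (u₁, t₁) = 0) → ∀ c₁ : Fin (2 * d - 2) → ℂ,
      (∀ ζ : ℂ, wr (fam u₁) (ζ, 1) = wr (fam u₁) (1, 0) * ∏ i, (ζ - c₁ i)) →
      (∀ n : ℕ, 1 ≤ n → ∀ i, cr ((hF (fam u₁))^[n] (c₁ i, 1)) (c₁ i, 1) ≠ 0) →
      ∀ r : ℝ, 0 < r → r ≤ σ₂ → closedBall u₁ r ⊆ B →
      ∀ a : ℝ, 0 ≤ a → a < ε₂ → a < c₂ * r ^ 2 →
      mu β {ζ : ℂ | ¬ Attd (sp (fam u₁)) (ζ : OnePoint ℂ)} ≤ ENNReal.ofReal a →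
      ∀ η : ℝ, 0 < η → ∃ (u : Fin (2 * d) → ℂ) (t : Fin q → ℂ) (c : Fin (2 * d - 2) → ℂ)
        (I : Finset (Fin (2 * d - 2))), ‖u - u₁‖ ≤ C₂ * Real.sqrt a + η ∧ u ∈ B ∧ t ∈ T ∧
        u ∈ U₀ d ∧ (∀ j, G j (u, t) = 0) ∧
        (∀ ζ : ℂ, wr (fam u) (ζ, 1) = wr (fam u) (1, 0) * ∏ i, (ζ - c i)) ∧
        2 * d + q ≤ k + I.card + 2 ∧
        (∀ i ∈ I, Attd (sp (fam u)) ((c i : ℂ) : OnePoint ℂ)) ∧
        (∀ i ∈ I, ∀ a b : ℕ, a ≠ b →
          cr ((hF (fam u))^[a] (c i, 1)) ((hF (fam u))^[b] (c i, 1)) ≠ 0) ∧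
        ∀ i ∈ I, ∀ j ∈ I, i ≠ j → ∀ a b : ℕ,
          cr ((hF (fam u))^[a] (c i, 1)) ((hF (fam u))^[b] (c j, 1)) ≠ 0

theorem pcg (hSEL : PSELG) (hFM : StFM) (hLAM : StLAM) (hADO : StADO) : PCG := by
  intro β d u₀ hβ hβ1 hd hu₀ hGz
  obtain ⟨C₂, ε₂, c₂, σ₂, hC₂, hε₂, hc₂, hσ₂, H⟩ := hSEL β d u₀ hβ hβ1 hd hu₀ hGz
  refine ⟨C₂, ε₂, c₂, σ₂, hC₂, hε₂, hc₂, hσ₂, ?_⟩
  intro u₁ hu₁ hsink hatt q k B T KT G hB hT hKT hKTT hG hprop t₁ ht₁ hu₁B hG₁ c₁ hc₁ hper r hr hrσ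
    hrB a ha haε har hmu η hη
  obtain ⟨hU₀, hfamd, -⟩ := hFM d hd
  have hwrd : ∀ p : ℂ × ℂ, Differentiable ℂ (fun z : Bx d q → ℂ => wr (fam (bu z)) p) :=
    fun p => wr_fam_diff hfamd p
  let E : (Fin (2 * d - 2) ⊕ Fin k) → (Bx d q → ℂ) → ℂ := fun e z =>
    match e with
    | Sum.inl j => wr (fam (bu z)) (((j : ℕ) : ℂ), 1) -
        wr (fam (bu z)) (1, 0) * ∏ i, (((j : ℕ) : ℂ) - bc z i)
    | Sum.inr j => G j (bu z, bt z)
  let Z : Sta d q :=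
    { κ := Fin (2 * d - 2) ⊕ Fin k
      fκ := inferInstance
      B := B
      T := T
      KT := KT
      E := E
      ρ := 0
      h := fun a => a.elim0
      hB := hB
      hT := hT
      hKT := hKT
      KTT := hKTT
      hE := by
        rintro (j | j)
        · apply Differentiable.differentiableOn
          exact (hwrd _).sub ((hwrd _).mul (prod_bc_diff _))
        · exact (hG j).comp (bu_diff.prodMk bt_diff).differentiableOn fun z hz => hz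
      hh := fun a => a.elim0
      prop := fun z h1 h2 h3 => hprop _ h1 _ h2 fun j => h3 (Sum.inr j)
      crit := fun z h1 h2 h3 ζ => er_vec hd _ _ (fun j => h3 (Sum.inl j)) ζ }
  let z₁ : Bx d q → ℂ := Sum.elim u₁ (Sum.elim c₁ t₁)
  have hz₁O : z₁ ∈ Z.O := ⟨hu₁B, ht₁⟩
  have hz₁E : ∀ j, Z.E j z₁ = 0 := by
    rintro (j | j)
    · show wr (fam u₁) (((j : ℕ) : ℂ), 1) -
        wr (fam u₁) (1, 0) * ∏ i, (((j : ℕ) : ℂ) - c₁ i) = 0
      rw [hc₁, sub_self]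
    · exact hG₁ j
  have hNpc : Npc Z z₁ := by
    intro hcon
    exact hcon.self_of_nhds ⟨hz₁O, hz₁E, hper⟩
  obtain ⟨ρ, h, hh, hρ, s, S, KK, A, ks, ls, R, Y, hExt, hK, hdist, hGood, hcard⟩ :=
    H u₁ hu₁ hsink hatt q Z z₁ rfl hz₁O hz₁E hNpc r hr hrσ hrB a ha haε har hmu (η / 2)
      (half_pos hη)
  obtain ⟨z, I, g1, g2, g3, g4, g5, g6, g7⟩ := endg hFM hLAM hADO hd (Z.up ρ h hh) hExt hK hGood
    hcard (half_pos hη)
  have hzE : ∀ j, Z.E j z = 0 := fun j => Wp_zero (E := Z.E) g2 j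
  have hzO : z ∈ Z.O := g2.1
  have hρ' : ρ ≤ 2 * d - 2 + k := by
    refine hρ.trans (le_of_eq ?_)
    change Fintype.card (Fin (2 * d - 2) ⊕ Fin k) = _
    rw [Fintype.card_sum, Fintype.card_fin, Fintype.card_fin]
  refine ⟨bu z, bt z, bc z, I, ?_, hzO.1, hzO.2, g3, fun j => hzE (Sum.inr j),
    Z.crit z hzO.1 hzO.2 hzE, ?_, g5, g6, g7⟩
  · have h1 : ‖bu z - xp (yx (yl Y))‖ ≤ η / 2 := by
      rw [pi_norm_le_iff_of_nonneg (half_pos hη).le]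
      intro i
      have h2 := norm_le_pi_norm (z - bs Y) (Sum.inl i)
      exact h2.trans g1.le
    have h2 : bu z - u₁ = (bu z - xp (yx (yl Y))) + (xp (yx (yl Y)) - u₁) := by abel
    rw [h2]
    refine (norm_add_le _ _).trans ?_
    linarith
  · have g4' : 4 * d + q ≤ ρ + I.card + 4 := g4
    omega

end Pool.Agent.H207.GF
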