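import Mathlib
import Pool.Agent.H207.GF.Core
import Pool.Agent.H207.GF.Norm
import Pool.Agent.H207.CS.Seq

/-! Project GF: from the universal family to all rational maps. -/

set_option autoImplicit false

open Topology Filter Metric Set MeasureTheory
open Pool.Agent.H790R3.RB (CV hF cr ND wr rt sp pr hc HypTop Attd Sink hF_contDiff)
open Pool.Agent.W757.RD
open Pool.Agent.W364.NM (ap ad dt ad_ap sp_pr vne pr_csmul ap_ne ap_eq_zero semi ap_zero')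
open Pool.Agent.H207.CS (HC hc_map hc_fam fam_hc pr_eq_iff)
open scoped OnePoint

namespace Pool.Agent.H207.GF

/-- the critical points with labels in `I` are attracted and have infinite pairwise disjoint
orbits -/
structure Dis {d : ℕ} (y : CV d) (c : Fin (2 * d - 2) → OnePoint ℂ) (I : Finset (Fin (2 * d - 2))) :
    Prop where
  att : ∀ i ∈ I, Attd (sp y) (c i)
  inf : ∀ i ∈ I, ∀ a b : ℕ, (sp y)^[a] (c i) = (sp y)^[b] (c i) → a = b
  dis : ∀ i ∈ I, ∀ j ∈ I, i ≠ j → ∀ a b : ℕ, (sp y)^[a] (c i) ≠ (sp y)^[b] (c j)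

/-- The conclusion: solutions of the equations near `x` with many disjoint critical orbits. -/
def Con {d : ℕ} (x : CV d) (r : ℝ) : Prop :=
  ∀ (q k : ℕ) (T KT : Set (Fin q → ℂ)) (G : Fin k → CV d × (Fin q → ℂ) → ℂ), IsOpen T →
    IsCompact KT → KT ⊆ T → (∀ j, DifferentiableOn ℂ (G j) (ball x r ×ˢ T)) →
    (∀ y ∈ ball x r, ∀ t ∈ T, (∀ j, G j (y, t) = 0) → t ∈ KT) →
    ∀ t₁ ∈ T, (∀ j, G j (x, t₁) = 0) →
    ∃ (y : CV d) (t : Fin q → ℂ) (c : Fin (2 * d - 2) → OnePoint ℂ)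
      (I : Finset (Fin (2 * d - 2))), y ∈ ball x r ∧ t ∈ T ∧ (∀ j, G j (y, t) = 0) ∧ ND y ∧
      HC y c ∧ 2 * d + q ≤ k + I.card + 2 ∧ Dis y c I

theorem Con.mono {d : ℕ} {x : CV d} {r r' : ℝ} (h : Con x r) (hr : r ≤ r') : Con x r' := by
  intro q k T KT G hT hKT hKTT hG hprop t₁ ht₁ hG₁
  have hs : ball x r ⊆ ball x r' := ball_subset_ball hr
  obtain ⟨y, t, c, I, h1, h2⟩ := h q k T KT G hT hKT hKTT
    (fun j => (hG j).mono (prod_mono hs subset_rfl)) (fun y hy => hprop y (hs hy)) t₁ ht₁ hG₁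
  exact ⟨y, t, c, I, hs h1, h2⟩

/-- The main theorem for coefficient vectors. -/
def PGEN : Prop :=
  ∀ (γ : ℝ) (d : ℕ) (x₀ : CV d), 0 < γ → γ < 1 / 2 → 2 ≤ d → ND x₀ →
    ∃ C δ : ℝ, 0 < C ∧ 0 < δ ∧ ∀ x : CV d, ‖x - x₀‖ < δ →
      ∀ c : Fin (2 * d - 2) → OnePoint ℂ, HC x c →
      (∀ n : ℕ, 1 ≤ n → ∀ i, (sp x)^[n] (c i) ≠ c i) → ∀ a : ℝ, 0 < a → a < δ →
      sar {z : ℂ | ¬ Attd (sp x) (z : OnePoint ℂ)} ≤ ENNReal.ofReal a → Con x (C * a ^ γ)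

/-- the local form of the statement near a fixed point -/
def Loc (γ : ℝ) (d : ℕ) (x₀ : CV d) (q₀ : OnePoint ℂ) : Prop :=
  ∃ C δ : ℝ, 0 < C ∧ 0 < δ ∧ ∃ V ∈ 𝓝 q₀, ∀ x : CV d, ‖x - x₀‖ < δ → ∀ q ∈ V, sp x q = q →
    (∀ p : ℕ, ¬ Sink (sp x) p q) → ∀ c : Fin (2 * d - 2) → OnePoint ℂ, HC x c →
    (∀ n : ℕ, 1 ≤ n → ∀ i, (sp x)^[n] (c i) ≠ c i) →
    ∀ a : ℝ, 0 < a → a < δ →
    sar {z : ℂ | ¬ Attd (sp x) (z : OnePoint ℂ)} ≤ ENNReal.ofReal a → Con x (C * a ^ γ)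

theorem loc_ne {γ : ℝ} {d : ℕ} (hd : 2 ≤ d) {x₀ : CV d} (hx₀ : ND x₀) {q₀ : OnePoint ℂ}
    (hne : sp x₀ q₀ ≠ q₀) : Loc γ d x₀ q₀ := by
  open Pool.Agent.W324.RQOPA (ph ph_open ph_cont sp_ph exists_chart) in
  open Pool.Agent.H790R3.RB.FAM (cp cp_ne cp_cont zb) in
  obtain ⟨k, β, hkβ⟩ := exists_chart q₀
  set w₀ := Pool.Agent.H790R3.RB.FAM.zb β k () with hw₀
  have h0 : hF x₀ (Pool.Agent.H790R3.RB.FAM.cp k w₀) ≠ 0 := fun h =>
    Pool.Agent.H790R3.RB.FAM.cp_ne k w₀ (hx₀ _ h)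
  have c1 : Continuous (fun y : CV d × ℂ => hF y.1 (Pool.Agent.H790R3.RB.FAM.cp k y.2)) :=
    (hF_contDiff d 1).continuous.comp (continuous_fst.prodMk
      ((Pool.Agent.H790R3.RB.FAM.cp_cont k).continuous.comp continuous_snd))
  have c2 : ContinuousAt (fun y : CV d × ℂ => pr (hF y.1 (Pool.Agent.H790R3.RB.FAM.cp k y.2)))
      (x₀, w₀) :=
    ContinuousAt.comp (f := fun y : CV d × ℂ => hF y.1 (Pool.Agent.H790R3.RB.FAM.cp k y.2))
      (g := pr) (x := (x₀, w₀))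
      (Pool.Agent.H790R3.RB.SP.continuousAt_pr h0) c1.continuousAt
  have c3 : ContinuousAt (fun y : CV d × ℂ => Pool.Agent.W324.RQOPA.ph k y.2) (x₀, w₀) :=
    ((Pool.Agent.W324.RQOPA.ph_cont k).comp continuous_snd).continuousAt
  have hne' : pr (hF x₀ (Pool.Agent.H790R3.RB.FAM.cp k w₀)) ≠ Pool.Agent.W324.RQOPA.ph k w₀ := by
    have h1 := Pool.Agent.W324.RQOPA.sp_ph hx₀ (by omega : 1 ≤ d) k w₀ 1
    simp only [Function.iterate_one] at h1
    rw [← h1, hkβ]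
    exact hne
  have h2 : ∀ᶠ y : CV d × ℂ in 𝓝 (x₀, w₀),
      pr (hF y.1 (Pool.Agent.H790R3.RB.FAM.cp k y.2)) ≠ Pool.Agent.W324.RQOPA.ph k y.2 :=
    (ContinuousAt.ne_iff_eventually_ne c2 c3).1 hne'
  obtain ⟨δ₁, hδ₁, hb1⟩ := Metric.eventually_nhds_iff_ball.1 h2
  obtain ⟨δ₃, hδ₃, hb3⟩ := Metric.eventually_nhds_iff.1 (Pool.Agent.H790R3.RB.FAM.ND_open hx₀)
  refine ⟨1, min δ₁ δ₃, one_pos, lt_min hδ₁ hδ₃, Pool.Agent.W324.RQOPA.ph k '' ball w₀ δ₁, ?_, ?_⟩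
  · rw [← hkβ]
    exact (Pool.Agent.W324.RQOPA.ph_open k).image_mem_nhds (ball_mem_nhds w₀ hδ₁)
  · intro x hx q hq hfix
    exfalso
    obtain ⟨w, hw, rfl⟩ := hq
    have hND : ND x := hb3 (by rw [dist_eq_norm]; exact lt_of_lt_of_le hx (min_le_right _ _))
    have h3 := hb1 (x, w) (by
      rw [← ball_prod_same]
      exact ⟨by rw [mem_ball, dist_eq_norm]; exact lt_of_lt_of_le hx (min_le_left _ _), hw⟩)
    have h4 := Pool.Agent.W324.RQOPA.sp_ph hND (by omega : 1 ≤ d) k w 1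
    simp only [Function.iterate_one] at h4
    exact h3 (h4.symm.trans hfix)

theorem loc_crit (hNAC : StNAC) {γ : ℝ} {d : ℕ} (hd : 2 ≤ d) {x₀ : CV d} (hx₀ : ND x₀)
    {q₀ : OnePoint ℂ} (hfix : sp x₀ q₀ = q₀) (hw : wr x₀ (hc q₀) = 0) : Loc γ d x₀ q₀ := by
  obtain ⟨δ, hδ, V, hV, h⟩ := hNAC d x₀ q₀ hd hx₀ hfix hw
  exact ⟨1, δ, one_pos, hδ, V, hV, fun x hx q hq hf hns => absurd (h x hx q hq hf) (hns 1)⟩

theorem iter_semi {X : Type} {f g : X → X} {h : X → X} (H : ∀ z, h (f z) = g (h z)) (n : ℕ)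
    (z : X) : h (f^[n] z) = g^[n] (h z) := by
  induction n generalizing z with
  | zero => rfl
  | succ n ih => rw [Function.iterate_succ_apply, Function.iterate_succ_apply, ih, H]

theorem loc_main (hPCG : PCG) (hNORM : PNORMG) {γ : ℝ} (hγ : 0 < γ) (hγ2 : γ < 1 / 2) {d : ℕ}
    (hd : 2 ≤ d) {x₀ : CV d} (hx₀ : ND x₀)
    {q₀ : OnePoint ℂ} (hfix : sp x₀ q₀ = q₀) (hw : wr x₀ (hc q₀) ≠ 0) : Loc γ d x₀ q₀ := by
  obtain ⟨u₀, hu₀, hG, H⟩ := hNORM (γ + 1 / 2) d x₀ q₀ (by linarith) (by linarith) hd hx₀ hfix hw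
  obtain ⟨C₂, ε₂, c₂, σ₂, hC₂, hε₂, hc₂, hσ₂, H2⟩ :=
    hPCG (γ + 1 / 2) d u₀ (by linarith) (by linarith) hd hu₀ hG
  obtain ⟨ρU, hρU, hbU⟩ := Metric.nhds_basis_closedBall.mem_iff.1
    ((p_FM d hd).1.mem_nhds hu₀)
  obtain ⟨δN, hδN, hbN⟩ := Metric.eventually_nhds_iff.1 (Pool.Agent.H790R3.RB.FAM.ND_open hx₀)
  obtain ⟨C, B, δ₀, hC, hB, hδ₀, V, hV, H3⟩ := H (min σ₂ ρU) (lt_min hσ₂ hρU)
  set δ : ℝ := min δ₀ δN with hδdef
  have hδ : 0 < δ := lt_min hδ₀ hδN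
  have hexp : 2 * (γ + 1 / 2) - 1 = γ + γ := by ring
  set K : ℝ := Real.sqrt (B / c₂) + 1 with hKdef
  have hK : 0 < K := by positivity
  have hK2 : B < c₂ * K ^ 2 := by
    have h1 : Real.sqrt (B / c₂) ^ 2 = B / c₂ := Real.sq_sqrt (by positivity)
    have h2 : 0 ≤ Real.sqrt (B / c₂) := Real.sqrt_nonneg _
    have h3 : B / c₂ < K ^ 2 := by
      rw [hKdef]
      nlinarith
    have h4 := mul_lt_mul_of_pos_left h3 hc₂
    rwa [mul_div_cancel₀ _ hc₂.ne'] at h4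
  have e1 : ∀ᶠ a : ℝ in 𝓝 0, B * a ^ (γ + γ) < ε₂ := by
    have c : ContinuousAt (fun a : ℝ => B * a ^ (γ + γ)) 0 :=
      continuousAt_const.mul (Real.continuousAt_rpow_const 0 _ (Or.inr (by linarith)))
    have := c.tendsto.eventually_lt_const (u := ε₂)
      (by rw [Real.zero_rpow (by linarith)]; simpa using hε₂)
    exact this
  have e2 : ∀ᶠ a : ℝ in 𝓝 0, K * a ^ γ < σ₂ := by
    have c : ContinuousAt (fun a : ℝ => K * a ^ γ) 0 :=
      continuousAt_const.mul (Real.continuousAt_rpow_const 0 _ (Or.inr hγ.le))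
    have := c.tendsto.eventually_lt_const (u := σ₂)
      (by rw [Real.zero_rpow hγ.ne']; simpa using hσ₂)
    exact this
  obtain ⟨δ', hδ', hb⟩ := Metric.eventually_nhds_iff.1 (e1.and e2)
  refine ⟨C * K + 1, min δ δ', by positivity, lt_min hδ hδ', V, hV, ?_⟩
  intro x hx q hq hf hns c hcx hper a ha haδ hsar
  obtain ⟨u₁, h, m, hu₁, hm, hh, hsemi, hns1, hatt, hmu, Tm, cm, hcm, hTd, hT1, hTb, hrel⟩ := H3 x
    (hx.trans_le ((min_le_left _ _).trans (min_le_left _ _))) q hq hf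
    hns a ha (haδ.trans_le ((min_le_left _ _).trans (min_le_left _ _))) hsar
  obtain ⟨hs1, hs2⟩ := hb (y := a) (by
    rw [Real.dist_eq, sub_zero, abs_of_pos ha]; exact lt_of_lt_of_le haδ (min_le_right _ _))
  rw [hexp] at hmu
  have hag : 0 < a ^ γ := Real.rpow_pos_of_pos ha _
  have hxND : ND x := hbN (by
    rw [dist_eq_norm]
    exact hx.trans_le ((min_le_left _ _).trans (min_le_right _ _)))
  have hu₁U : u₁ ∈ U₀ d := hbU (by
    rw [mem_closedBall, dist_eq_norm]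
    exact (hu₁.trans_le (min_le_right _ _)).le)
  have hd1 : 1 ≤ d := by omega
  have hHC : HC (fam u₁) (fun i => h (c i)) := hc_map hd hxND hu₁U.1 hm h hh hsemi hcx
  obtain ⟨g, hg, hgw⟩ := hc_fam hu₁U.2 hHC
  -- orbits in homogeneous coordinates
  have hit : ∀ (u : Fin (2 * d) → ℂ), ND (fam u) → ∀ (n : ℕ) (w : ℂ),
      (sp (fam u))^[n] (w : OnePoint ℂ) = pr ((hF (fam u))^[n] (w, 1)) := by
    intro u hu n w
    have h1 := (Pool.Agent.H790R3.RB.SP d (fam u) hd1 hu).2.1 (w, 1) (vne w) n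
    rw [← h1]
    congr 1
    simp [pr]
  have hne : ∀ (u : Fin (2 * d) → ℂ), ND (fam u) → ∀ (n : ℕ) (w : ℂ),
      (hF (fam u))^[n] (w, 1) ≠ 0 := fun u hu n w =>
    Pool.Agent.H790R3.RB.ND.iter_ne hu n (vne w)
  intro nq k T KT G hTo hKT hKTT hGd hprop t₁ ht₁ hG₁
  have hr : 0 < K * a ^ γ := by positivity
  have hBsub : closedBall u₁ (K * a ^ γ) ⊆ Tm ⁻¹' ball x ((C * K + 1) * a ^ γ) := by
    intro u hu
    rw [mem_closedBall, dist_eq_norm] at hu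
    rw [mem_preimage, mem_ball, dist_eq_norm]
    calc ‖Tm u - x‖ ≤ C * ‖u - u₁‖ := hTb u
      _ ≤ C * (K * a ^ γ) := mul_le_mul_of_nonneg_left hu hC.le
      _ < (C * K + 1) * a ^ γ := by nlinarith
  obtain ⟨u, t, c', I, -, huB, htT, huU, hG', hc', hcard, hatt', hinf, hdis⟩ :=
    H2 u₁ (hu₁.trans_le (min_le_left _ _)) hns1 hatt nq k
      (Tm ⁻¹' ball x ((C * K + 1) * a ^ γ)) T KT (fun j p => G j (Tm p.1, p.2))
      (isOpen_ball.preimage hTd.continuous) hTo hKT hKTT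
      (fun j => (hGd j).comp (DifferentiableOn.prodMk
        (hTd.comp differentiable_fst).differentiableOn differentiable_snd.differentiableOn)
        fun p hp => ⟨hp.1, hp.2⟩)
      (fun u hu t ht h0 => hprop (Tm u) hu t ht h0) t₁ ht₁
      (hBsub (mem_closedBall_self hr.le)) (fun j => by simp only [hT1]; exact hG₁ j) g hgw
      (by
        intro n hn i hcr
        apply hper n hn i
        apply h.injective
        rw [iter_semi hsemi, hg i, hit u₁ hu₁U.1]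
        have h1 := (pr_eq_iff (hne u₁ hu₁U.1 n (g i)) (vne (g i))).2 hcr
        rw [h1]
        simp [pr])
      (K * a ^ γ) hr hs2.le hBsub (B * a ^ (γ + γ))
      (by have := Real.rpow_nonneg ha.le (γ + γ); positivity) hs1
      (by
        rw [mul_pow, ← Real.rpow_natCast (a ^ γ) 2, ← Real.rpow_mul ha.le]
        have h2 : γ * ((2 : ℕ) : ℝ) = γ + γ := by push_cast; ring
        rw [h2]
        have h3 : 0 < a ^ (γ + γ) := Real.rpow_pos_of_pos ha _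
        nlinarith) hmu 1 one_pos
  -- back to the original coordinates
  have hNDy : ND (Tm u) := by
    intro p hp
    have h1 := hrel u p
    rw [hp, ap_zero', smul_zero] at h1
    exact ap_eq_zero hm (huU.1 _ h1)
  have hsemi' : ∀ z, h (sp (Tm u) z) = sp (fam u) (h z) := fun z =>
    semi hd1 hNDy huU.1 hm hcm (hrel u) h hh z
  have hinv : ∀ z, h.symm (sp (fam u) z) = sp (Tm u) (h.symm z) := by
    intro z
    apply h.injective
    rw [hsemi', h.apply_symm_apply, h.apply_symm_apply]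
  have hdtad : dt (ad m) ≠ 0 := by
    have : dt (ad m) = dt m := by simp only [dt, ad]; ring
    rw [this]
    exact hm
  have hh' : ∀ p : ℂ × ℂ, p ≠ 0 → h.symm (pr p) = pr (ap (ad m) p) := by
    intro p hp
    apply h.injective
    rw [h.apply_symm_apply, hh _ (ap_ne hdtad hp), ad_ap, pr_csmul hm]
  have horb : ∀ (n : ℕ) (w : ℂ), (sp (Tm u))^[n] (h.symm (w : OnePoint ℂ)) =
      h.symm (pr ((hF (fam u))^[n] (w, 1))) := by
    intro n w
    rw [← iter_semi hinv, hit u huU.1]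
  refine ⟨Tm u, t, fun i => h.symm (c' i : OnePoint ℂ), I, huB, htT, hG', hNDy,
    hc_map hd huU.1 hNDy hdtad h.symm hh' hinv (fam_hc hd huU.2 hc'), hcard, ?_, ?_, ?_⟩
  · intro i hi
    exact Pool.Agent.H790R3.RB.ALL.attd h.symm (fun z => (hinv z).symm) (hatt' i hi)
  · intro i hi a b hab
    by_contra hne'
    apply hinf i hi a b hne'
    simp only [horb] at hab
    exact (pr_eq_iff (hne u huU.1 a _) (hne u huU.1 b _)).1 (h.symm.injective hab)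
  · intro i hi j hj hij a b hab
    apply hdis i hi j hj hij a b
    simp only [horb] at hab
    exact (pr_eq_iff (hne u huU.1 a _) (hne u huU.1 b _)).1 (h.symm.injective hab)

theorem pgen (hPCG : PCG) (hNORM : PNORMG) (hNAF : StNAF) (hNAC : StNAC) : PGEN := by
  intro γ d x₀ hγ hγ2 hd hx₀
  have hloc : ∀ q₀ : OnePoint ℂ, Loc γ d x₀ q₀ := by
    intro q₀
    by_cases h1 : sp x₀ q₀ = q₀
    · by_cases h2 : wr x₀ (hc q₀) = 0
      · exact loc_crit hNAC hd hx₀ h1 h2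
      · exact loc_main hPCG hNORM hγ hγ2 hd hx₀ h1 h2
    · exact loc_ne hd hx₀ h1
  choose C δ hC hδ V hV H using hloc
  obtain ⟨t, -, ht⟩ := isCompact_univ.elim_nhds_subcover V (fun q _ => hV q)
  obtain ⟨δ₃, hδ₃, hb3⟩ := Metric.eventually_nhds_iff.1 (Pool.Agent.H790R3.RB.FAM.ND_open hx₀)
  obtain ⟨η, hη, hη1, hη2⟩ : ∃ η : ℝ, 0 < η ∧ η < δ₃ ∧ ∀ q ∈ t, η < δ q := by
    have e1 : ∀ᶠ η : ℝ in 𝓝[>] 0, 0 < η := eventually_mem_nhdsWithin
    have e2 : ∀ᶠ η : ℝ in 𝓝[>] 0, η < δ₃ :=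
      eventually_nhdsWithin_of_eventually_nhds (eventually_lt_nhds hδ₃)
    have e3 : ∀ᶠ η : ℝ in 𝓝[>] 0, ∀ q ∈ t, η < δ q :=
      (Finset.eventually_all t).2 fun q _ =>
        eventually_nhdsWithin_of_eventually_nhds (eventually_lt_nhds (hδ q))
    obtain ⟨η, h1, h2, h3⟩ := (e1.and (e2.and e3)).exists
    exact ⟨η, h1, h2, h3⟩
  have hS : 0 ≤ ∑ q ∈ t, C q := Finset.sum_nonneg fun q _ => (hC q).le
  refine ⟨∑ q ∈ t, C q + 1, η, by linarith, hη, ?_⟩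
  intro x hx c hcx hper a ha haη hsar
  have hag : 0 < a ^ γ := Real.rpow_pos_of_pos ha _
  have hND : ND x := hb3 (by rw [dist_eq_norm]; exact hx.trans hη1)
  obtain ⟨q, hq, hns⟩ := hNAF d x hd hND
  obtain ⟨q₀, hq₀, hqV⟩ := mem_iUnion₂.1 (ht (mem_univ q))
  have h1 := H q₀ x (hx.trans (hη2 q₀ hq₀)) q hqV hq hns c hcx hper a ha
    (haη.trans (hη2 q₀ hq₀)) hsar
  refine h1.mono (mul_le_mul_of_nonneg_right ?_ hag.le)
  have := Finset.single_le_sum (f := C) (fun q _ => (hC q).le) hq₀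
  linarith

end Pool.Agent.H207.GF
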