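import Mathlib
import Pool.Agent.H207.GF.Loc
import Pool.Graph.R_seed8.W757.RD.Main

/-! Project GF: assembly. -/

set_option autoImplicit false

namespace Pool.Agent.H207.GF

open Pool.Agent.W757.RD

theorem p_PSTARTG : PSTARTG := pstartg p_SMK p_MARK p_USC p_LNE p_KOE p_FM

theorem p_PMING : PMING :=
  ming p_FM p_LAM p_LIN p_LSC p_DI p_USC p_ADO p_LF p_IN p_BAD p_CPT p_OPN
    p_EXC p_FKB p_POLE p_ST p_NC p_FWD p_MU Pool.Agent.H790R3.RB.MAXI Pool.Agent.H790R3.RB.CONT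

theorem p_PSELG : PSELG :=
  pselg p_PSTARTG p_MARK p_TRF p_ADO p_PMING p_NUM p_ER p_LAM p_KOE

theorem p_PCG : PCG := pcg p_PSELG p_FM p_LAM p_ADO

theorem p_PNORMG : PNORMG := pnormg (pnm p_FM) p_NA p_MU

theorem p_PGEN : PGEN := pgen p_PCG p_PNORMG p_NAF p_NAC

end Pool.Agent.H207.GF
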