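import Mathlib
import Pool.Agent.H207.GF.Main

/-! Project GF: a rational map has at least two critical points. -/

set_option autoImplicit false

open Polynomial
open Pool.Agent.H790R3.RB (CV hF cr ND wr sp pr hc pol cr_smul_left cr_smul_right hF_smul)
open Pool.Agent.W757.RD
open Pool.Agent.W364.NM (ap ad dt ad_ap ap_ad ap_ne ap_eq_zero ap_smul cr_ap wr_conj wr_eval ad_ad)
open Pool.Agent.H207.CS (HC)
open scoped OnePoint

namespace Pool.Agent.H207.GF

/-- the multiplicity of a critical point is less than the degree -/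
theorem mult {A B : ℂ[X]} {d n : ℕ} {K c : ℂ} (hK : K ≠ 0) (hA : A.natDegree ≤ d)
    (hB : B.natDegree ≤ d) (hBc : B.eval c ≠ 0)
    (h : derivative A * B - A * derivative B = C K * (X - C c) ^ n) : n + 1 ≤ d := by
  set b := B.eval c with hb
  set a := A.eval c with ha
  set R : ℂ[X] := C b * A - C a * B with hR
  have hRd : R.natDegree ≤ d := by
    refine (natDegree_sub_le _ _).trans (max_le ?_ ?_)
    · exact (natDegree_C_mul_le _ _).trans hA
    · exact (natDegree_C_mul_le _ _).trans hB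
  have hRB : derivative R * B - R * derivative B = C (b * K) * (X - C c) ^ n := by
    have h1 : derivative R = C b * derivative A - C a * derivative B := by
      rw [hR, derivative_sub, derivative_C_mul, derivative_C_mul]
    rw [h1, hR, C_mul]
    linear_combination C b * h
  have hR0 : R ≠ 0 := by
    intro h0
    rw [h0, derivative_zero, zero_mul, zero_mul, sub_zero] at hRB
    have h1 := hRB.symm
    rcases mul_eq_zero.1 h1 with h2 | h2
    · exact (mul_ne_zero hBc hK) (C_eq_zero.1 h2)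
    · exact pow_ne_zero n (X_sub_C_ne_zero c) h2
  have hRc : R.IsRoot c := by
    show R.eval c = 0
    rw [hR, eval_sub, eval_mul, eval_mul, eval_C, eval_C, ← ha, ← hb]
    ring
  obtain ⟨S, hS, hSc⟩ := Polynomial.exists_eq_pow_rootMultiplicity_mul_and_not_dvd R hR0 c
  set k := R.rootMultiplicity c with hk
  have hk1 : 1 ≤ k := (rootMultiplicity_pos hR0).2 hRc
  obtain ⟨j, hj⟩ := Nat.exists_eq_add_of_le hk1
  have hSc' : S.eval c ≠ 0 := by
    intro h0
    exact hSc (dvd_iff_isRoot.2 h0)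
  have hkd : k ≤ d := by
    have h1 : ((X - C c) ^ k).natDegree = k := by
      rw [(monic_X_sub_C c).natDegree_pow, natDegree_X_sub_C, mul_one]
    have h2 := natDegree_le_of_dvd (Dvd.intro S hS.symm) hR0
    omega
  -- the order of vanishing of the Wronskian
  set W : ℂ[X] := C (k : ℂ) * S * B + (X - C c) * (derivative S * B - S * derivative B) with hW
  have hWc : W.eval c ≠ 0 := by
    rw [hW, eval_add, eval_mul, eval_mul, eval_C, eval_mul, eval_sub, eval_X, eval_C, sub_self,
      zero_mul, add_zero]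
    refine mul_ne_zero (mul_ne_zero ?_ hSc') hBc
    have : k ≠ 0 := by omega
    exact_mod_cast this
  have hWR : (X - C c) ^ j * W = C (b * K) * (X - C c) ^ n := by
    rw [← hRB, hS, derivative_mul, derivative_X_sub_C_pow, hW, hj]
    have e : 1 + j - 1 = j := by omega
    rw [e, pow_add, pow_one]
    ring
  have hn : n = j := by
    rcases lt_trichotomy n j with h1 | h1 | h1
    · exfalso
      obtain ⟨e, rfl⟩ := Nat.exists_eq_add_of_lt h1
      have h2 : (X - C c) ^ (e + 1) * W = C (b * K) := by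
        have h3 : (X - C c) ^ n * ((X - C c) ^ (e + 1) * W) = (X - C c) ^ n * C (b * K) := by
          rw [← mul_assoc, ← pow_add, ← add_assoc, hWR, mul_comm]
        exact mul_left_cancel₀ (pow_ne_zero n (X_sub_C_ne_zero c)) h3
      have h4 := congrArg (eval c) h2
      rw [eval_mul, eval_pow, eval_sub, eval_X, eval_C, sub_self, pow_succ, mul_zero, zero_mul,
        eval_C] at h4
      exact (mul_ne_zero hBc hK) h4.symm
    · exact h1
    · exfalso
      obtain ⟨e, rfl⟩ := Nat.exists_eq_add_of_lt h1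
      have h2 : W = C (b * K) * (X - C c) ^ (e + 1) := by
        have h3 : (X - C c) ^ j * W = (X - C c) ^ j * (C (b * K) * (X - C c) ^ (e + 1)) := by
          rw [hWR, add_assoc, pow_add]
          ring
        exact mul_left_cancel₀ (pow_ne_zero j (X_sub_C_ne_zero c)) h3
      apply hWc
      rw [h2, eval_mul, eval_pow, eval_sub, eval_X, eval_C, eval_C, sub_self, pow_succ, mul_zero,
        mul_zero]
  omega

/-- There are at least two critical points. -/
theorem two_crit {d : ℕ} (hd : 2 ≤ d) {x : CV d} (hx : ND x)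
    {c : Fin (2 * d - 2) → OnePoint ℂ} (hcx : HC x c) : ∃ i j, c i ≠ c j := by
  by_contra hcon
  push Not at hcon
  have hd1 : 1 ≤ d := by omega
  obtain ⟨K, hK, hw⟩ := hcx
  set i₀ : Fin (2 * d - 2) := ⟨0, by omega⟩ with hi₀
  have hall : ∀ i, c i = c i₀ := fun i => hcon i i₀
  have hw' : ∀ p, wr x p = K * cr p (hc (c i₀)) ^ (2 * d - 2) := by
    intro p
    rw [hw, Finset.prod_congr rfl (fun i _ => by rw [hall i]), Finset.prod_const, Finset.card_univ,
      Fintype.card_fin]
  obtain ⟨m, hm, hmc⟩ : ∃ m, dt m ≠ 0 ∧ ap m (hc (c i₀)) = (0, 1) := by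
    induction c i₀ using OnePoint.rec with
    | infty =>
      refine ⟨((0, -1), (1, 0)), ?_, ?_⟩
      · simp [dt]
      · simp [ap, hc]
    | coe z =>
      refine ⟨((1, -z), (0, 1)), ?_, ?_⟩
      · simp [dt]
      · simp [ap, hc]
  obtain ⟨cj, -, -, -, -, hcj0⟩ := Pool.Agent.H790R3.RB.CJ d
  have hcj : ∀ m x p, hF (cj m x) p = ap m (hF x (ap (ad m) p)) := by
    intro m x p
    rw [hcj0]
    have e : ((m.2.2 * p.1 - m.1.2 * p.2, m.1.1 * p.2 - m.2.1 * p.1) : ℂ × ℂ) = ap (ad m) p := by
      apply Prod.ext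
      · simp only [ap, ad]; ring
      · simp only [ap, ad]; ring
    rw [e]
    rfl
  have hrel : ∀ p, hF (cj m x) (ap m p) = dt m ^ d • ap m (hF x p) := by
    intro p
    rw [hcj, ap_ad, hF_smul, ap_smul]
  have hdtad : dt (ad m) = dt m := by
    simp only [dt, ad]; ring
  have hND : ND (cj m x) := by
    intro p hp
    rw [hcj] at hp
    have h1 := hx _ (ap_eq_zero hm hp)
    exact ap_eq_zero (by rwa [hdtad]) h1
  obtain ⟨K', hK', hwr⟩ : ∃ K' : ℂ, K' ≠ 0 ∧ ∀ ζ : ℂ, wr (cj m x) (ζ, 1) = K' * ζ ^ (2 * d - 2) := by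
    have h5 : dt m ^ (2 * d - 2) ≠ 0 := pow_ne_zero _ hm
    refine ⟨(dt m ^ d) ^ 2 * K / dt m ^ (2 * d - 2),
      div_ne_zero (mul_ne_zero (pow_ne_zero _ (pow_ne_zero _ hm)) hK) h5, fun ζ => ?_⟩
    have h1 := wr_conj hd hm hrel (ap (ad m) (ζ, 1))
    rw [ad_ap, (Pool.Agent.H790R3.RB.WR d (cj m x) hd).1, hw'] at h1
    have h2 : dt m * cr (ap (ad m) (ζ, 1)) (hc (c i₀)) = cr (dt m • ((ζ, 1) : ℂ × ℂ)) (0, 1) := by
      rw [← cr_ap, ad_ap, hmc]
    have h3 : cr (dt m • ((ζ, 1) : ℂ × ℂ)) (0, 1) = dt m * ζ := by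
      rw [cr_smul_left]
      simp [cr]
    have h4 : cr (ap (ad m) (ζ, 1)) (hc (c i₀)) = ζ := mul_left_cancel₀ hm (h2.trans h3)
    rw [h4] at h1
    apply mul_left_cancel₀ h5
    rw [h1]
    field_simp
  obtain ⟨hcop, hmax⟩ := Pool.Agent.H790R3.RB.PQ.part1 hd1 (cj m x) hND
  set A := pol (cj m x) 0 with hA
  set B := pol (cj m x) 1 with hB
  have hAd : A.natDegree ≤ d := by rw [← hmax]; exact le_max_left _ _
  have hBd : B.natDegree ≤ d := by rw [← hmax]; exact le_max_right _ _
  have hd0 : (d : ℂ) ≠ 0 := by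
    have : d ≠ 0 := by omega
    exact_mod_cast this
  have hAB : derivative A * B - A * derivative B = C (K' / d) * (X - C 0) ^ (2 * d - 2) := by
    apply Polynomial.funext
    intro ζ
    have h1 := wr_eval hd (cj m x) ζ
    rw [hwr] at h1
    rw [eval_sub, eval_mul, eval_mul, eval_mul, eval_pow, eval_sub, eval_X, eval_C, eval_C, sub_zero,
      div_mul_eq_mul_div, h1, mul_div_cancel_left₀ _ hd0]
  have h0 : A.eval 0 ≠ 0 ∨ B.eval 0 ≠ 0 := by
    by_contra h
    push Not at h
    have h1 := hND (0, 1) (by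
      rw [Pool.Agent.H790R3.RB.PQ.hF_one]
      exact Prod.ext h.1 h.2)
    simpa using congrArg Prod.snd h1
  have hKd : K' / d ≠ 0 := div_ne_zero hK' hd0
  rcases h0 with h0 | h0
  · have h1 := mult (neg_ne_zero.2 hKd) hBd hAd h0 (n := 2 * d - 2) (by
      rw [C_neg]
      linear_combination -hAB)
    omega
  · have h1 := mult hKd hAd hBd h0 hAB
    omega

end Pool.Agent.H207.GF
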