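import Mathlib
import Pool.Agent.H207.GF.Mult

/-! Project GF: the automorphisms of a rational map form a discrete set. -/

set_option autoImplicit false

open Topology Filter Metric Set
open Pool.Agent.H790R3.RB (CV hF cr ND wr sp pr hc cr_smul_left cr_smul_right hF_smul cr_self
  cr_eq_zero_iff)
open Pool.Agent.W757.RD
open Pool.Agent.W364.NM (ap ad dt ad_ap ap_ad ap_ne ap_eq_zero ap_smul cr_ap wr_conj sp_pr)
open Pool.Agent.H207.CS (HC pr_hc hc_ne pr_eq_iff)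
open scoped OnePoint

namespace Pool.Agent.H207.GF

/-- a quadratic form which vanishes at three points of the projective line -/
theorem quad {α β γ : ℂ} {v w u : ℂ × ℂ} (h1 : cr v w ≠ 0) (h2 : cr v u ≠ 0) (h3 : cr w u ≠ 0)
    (e1 : α * v.2 ^ 2 + β * (v.1 * v.2) + γ * v.1 ^ 2 = 0)
    (e2 : α * w.2 ^ 2 + β * (w.1 * w.2) + γ * w.1 ^ 2 = 0)
    (e3 : α * u.2 ^ 2 + β * (u.1 * u.2) + γ * u.1 ^ 2 = 0) : α = 0 ∧ β = 0 ∧ γ = 0 := by
  have hD : cr v w * cr v u * cr w u ≠ 0 := mul_ne_zero (mul_ne_zero h1 h2) h3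
  unfold cr at hD
  refine ⟨?_, ?_, ?_⟩
  · apply (mul_eq_zero.1 (?_ : (v.1 * w.2 - v.2 * w.1) * (v.1 * u.2 - v.2 * u.1) *
      (w.1 * u.2 - w.2 * u.1) * α = 0)).resolve_left hD
    linear_combination (w.1 ^ 2 * (u.1 * u.2) - (w.1 * w.2) * u.1 ^ 2) * e1 -
      (v.1 ^ 2 * (u.1 * u.2) - (v.1 * v.2) * u.1 ^ 2) * e2 +
      (v.1 ^ 2 * (w.1 * w.2) - (v.1 * v.2) * w.1 ^ 2) * e3
  · apply (mul_eq_zero.1 (?_ : (v.1 * w.2 - v.2 * w.1) * (v.1 * u.2 - v.2 * u.1) *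
      (w.1 * u.2 - w.2 * u.1) * β = 0)).resolve_left hD
    linear_combination (w.2 ^ 2 * u.1 ^ 2 - w.1 ^ 2 * u.2 ^ 2) * e1 -
      (v.2 ^ 2 * u.1 ^ 2 - v.1 ^ 2 * u.2 ^ 2) * e2 +
      (v.2 ^ 2 * w.1 ^ 2 - v.1 ^ 2 * w.2 ^ 2) * e3
  · apply (mul_eq_zero.1 (?_ : (v.1 * w.2 - v.2 * w.1) * (v.1 * u.2 - v.2 * u.1) *
      (w.1 * u.2 - w.2 * u.1) * γ = 0)).resolve_left hD
    linear_combination ((w.1 * w.2) * u.2 ^ 2 - w.2 ^ 2 * (u.1 * u.2)) * e1 -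
      ((v.1 * v.2) * u.2 ^ 2 - v.2 ^ 2 * (u.1 * u.2)) * e2 +
      ((v.1 * v.2) * w.2 ^ 2 - v.2 ^ 2 * (w.1 * w.2)) * e3

/-- the matrices near the identity -/
def mm (n : Fin 3 → ℂ) : (ℂ × ℂ) × (ℂ × ℂ) := ((1 + n 0, n 1), (n 2, 1))

theorem dt_mm (n : Fin 3 → ℂ) : dt (mm n) = 1 + n 0 - n 1 * n 2 := by
  simp [dt, mm]

/-- automorphisms near the identity are trivial -/
theorem aut_isol {d : ℕ} (hd : 2 ≤ d) {x : CV d} (hx : ND x) {c : Fin (2 * d - 2) → OnePoint ℂ}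
    (hcx : HC x c) (hper : ∀ n : ℕ, 1 ≤ n → ∀ i, (sp x)^[n] (c i) ≠ c i) :
    ∃ ρ : ℝ, 0 < ρ ∧ ∀ n : Fin 3 → ℂ, ‖n‖ < ρ → dt (mm n) ≠ 0 ∧
      ∀ e : ℂ, e ≠ 0 → (∀ p, hF x (ap (mm n) p) = e • ap (mm n) (hF x p)) → n = 0 := by
  have hd1 : 1 ≤ d := by omega
  obtain ⟨i₀, j₀, hij⟩ := two_crit hd hx hcx
  obtain ⟨K, hK, hw⟩ := hcx
  have hmc : Continuous (fun n : Fin 3 → ℂ => dt (mm n)) := by
    unfold dt mm
    fun_prop
  have hac : ∀ p q : ℂ × ℂ, Continuous (fun n : Fin 3 → ℂ => cr (ap (mm n) p) q) := by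
    intro p q
    unfold ap mm cr
    fun_prop
  have hap0 : ∀ p, ap (mm 0) p = p := by
    intro p
    simp [ap, mm]
  have hev : ∀ᶠ n in 𝓝 (0 : Fin 3 → ℂ), dt (mm n) ≠ 0 ∧
      ∀ i j, c i ≠ c j → cr (ap (mm n) (hc (c i))) (hc (c j)) ≠ 0 := by
    refine Filter.Eventually.and ?_ (eventually_all.2 fun i => eventually_all.2 fun j => ?_)
    · apply hmc.continuousAt.eventually_ne
      rw [dt_mm]
      simp
    · by_cases h : c i = c j
      · exact Eventually.of_forall fun n h' => absurd h h'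
      · have h1 : cr (ap (mm 0) (hc (c i))) (hc (c j)) ≠ 0 := by
          rw [hap0]
          intro h0
          apply h
          have h2 := (pr_eq_iff (hc_ne (c i)) (hc_ne (c j))).2 h0
          rwa [pr_hc, pr_hc] at h2
        filter_upwards [(hac _ _).continuousAt.eventually_ne h1] with n hn _
        exact hn
  obtain ⟨ρ, hρ, hb⟩ := Metric.eventually_nhds_iff.1 hev
  refine ⟨ρ, hρ, fun n hn => ?_⟩
  obtain ⟨hdt, hne⟩ := hb (y := n) (by rw [dist_zero_right]; exact hn)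
  refine ⟨hdt, fun e he hrel => ?_⟩
  -- critical points are fixed
  have hfix : ∀ i, cr (ap (mm n) (hc (c i))) (hc (c i)) = 0 := by
    intro i
    have h1 : wr x (hc (c i)) = 0 := by
      rw [hw, Finset.prod_eq_zero (Finset.mem_univ i) (cr_self _), mul_zero]
    have h2 := wr_conj hd hdt hrel (hc (c i))
    rw [h1, mul_zero, hw] at h2
    obtain ⟨j, -, hj⟩ := Finset.prod_eq_zero_iff.1 ((mul_eq_zero.1 h2).resolve_left hK)
    by_cases h : c i = c j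
    · rw [h] at hj ⊢
      exact hj
    · exact absurd hj (hne i j h)
  have hfix' : ∀ i, cr (ap (mm n) (hF x (hc (c i)))) (hF x (hc (c i))) = 0 := by
    intro i
    obtain ⟨μ, hμ, h1⟩ := (cr_eq_zero_iff (ap_ne hdt (hc_ne (c i))) (hc_ne (c i))).1 (hfix i)
    have h2 := hrel (hc (c i))
    rw [h1, hF_smul] at h2
    have h3 : ap (mm n) (hF x (hc (c i))) = (e⁻¹ * μ ^ d) • hF x (hc (c i)) := by
      rw [mul_smul, h2, smul_smul, inv_mul_cancel₀ he, one_smul]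
    rw [h3, cr_smul_left, cr_self, mul_zero]
  -- the quadratic form
  have hq : ∀ v : ℂ × ℂ, cr (ap (mm n) v) v = 0 →
      n 1 * v.2 ^ 2 + n 0 * (v.1 * v.2) + (-n 2) * v.1 ^ 2 = 0 := by
    intro v hv
    simp only [cr, ap, mm] at hv
    linear_combination hv
  have hF0 : ∀ i, hF x (hc (c i)) ≠ 0 := fun i h => hc_ne (c i) (hx _ h)
  have hsp : ∀ i, pr (hF x (hc (c i))) = sp x (c i) := by
    intro i
    rfl
  have hcrc : ∀ {i j}, c i ≠ c j → cr (hc (c i)) (hc (c j)) ≠ 0 := by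
    intro i j h h0
    apply h
    have h2 := (pr_eq_iff (hc_ne (c i)) (hc_ne (c j))).2 h0
    rwa [pr_hc, pr_hc] at h2
  have hcrf : ∀ {i j}, sp x (c j) ≠ c i → cr (hc (c i)) (hF x (hc (c j))) ≠ 0 := by
    intro i j h h0
    apply h
    have h2 := (pr_eq_iff (hc_ne (c i)) (hF0 j)).2 h0
    rw [pr_hc, hsp] at h2
    exact h2.symm
  have hper1 : ∀ i, sp x (c i) ≠ c i := fun i => hper 1 le_rfl i
  have hfin : n 1 = 0 ∧ n 0 = 0 ∧ -n 2 = 0 := by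
    by_cases h : sp x (c i₀) = c j₀
    · refine quad (hcrc hij) (hcrf (i := i₀) (j := j₀) ?_) (hcrf (hper1 j₀)) (hq _ (hfix i₀))
        (hq _ (hfix j₀)) (hq _ (hfix' j₀))
      have h2 := hper 2 (by norm_num) i₀
      rw [Function.iterate_succ_apply, Function.iterate_one, h] at h2
      exact h2
    · exact quad (hcrc hij) (hcrf (hper1 i₀)) (hcrf h) (hq _ (hfix i₀))
        (hq _ (hfix j₀)) (hq _ (hfix' i₀))
  funext j
  fin_cases j
  · exact hfin.2.1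
  · exact hfin.1
  · exact neg_eq_zero.1 hfin.2.2

end Pool.Agent.H207.GF
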