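import Mathlib
import Pool.Agent.H207.GF.Aut

/-! Project GF: analytic families of rational maps. -/

set_option autoImplicit false

open Topology Filter Metric Set MeasureTheory
open Pool.Agent.H790R3.RB (CV hF cr ND wr sp pr hc HypTop Attd Sink cr_smul_left cr_smul_right
  hF_smul)
open Pool.Agent.W757.RD
open Pool.Agent.W364.NM (ap ad dt ad_ap ap_ad sp_pr vne pr_csmul ap_ne ap_eq_zero semi ap_zero'
  ap_smul hF_csmul)
open Pool.Agent.H207.CS (HC hc_map pr_eq_iff)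
open scoped OnePoint

namespace Pool.Agent.H207.GF

/-- isolated solutions persist, with uniform bounds -/
theorem proper_of {q k : ℕ} {V : Type} [NormedAddCommGroup V] {G : Fin k → V × (Fin q → ℂ) → ℂ}
    {x₁ : V} {t₁ : Fin q → ℂ} {r₀ ρ : ℝ} (hr₀ : 0 < r₀) (hρ : 0 < ρ)
    (hG : ∀ j, ContinuousOn (G j) (ball x₁ r₀ ×ˢ closedBall t₁ ρ))
    (hu : ∀ t ∈ closedBall t₁ ρ, (∀ j, G j (x₁, t) = 0) → t = t₁) :
    ∃ r' : ℝ, 0 < r' ∧ r' ≤ r₀ ∧ ∀ y ∈ ball x₁ r', ∀ t ∈ ball t₁ ρ, (∀ j, G j (y, t) = 0) →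
      t ∈ closedBall t₁ (ρ / 2) := by
  by_contra hcon
  push Not at hcon
  -- sequences
  have hstep : ∀ n : ℕ, ∃ (y : V) (t : Fin q → ℂ), y ∈ ball x₁ (r₀ / (n + 2)) ∧ t ∈ ball t₁ ρ ∧
      (∀ j, G j (y, t) = 0) ∧ t ∉ closedBall t₁ (ρ / 2) := by
    intro n
    have h1 : (0 : ℝ) < n + 2 := by positivity
    have h0 : (0 : ℝ) ≤ n := Nat.cast_nonneg n
    obtain ⟨y, hy, t, ht, h2, h3⟩ := hcon (r₀ / (n + 2)) (by positivity) (by
      rw [div_le_iff₀ h1]
      nlinarith)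
    exact ⟨y, t, hy, ht, h2, h3⟩
  choose y t hy ht hG0 htn using hstep
  have htc : ∀ n, t n ∈ closedBall t₁ ρ := fun n => ball_subset_closedBall (ht n)
  obtain ⟨s, hs, φ, hφ, hlim⟩ := (isCompact_closedBall t₁ ρ).tendsto_subseq htc
  have hylim : Tendsto y atTop (𝓝 x₁) := by
    rw [tendsto_iff_norm_sub_tendsto_zero]
    have h2 : Tendsto (fun n : ℕ => r₀ / ((n : ℝ) + 2)) atTop (𝓝 0) := by
      refine Tendsto.div_atTop tendsto_const_nhds ?_
      exact tendsto_atTop_add_const_right _ _ tendsto_natCast_atTop_atTop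
    refine squeeze_zero (fun n => norm_nonneg _) (fun n => ?_) h2
    have := hy n
    rw [mem_ball, dist_eq_norm] at this
    exact this.le
  have hy' : Tendsto (fun n => y (φ n)) atTop (𝓝 x₁) := hylim.comp hφ.tendsto_atTop
  have hyball : ∀ n, y n ∈ ball x₁ r₀ := by
    intro n
    have h1 : (0 : ℝ) < n + 2 := by positivity
    have h0 : (0 : ℝ) ≤ n := Nat.cast_nonneg n
    refine ball_subset_ball ?_ (hy n)
    rw [div_le_iff₀ h1]
    nlinarith
  have hs1 : s = t₁ := by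
    apply hu s hs
    intro j
    have hc := hG j (x₁, s) ⟨mem_ball_self hr₀, hs⟩
    have h1 : Tendsto (fun n => (y (φ n), t (φ n))) atTop
        (𝓝[ball x₁ r₀ ×ˢ closedBall t₁ ρ] (x₁, s)) := by
      rw [tendsto_nhdsWithin_iff]
      exact ⟨hy'.prodMk_nhds hlim, Eventually.of_forall fun n => ⟨hyball _, htc _⟩⟩
    have h2 := hc.tendsto.comp h1
    have h3 : (G j ∘ fun n => (y (φ n), t (φ n))) = fun _ => 0 := by
      funext n
      exact hG0 (φ n) j
    rw [h3] at h2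
    exact tendsto_nhds_unique h2 tendsto_const_nhds
  rw [hs1] at hlim
  have h4 := hlim.eventually (closedBall_mem_nhds t₁ (half_pos hρ))
  obtain ⟨n, hn⟩ := h4.exists
  exact htn (φ n) hn

/-- transfer by a homeomorphism -/
theorem Dis.map {d : ℕ} {x y : CV d} {c : Fin (2 * d - 2) → OnePoint ℂ}
    {I : Finset (Fin (2 * d - 2))} (h : Dis y c I) (H : OnePoint ℂ ≃ₜ OnePoint ℂ)
    (hH : ∀ z, H (sp x z) = sp y (H z)) : Dis x (fun i => H.symm (c i)) I := by
  have hinv : ∀ z, H.symm (sp y z) = sp x (H.symm z) := by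
    intro z
    apply H.injective
    rw [hH, H.apply_symm_apply, H.apply_symm_apply]
  have hit : ∀ (n : ℕ) (z : OnePoint ℂ), (sp x)^[n] (H.symm z) = H.symm ((sp y)^[n] z) :=
    fun n z => (iter_semi hinv n z).symm
  refine ⟨fun i hi => ?_, fun i hi a b hab => ?_, fun i hi j hj hij a b hab => ?_⟩
  · exact Pool.Agent.H790R3.RB.ALL.attd H.symm (fun z => (hinv z).symm) (h.att i hi)
  · rw [hit, hit] at hab
    exact h.inf i hi a b (H.symm.injective hab)
  · simp only [hit] at hab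
    exact h.dis i hi j hj hij a b (H.symm.injective hab)

theorem sar_zero {E : Set ℂ} (h : volume E = 0) : sar E = 0 := by
  unfold sar
  exact setLIntegral_measure_zero _ _ h

/-- zero area: solutions of the equations in arbitrarily small balls -/
theorem con_small {d : ℕ} (hd : 2 ≤ d) {x : CV d} (hx : ND x)
    {c : Fin (2 * d - 2) → OnePoint ℂ} (hcx : HC x c)
    (hper : ∀ n : ℕ, 1 ≤ n → ∀ i, (sp x)^[n] (c i) ≠ c i)
    (h0 : volume {z : ℂ | ¬ Attd (sp x) (z : OnePoint ℂ)} = 0) {ε : ℝ} (hε : 0 < ε) :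
    ∃ r : ℝ, 0 < r ∧ r ≤ ε ∧ Con x r := by
  obtain ⟨C, δ, hC, hδ, H⟩ := p_PGEN (1 / 4) d x (by norm_num) (by norm_num) hd hx
  have h1 : ∀ᶠ a : ℝ in 𝓝 0, C * a ^ (1 / 4 : ℝ) < ε := by
    have h3 : ContinuousAt (fun a : ℝ => C * a ^ (1 / 4 : ℝ)) 0 :=
      continuousAt_const.mul (Real.continuousAt_rpow_const 0 _ (Or.inr (by norm_num)))
    have := h3.tendsto.eventually_lt_const (u := ε)
      (by rw [Real.zero_rpow (by norm_num)]; simpa using hε)
    exact this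
  have h2 : ∀ᶠ a : ℝ in 𝓝 0, a < δ := eventually_lt_nhds hδ
  obtain ⟨a, ⟨ha1, ha2⟩, ha0⟩ := (((h1.and h2).filter_mono nhdsWithin_le_nhds).and
    (self_mem_nhdsWithin : Ioi (0 : ℝ) ∈ 𝓝[>] (0 : ℝ))).exists
  have ha0' : 0 < a := ha0
  exact ⟨C * a ^ (1 / 4 : ℝ), by positivity, ha1.le, H x (by rw [sub_self, norm_zero]; exact hδ) c
    hcx hper a ha0' ha2 (by rw [sar_zero h0]; exact zero_le)⟩

/-- Analytic families: a map which is isolated in its Möbius class. -/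
theorem fam_main {d : ℕ} (hd : 2 ≤ d) {m k : ℕ} {Λ : Set (Fin m → ℂ)}
    {X : (Fin m → ℂ) → CV d} {G : Fin k → (Fin m → ℂ) → ℂ} (hΛ : IsOpen Λ)
    (hX : DifferentiableOn ℂ X Λ) (hND : ∀ l ∈ Λ, ND (X l))
    (hG : ∀ j, DifferentiableOn ℂ (G j) Λ) {l₀ : Fin m → ℂ} (hl₀ : l₀ ∈ Λ)
    (hG₀ : ∀ j, G j l₀ = 0) {r₁ : ℝ} (hr₁ : 0 < r₁)
    (hiso : ∀ l ∈ Λ, ‖l - l₀‖ < r₁ → (∀ j, G j l = 0) →
      (∃ M : (ℂ × ℂ) × (ℂ × ℂ), dt M ≠ 0 ∧ ∃ e : ℂ, e ≠ 0 ∧
        ∀ p, hF (X l₀) (ap M p) = e • ap M (hF (X l) p)) → l = l₀)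
    {c : Fin (2 * d - 2) → OnePoint ℂ} (hcx : HC (X l₀) c)
    (hper : ∀ n : ℕ, 1 ≤ n → ∀ i, (sp (X l₀))^[n] (c i) ≠ c i)
    (h0 : volume {z : ℂ | ¬ Attd (sp (X l₀)) (z : OnePoint ℂ)} = 0) {ε : ℝ} (hε : 0 < ε) :
    ∃ l ∈ Λ, ‖l - l₀‖ < ε ∧ (∀ j, G j l = 0) ∧ ∃ (c' : Fin (2 * d - 2) → OnePoint ℂ)
      (I : Finset (Fin (2 * d - 2))), HC (X l) c' ∧ m ≤ k + I.card ∧ Dis (X l) c' I := by
  have hd1 : 1 ≤ d := by omega
  obtain ⟨cj, hcjC, hadd, hsmul, hid, hcj0⟩ := Pool.Agent.H790R3.RB.CJ d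
  have hcj : ∀ m x p, hF (cj m x) p = ap m (hF x (ap (ad m) p)) := by
    intro m x p
    rw [hcj0]
    have e : ((m.2.2 * p.1 - m.1.2 * p.2, m.1.1 * p.2 - m.2.1 * p.1) : ℂ × ℂ) = ap (ad m) p := by
      apply Prod.ext
      · simp only [ap, ad]; ring
      · simp only [ap, ad]; ring
    rw [e]
    rfl
  have hcjap : ∀ m x p, hF (cj m x) (ap m p) = dt m ^ d • ap m (hF x p) := by
    intro m x p
    rw [hcj, ap_ad, hF_smul, ap_smul]
  -- the unknowns
  let Lm : (Fin (m + 4) → ℂ) → (Fin m → ℂ) := fun t i => t (Fin.castAdd 4 i)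
  let nn : (Fin (m + 4) → ℂ) → (Fin 3 → ℂ) := fun t j => t (Fin.natAdd m (Fin.castSucc j))
  let st : (Fin (m + 4) → ℂ) → ℂ := fun t => t (Fin.natAdd m (Fin.last 3))
  have hLmd : Differentiable ℂ Lm := by
    rw [differentiable_pi]
    exact fun i => differentiable_apply _
  have hnnd : ∀ j, Differentiable ℂ (fun t => nn t j) := fun j => differentiable_apply _
  have hstd : Differentiable ℂ st := differentiable_apply _
  have hmmd : Differentiable ℂ (fun t => mm (nn t)) := by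
    unfold mm
    exact (((hnnd 0).const_add 1).prodMk (hnnd 1)).prodMk
      ((hnnd 2).prodMk (differentiable_const 1))
  obtain ⟨t₁, ht₁L, ht₁n, ht₁s⟩ : ∃ t₁ : Fin (m + 4) → ℂ, Lm t₁ = l₀ ∧ nn t₁ = 0 ∧ st t₁ = 1 := by
    refine ⟨Fin.append l₀ (fun j : Fin 4 => if j = Fin.last 3 then 1 else 0), ?_, ?_, ?_⟩
    · funext i
      simp only [Lm, Fin.append_left]
    · funext j
      simp only [nn, Fin.append_right, Pi.zero_apply]
      rw [if_neg]
      exact (Fin.castSucc_lt_last j).ne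
    · simp only [st, Fin.append_right, if_true]
  have hext : ∀ t, Lm t = l₀ → nn t = 0 → st t = 1 → t = t₁ := by
    intro t h1 h2 h3
    funext i
    refine Fin.addCases (fun i => ?_) (fun j => ?_) i
    · have e1 := congrFun h1 i
      have e2 := congrFun ht₁L i
      exact e1.trans e2.symm
    · refine Fin.lastCases ?_ (fun j => ?_) j
      · exact h3.trans ht₁s.symm
      · have e1 := congrFun h2 j
        have e2 := congrFun ht₁n j
        exact e1.trans e2.symm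
  have hnormL : ∀ t, ‖Lm t - l₀‖ ≤ ‖t - t₁‖ := by
    intro t
    rw [pi_norm_le_iff_of_nonneg (norm_nonneg _)]
    intro i
    have := norm_le_pi_norm (t - t₁) (Fin.castAdd 4 i)
    rw [← ht₁L]
    exact this
  have hnormn : ∀ t, ‖nn t‖ ≤ ‖t - t₁‖ := by
    intro t
    rw [pi_norm_le_iff_of_nonneg (norm_nonneg _)]
    intro j
    have := norm_le_pi_norm (t - t₁) (Fin.natAdd m (Fin.castSucc j))
    have e2 := congrFun ht₁n j
    have e3 : (t - t₁) (Fin.natAdd m (Fin.castSucc j)) = nn t j := by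
      rw [Pi.sub_apply]
      change _ - nn t₁ j = _
      rw [e2, Pi.zero_apply, sub_zero]
    rw [e3] at this
    exact this
  have hnorms : ∀ t, ‖st t - 1‖ ≤ ‖t - t₁‖ := by
    intro t
    have := norm_le_pi_norm (t - t₁) (Fin.natAdd m (Fin.last 3))
    rw [← ht₁s]
    exact this
  -- radii
  obtain ⟨ρ₁, hρ₁, haut⟩ := aut_isol hd (hND l₀ hl₀) hcx hper
  obtain ⟨rΛ, hrΛ, hballΛ⟩ := Metric.isOpen_iff.1 hΛ l₀ hl₀
  obtain ⟨ρ, hρ, hρ1, hρ2, hρ3, hρ4, hρ5⟩ : ∃ ρ : ℝ, 0 < ρ ∧ ρ < ρ₁ ∧ ρ < rΛ ∧ ρ < r₁ ∧ ρ < ε ∧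
      ρ < 1 := by
    refine ⟨min (min ρ₁ rΛ) (min (min r₁ ε) 1) / 2, ?_, ?_, ?_, ?_, ?_, ?_⟩
    · have : 0 < min (min ρ₁ rΛ) (min (min r₁ ε) 1) :=
        lt_min (lt_min hρ₁ hrΛ) (lt_min (lt_min hr₁ hε) one_pos)
      linarith
    all_goals
      have h0 : 0 < min (min ρ₁ rΛ) (min (min r₁ ε) 1) :=
        lt_min (lt_min hρ₁ hrΛ) (lt_min (lt_min hr₁ hε) one_pos)
      have h1 : min (min ρ₁ rΛ) (min (min r₁ ε) 1) ≤ ρ₁ := (min_le_left _ _).trans (min_le_left _ _)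
      have h2 : min (min ρ₁ rΛ) (min (min r₁ ε) 1) ≤ rΛ := (min_le_left _ _).trans (min_le_right _ _)
      have h3 : min (min ρ₁ rΛ) (min (min r₁ ε) 1) ≤ r₁ :=
        (min_le_right _ _).trans ((min_le_left _ _).trans (min_le_left _ _))
      have h4 : min (min ρ₁ rΛ) (min (min r₁ ε) 1) ≤ ε :=
        (min_le_right _ _).trans ((min_le_left _ _).trans (min_le_right _ _))
      have h5 : min (min ρ₁ rΛ) (min (min r₁ ε) 1) ≤ 1 := (min_le_right _ _).trans (min_le_right _ _)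
      linarith
  have hcl : ∀ t ∈ closedBall t₁ ρ, ‖t - t₁‖ ≤ ρ := fun t ht => by
    rw [mem_closedBall, dist_eq_norm] at ht
    exact ht
  have hmemΛ : ∀ t ∈ closedBall t₁ ρ, Lm t ∈ Λ := by
    intro t ht
    apply hballΛ
    rw [mem_ball, dist_eq_norm]
    exact lt_of_le_of_lt ((hnormL t).trans (hcl t ht)) hρ2
  have hst0 : ∀ t ∈ closedBall t₁ ρ, st t ≠ 0 := by
    intro t ht h
    have h1 := (hnorms t).trans (hcl t ht)
    rw [h, zero_sub, norm_neg, norm_one] at h1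
    linarith
  have hdt0 : ∀ t ∈ closedBall t₁ ρ, dt (mm (nn t)) ≠ 0 := fun t ht =>
    (haut (nn t) (lt_of_le_of_lt ((hnormn t).trans (hcl t ht)) hρ1)).1
  -- the equations
  let W : (Fin (m + 4) → ℂ) → CV d := fun t => st t • cj (mm (nn t)) (X (Lm t))
  have hcjd : Differentiable ℂ (fun q : ((ℂ × ℂ) × (ℂ × ℂ)) × CV d => cj q.1 q.2) :=
    hcjC.differentiable (by norm_num)
  have hWd : DifferentiableOn ℂ W {t | Lm t ∈ Λ} := by
    have h1 : DifferentiableOn ℂ (fun t => X (Lm t)) {t | Lm t ∈ Λ} :=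
      hX.comp hLmd.differentiableOn fun t ht => ht
    have h2 : DifferentiableOn ℂ (fun t => (mm (nn t), X (Lm t))) {t | Lm t ∈ Λ} :=
      hmmd.differentiableOn.prodMk h1
    have h3 : DifferentiableOn ℂ (fun t => cj (mm (nn t)) (X (Lm t))) {t | Lm t ∈ Λ} :=
      hcjd.comp_differentiableOn h2
    exact hstd.differentiableOn.smul h3
  have hWrel : ∀ t p, hF (W t) (ap (mm (nn t)) p) =
      (st t * dt (mm (nn t)) ^ d) • ap (mm (nn t)) (hF (X (Lm t)) p) := by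
    intro t p
    rw [hF_csmul, hcjap, smul_smul]
  let Gq : Fin (2 * (d + 1) + k) → CV d × (Fin (m + 4) → ℂ) → ℂ := fun e p =>
    Fin.addCases (fun e => p.1 (finProdFinEquiv.symm e) - W p.2 (finProdFinEquiv.symm e))
      (fun j => G j (Lm p.2)) e
  have hGl : ∀ e p, Gq (Fin.castAdd k e) p =
      p.1 (finProdFinEquiv.symm e) - W p.2 (finProdFinEquiv.symm e) := by
    intro e p
    simp only [Gq, Fin.addCases_left]
  have hGr : ∀ j p, Gq (Fin.natAdd (2 * (d + 1)) j) p = G j (Lm p.2) := by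
    intro j p
    simp only [Gq, Fin.addCases_right]
  have hGiff : ∀ y t, (∀ e, Gq e (y, t) = 0) ↔ y = W t ∧ ∀ j, G j (Lm t) = 0 := by
    intro y t
    constructor
    · intro h
      refine ⟨?_, fun j => ?_⟩
      · funext e
        have h1 := h (Fin.castAdd k (finProdFinEquiv e))
        rw [hGl, Equiv.symm_apply_apply] at h1
        exact sub_eq_zero.1 h1
      · have h1 := h (Fin.natAdd (2 * (d + 1)) j)
        rwa [hGr] at h1
    · rintro ⟨h1, h2⟩ e
      refine Fin.addCases (fun e => ?_) (fun j => ?_) e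
      · rw [hGl, h1, sub_self]
      · rw [hGr]
        exact h2 j
  have hGd : ∀ e, DifferentiableOn ℂ (Gq e) (univ ×ˢ {t | Lm t ∈ Λ}) := by
    intro e
    refine Fin.addCases (fun e => ?_) (fun j => ?_) e
    · have e1 : Gq (Fin.castAdd k e) = fun p => p.1 (finProdFinEquiv.symm e) -
          W p.2 (finProdFinEquiv.symm e) := by
        funext p
        exact hGl e p
      rw [e1]
      have h1 : Differentiable ℂ (fun p : CV d × (Fin (m + 4) → ℂ) =>
          p.1 (finProdFinEquiv.symm e)) := differentiable_pi.1 differentiable_fst _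
      have h2 : DifferentiableOn ℂ (fun p : CV d × (Fin (m + 4) → ℂ) => W p.2)
          (univ ×ˢ {t | Lm t ∈ Λ}) := hWd.comp differentiable_snd.differentiableOn fun p hp => hp.2
      exact h1.differentiableOn.sub (differentiableOn_pi.1 h2 _)
    · have e1 : Gq (Fin.natAdd (2 * (d + 1)) j) = fun p => G j (Lm p.2) := by
        funext p
        exact hGr j p
      rw [e1]
      exact (hG j).comp (hLmd.comp differentiable_snd).differentiableOn fun p hp => hp.2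
  -- uniqueness
  have huniq : ∀ t ∈ closedBall t₁ ρ, (∀ e, Gq e (X l₀, t) = 0) → t = t₁ := by
    intro t ht h
    obtain ⟨h1, h2⟩ := (hGiff _ _).1 h
    have hrel := hWrel t
    rw [← h1] at hrel
    have hl : Lm t = l₀ := hiso (Lm t) (hmemΛ t ht)
      (lt_of_le_of_lt ((hnormL t).trans (hcl t ht)) hρ3) h2
      ⟨mm (nn t), hdt0 t ht, _, mul_ne_zero (hst0 t ht) (pow_ne_zero _ (hdt0 t ht)), hrel⟩
    rw [hl] at hrel
    have hn : nn t = 0 := (haut (nn t) (lt_of_le_of_lt ((hnormn t).trans (hcl t ht)) hρ1)).2 _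
      (mul_ne_zero (hst0 t ht) (pow_ne_zero _ (hdt0 t ht))) hrel
    refine hext t hl hn ?_
    have hW1 : W t = st t • X l₀ := by
      simp only [W, hl, hn]
      have : mm 0 = ((1, 0), (0, 1)) := by simp [mm]
      rw [this, hid]
    rw [hW1] at h1
    have hX0 : X l₀ ≠ 0 := by
      intro h0
      have h3 : hF (X l₀) (1, 0) = 0 := by
        rw [h0]
        unfold hF
        simp
      have h4 := hND l₀ hl₀ _ h3
      simpa using congrArg Prod.fst h4
    have h5 : (st t - 1) • X l₀ = 0 := by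
      rw [sub_smul, one_smul, ← h1, sub_self]
    exact sub_eq_zero.1 ((smul_eq_zero.1 h5).resolve_right hX0)
  obtain ⟨r', hr', -, hprop⟩ := proper_of (G := Gq) (x₁ := X l₀) (t₁ := t₁) one_pos hρ
    (fun e => ((hGd e).continuousOn).mono fun p hp => ⟨mem_univ _, hmemΛ _ hp.2⟩) huniq
  obtain ⟨r, hr, hrr, hCon⟩ := con_small hd (hND l₀ hl₀) hcx hper h0 hr'
  have hsub : closedBall t₁ (ρ / 2) ⊆ ball t₁ ρ :=
    closedBall_subset_ball (by linarith)
  have hG₁ : ∀ e, Gq e (X l₀, t₁) = 0 := by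
    rw [hGiff]
    refine ⟨?_, ?_⟩
    · simp only [W, ht₁L, ht₁n, ht₁s, one_smul]
      have : mm 0 = ((1, 0), (0, 1)) := by simp [mm]
      rw [this, hid]
    · rw [ht₁L]
      exact hG₀
  obtain ⟨y, t, c', I, hy, ht, hGy, hNDy, hHC, hcard, hDis⟩ := hCon (m + 4) (2 * (d + 1) + k)
    (ball t₁ ρ) (closedBall t₁ (ρ / 2)) Gq isOpen_ball (isCompact_closedBall _ _) hsub
    (fun e => (hGd e).mono fun p hp => ⟨mem_univ _, hmemΛ _ (ball_subset_closedBall hp.2)⟩)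
    (fun y hy t ht h => hprop y (ball_subset_ball hrr hy) t ht h) t₁ (mem_ball_self hρ) hG₁
  have htc := ball_subset_closedBall ht
  obtain ⟨hyW, hGt⟩ := (hGiff _ _).1 hGy
  have hrel := hWrel t
  rw [← hyW] at hrel
  have he0 := mul_ne_zero (hst0 t htc) (pow_ne_zero d (hdt0 t htc))
  have hNDl := hND _ (hmemΛ t htc)
  obtain ⟨h, hh, -⟩ := Pool.Agent.H790R3.RB.MOB Pool.Agent.H790R3.RB.SP (mm (nn t)).1.1
    (mm (nn t)).1.2 (mm (nn t)).2.1 (mm (nn t)).2.2 (hdt0 t htc)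
  have hh' : ∀ p : ℂ × ℂ, p ≠ 0 → h (pr p) = pr (ap (mm (nn t)) p) := hh
  have hsemi : ∀ z, h (sp (X (Lm t)) z) = sp y (h z) := fun z =>
    semi hd1 hNDl hNDy (hdt0 t htc) he0 hrel h hh' z
  have hinv : ∀ z, h.symm (sp y z) = sp (X (Lm t)) (h.symm z) := by
    intro z
    apply h.injective
    rw [hsemi, h.apply_symm_apply, h.apply_symm_apply]
  have hdtad : dt (ad (mm (nn t))) ≠ 0 := by
    have : dt (ad (mm (nn t))) = dt (mm (nn t)) := by simp only [dt, ad]; ring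
    rw [this]
    exact hdt0 t htc
  have hh2 : ∀ p : ℂ × ℂ, p ≠ 0 → h.symm (pr p) = pr (ap (ad (mm (nn t))) p) := by
    intro p hp
    apply h.injective
    rw [h.apply_symm_apply, hh' _ (ap_ne hdtad hp), ad_ap, pr_csmul (hdt0 t htc)]
  refine ⟨Lm t, hmemΛ t htc, lt_of_le_of_lt ((hnormL t).trans (hcl t htc)) hρ4, hGt,
    fun i => h.symm (c' i), I, hc_map hd hNDy hNDl hdtad h.symm hh2 hinv hHC, by omega,
    hDis.map h hsemi⟩

end Pool.Agent.H207.GF
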